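import Pool.Agent.Lib.DT.H3.Spec
import Pool.Agent.Lib.DI.B.A12

/-!
# DT, part H3: the root of unity `zet 3` and the two Kummer characters (helper50)
-/

set_option autoImplicit false

open scoped Pointwise nonZeroDivisors

noncomputable section

namespace Pool.Agent.DT.H3

open Pool.Agent.MuZ Pool.Agent.FW NumberField IsDedekindDomain
open Pool.Agent.DI (io ofC io_inj exists_io io_ofC ofC_io VP MP UP TP ex)
open Pool.Agent.DT

private theorem Zt_cbr (w : Om) : cbr w ^ 3 = w := by
  have h : ∃ y : Om, y ^ 3 = w := IsAlgClosed.exists_pow_nat_eq w (by norm_num)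
  unfold cbr
  rw [dif_pos h]
  exact h.choose_spec

/-- The root of unity `zet 3` and the two Kummer characters. -/
theorem tZt (h1 : S_pKa) : S_hZt := by
  classical
  have hF : Fact (Nat.Prime 3) := ⟨Nat.prime_three⟩
  have hz : IsPrimitiveRoot (zet 3) 3 := (Pool.Agent.DI.tA2 3 (by norm_num)).2
  refine ⟨hz, ?_⟩
  intro w d hw hd hdz
  obtain ⟨hiff, hval⟩ := (h1 3 (zet 3) hz).1 w (cbr w) d hw (Zt_cbr w) hd hdz
  have h0 := hiff 0
  have h11 := hiff 1
  have h2 := hiff 2
  rw [pow_zero, one_mul, Nat.cast_zero] at h0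
  rw [pow_one, Nat.cast_one] at h11
  unfold kap
  by_cases ha : d (cbr w) = cbr w
  · rw [if_pos ha]
    exact (h0.1 ha).symm
  · rw [if_neg ha]
    by_cases hb : d (cbr w) = zet 3 * cbr w
    · rw [if_pos hb]
      exact (h11.1 hb).symm
    · rw [if_neg hb]
      have hlt : (kp 3 (zet 3) w d).val < 3 := ZMod.val_lt _
      have hn0 : (kp 3 (zet 3) w d).val ≠ 0 := by
        intro h
        rw [h, pow_zero, one_mul] at hval
        exact ha hval
      have hn1 : (kp 3 (zet 3) w d).val ≠ 1 := by
        intro h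
        rw [h, pow_one] at hval
        exact hb hval
      have hv2 : (kp 3 (zet 3) w d).val = 2 := by omega
      rw [hv2] at hval
      have h3 := h2.1 hval
      rw [h3]
      rfl

end Pool.Agent.DT.H3
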