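import Pool.Agent.Lib.DT.H3.Spec

/-!
# Theorem DT, part H, module T3: `3` divides `|T|`
-/

set_option autoImplicit false

open scoped Pointwise nonZeroDivisors

noncomputable section

namespace Pool.Agent.DT.H3

open Pool.Agent.MuZ Pool.Agent.FW NumberField IsDedekindDomain
open Pool.Agent.DI (io ofC io_inj exists_io io_ofC ofC_io VP MP UP TP ex)
open Pool.Agent.DT

variable {k t : ℕ}

namespace T3Aux

theorem mem_ppb (h4 : S_O4) [SqT k t] {n : ℕ} (hn : 3 ∣ n) : (n : OO k t) ∈ ppb k t := by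
  rw [(h4 k t).2.2.2.2.2.2.2.2.2.2.2, re_nat, im_nat, add_zero]
  exact_mod_cast hn

/-- A map with `e ^ 3 = 1` without fixed points. -/
theorem card_dvd {α : Type} [Fintype α] [DecidableEq α] (e : α → α) (h3 : ∀ x, e (e (e x)) = x)
    (h1 : ∀ x, e x ≠ x) : 3 ∣ Fintype.card α := by
  have : Fact (Nat.Prime 3) := ⟨Nat.prime_three⟩
  let E : Function.End α := e
  have h2 : E ^ 3 ^ 1 = 1 := by
    funext x
    exact h3 x
  have h4 := Equiv.Perm.card_fixedPoints_modEq h2
  have h5 : Fintype.card (Function.fixedPoints E) = 0 := by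
    rw [Fintype.card_eq_zero_iff]
    exact ⟨fun x => h1 x.1 x.2⟩
  have h6 : Fintype.card α ≡ 0 [MOD 3] := h4.trans (by
    rw [h5])
  exact (Nat.modEq_zero_iff_dvd).1 h6

end T3Aux

theorem tT3 (h1 : S_O4) (h2 : S_hHN) : S_hT3 := by
  classical
  intro k t _ f N T hf hN hT
  obtain ⟨hone, hmul, hcong, hprop, -⟩ := h2 k t f N hf hN
  set M : ℕ := f * 3 ^ N with hM
  have h3M : 3 ∣ M := (dvd_pow_self 3 (by omega)).trans (Dvd.intro_left f rfl)
  -- the element `v = 1 + M`
  set v : OO k t := 1 + (M : OO k t) with hv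
  have hvH : HN f N v := by
    refine hcong 1 v hone ⟨-1, ?_⟩
    rw [hv]
    ring
  have hMpos : 0 < M := Nat.mul_pos hf.pos (pow_pos (by norm_num) N)
  have hM0 : (M : OO k t) ≠ 0 := by
    intro h
    have h5 := congrArg Nm h
    rw [Nm_nat, Nm_zero] at h5
    have h6 : (M : ℤ) = 0 := by simpa using h5
    omega
  have hv3 : v ^ 3 - 1 ∈ cnN k t f N := by
    have h3 : v ^ 3 - 1 = (M : OO k t) * (((3 + 3 * M + M ^ 2 : ℕ)) : OO k t) := by
      rw [hv]
      push_cast
      ring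
    rw [h3]
    refine Ideal.mul_mem_mul (Ideal.mem_span_singleton_self _) (T3Aux.mem_ppb h1 ?_)
    exact Dvd.dvd.add (Dvd.dvd.add (dvd_refl 3) (Dvd.intro _ rfl)) (dvd_pow h3M (by norm_num))
  have hex : ∀ h : T, ∃ h' : T, v * (h : OO k t) - (h' : OO k t) ∈ cnN k t f N := by
    intro h
    obtain ⟨h', hh', h3⟩ := hT.ex (v * h) (hmul v h hvH (hT.mem h h.2))
    exact ⟨⟨h', hh'⟩, h3⟩
  choose e he using hex
  have h3 : ∀ h : T, e (e (e h)) = h := by
    intro h
    apply Subtype.ext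
    apply hT.uni _ (e (e (e h))).2 _ h.2
    have e1 := Ideal.mul_mem_left _ (v ^ 2) (he h)
    have e2 := Ideal.mul_mem_left _ v (he (e h))
    have e3 := he (e (e h))
    have e4 := Ideal.mul_mem_right (h : OO k t) _ hv3
    have e5 : ((e (e (e h)) : T) : OO k t) - (h : OO k t) =
        (v ^ 3 - 1) * h - (v ^ 2 * (v * h - e h) + v * (v * e h - e (e h)) +
          (v * e (e h) - e (e (e h)))) := by ring
    rw [e5]
    exact sub_mem e4 (add_mem (add_mem e1 e2) e3)
  have hfix : ∀ h : T, e h ≠ h := by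
    intro h hh
    have e1 := he h
    rw [hh] at e1
    have e2 : v * (h : OO k t) - h = (M : OO k t) * h := by
      rw [hv]
      ring
    rw [e2] at e1
    obtain ⟨y, hy, h4⟩ := Ideal.mem_span_singleton_mul.1 e1
    have h5 : y = h := mul_left_cancel₀ hM0 h4
    rw [h5] at hy
    exact (hprop h (hT.mem h h.2)).2.2.2 hy
  have hfin := T3Aux.card_dvd e h3 hfix
  rwa [Fintype.card_coe] at hfin

end Pool.Agent.DT.H3
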