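import Pool.Agent.Lib.DT.H3.Spec

set_option autoImplicit false

open scoped Pointwise nonZeroDivisors

noncomputable section

namespace Pool.Agent.DT.H3

open Pool.Agent.MuZ Pool.Agent.FW NumberField IsDedekindDomain
open Pool.Agent.DI (io ofC io_inj exists_io io_ofC ofC_io VP MP UP TP ex)
open Pool.Agent.DT

namespace CbAux

theorem dbl : ∀ a : ZMod 3, a + a = 0 → a = 0 := by decide

theorem exists_lg {l : ℕ} (hl : l.Prime) (h3 : l % 3 = 1) : ∃ g, IsLg l g := by
  classical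
  have : Fact l.Prime := ⟨hl⟩
  have hd : 3 ∣ Nat.card (ZMod l)ˣ := by
    rw [Nat.card_eq_fintype_card, ZMod.card_units]
    omega
  have hcy : IsCyclic (ZMod l)ˣ := inferInstance
  let e := zmodCyclicMulEquiv hcy
  let c := ZMod.castHom hd (ZMod 3)
  refine ⟨fun x => if hx : x ≠ 0 then c (Multiplicative.toAdd (e.symm (Units.mk0 x hx))) else 0,
    ?_, ?_⟩
  · intro x y hx hy
    have hxy : x * y ≠ 0 := mul_ne_zero hx hy
    simp only [dif_pos hx, dif_pos hy, dif_pos hxy]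
    have h1 : Units.mk0 (x * y) hxy = Units.mk0 x hx * Units.mk0 y hy := Units.mk0_mul x y hxy
    rw [h1, map_mul, toAdd_mul, map_add]
  · refine ⟨(e (Multiplicative.ofAdd 1) : (ZMod l)ˣ), Units.ne_zero _, ?_⟩
    change (if hx : _ ≠ 0 then _ else _) = _
    rw [dif_pos (Units.ne_zero _), Units.mk0_val, MulEquiv.symm_apply_apply, toAdd_ofAdd, map_one]

theorem isLg {l : ℕ} (hl : l.Prime) (h3 : l % 3 = 1) : IsLg l (lg l) := by
  classical
  have h := exists_lg hl h3
  have e : lg l = h.choose := by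
    funext x
    unfold lg
    rw [dif_pos h]
  rw [e]
  exact h.choose_spec

variable {l : ℕ}

theorem mem_Jc {i : ZMod 3} {j : ℕ} : j ∈ Jc l i ↔ j < l ∧ 0 < j ∧ lg l (j : ZMod l) = i := by
  unfold Jc
  rw [Finset.mem_filter, Finset.mem_range]

theorem cast_ne {j : ℕ} (h0 : 0 < j) (h1 : j < l) : (j : ZMod l) ≠ 0 := by
  intro h
  rw [ZMod.natCast_eq_zero_iff] at h
  exact absurd (Nat.le_of_dvd h0 h) (not_le.2 h1)

theorem val_cast {j : ℕ} (h1 : j < l) : ((j : ZMod l)).val = j := ZMod.val_cast_of_lt h1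

theorem lg_one (hl : l.Prime) (h3 : l % 3 = 1) : lg l 1 = 0 := by
  have : Fact l.Prime := ⟨hl⟩
  have h := (isLg hl h3).1 1 1 one_ne_zero one_ne_zero
  rw [mul_one] at h
  exact left_eq_add.1 h

theorem lg_neg (hl : l.Prime) (h3 : l % 3 = 1) (x : ZMod l) (hx : x ≠ 0) :
    lg l (-x) = lg l x := by
  have : Fact l.Prime := ⟨hl⟩
  have h0 : (-1 : ZMod l) ≠ 0 := neg_ne_zero.2 one_ne_zero
  have h := (isLg hl h3).1 (-1) (-1) h0 h0
  rw [neg_one_mul, neg_neg, lg_one hl h3] at h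
  have h1 := dbl _ h.symm
  have h2 := (isLg hl h3).1 (-1) x h0 hx
  rw [h1, zero_add, neg_one_mul] at h2
  exact h2

/-- The multiplication by `x` maps `Jc l i` onto `Jc l (i + lg x)`. -/
theorem Jc_image (hl : l.Prime) (h3 : l % 3 = 1) (x : ZMod l) (hx : x ≠ 0) (i : ZMod 3) :
    Jc l (i + lg l x) = (Jc l i).image (fun j : ℕ => (x * (j : ZMod l)).val) := by
  classical
  have : Fact l.Prime := ⟨hl⟩
  have hne : NeZero l := ⟨hl.ne_zero⟩
  ext j
  rw [Finset.mem_image]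
  constructor
  · intro hj
    obtain ⟨h1, h2, h4⟩ := mem_Jc.1 hj
    have hj0 := cast_ne h2 h1
    have hx' : x⁻¹ ≠ 0 := inv_ne_zero hx
    have h5 : x⁻¹ * (j : ZMod l) ≠ 0 := mul_ne_zero hx' hj0
    refine ⟨(x⁻¹ * (j : ZMod l)).val, mem_Jc.2 ⟨ZMod.val_lt _, ?_, ?_⟩, ?_⟩
    · rw [Nat.pos_iff_ne_zero, Ne, ZMod.val_eq_zero]
      exact h5
    · rw [ZMod.natCast_zmod_val]
      have h6 := (isLg hl h3).1 x (x⁻¹ * (j : ZMod l)) hx h5
      rw [mul_inv_cancel_left₀ hx, h4] at h6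
      have h7 := h6
      rw [add_comm] at h7
      exact (add_left_cancel h7).symm
    · rw [ZMod.natCast_zmod_val, mul_inv_cancel_left₀ hx, val_cast h1]
  · rintro ⟨j', hj', rfl⟩
    obtain ⟨h1, h2, h4⟩ := mem_Jc.1 hj'
    have hj0 := cast_ne h2 h1
    refine mem_Jc.2 ⟨ZMod.val_lt _, ?_, ?_⟩
    · rw [Nat.pos_iff_ne_zero, Ne, ZMod.val_eq_zero]
      exact mul_ne_zero hx hj0
    · rw [ZMod.natCast_zmod_val, (isLg hl h3).1 x _ hx hj0, h4, add_comm]

theorem Jc_inj (hl : l.Prime) (x : ZMod l) (hx : x ≠ 0) (i : ZMod 3) :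
    Set.InjOn (fun j : ℕ => (x * (j : ZMod l)).val) (Jc l i : Set ℕ) := by
  have : Fact l.Prime := ⟨hl⟩
  have hne : NeZero l := ⟨hl.ne_zero⟩
  intro a ha b hb hab
  have h1 : x * (a : ZMod l) = x * (b : ZMod l) := ZMod.val_injective l hab
  have h2 := mul_left_cancel₀ hx h1
  have h3 := congrArg ZMod.val h2
  rwa [val_cast (mem_Jc.1 ha).1, val_cast (mem_Jc.1 hb).1] at h3

/-- The three classes. -/
theorem prod_three {M : Type} [CommMonoid M] (hl : l.Prime) (g : ℕ → M) :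
    ∏ j ∈ Finset.range l, g j =
    g 0 * (∏ j ∈ Jc l 0, g j) * (∏ j ∈ Jc l 1, g j) * ∏ j ∈ Jc l 2, g j := by
  classical
  have h1 := Finset.prod_filter_mul_prod_filter_not (Finset.range l) (fun j => 0 < j) g
  have h2 : (Finset.range l).filter (fun j => ¬ 0 < j) = {0} := by
    ext j
    rw [Finset.mem_filter, Finset.mem_range, Finset.mem_singleton]
    have := hl.pos
    omega
  have h3 := Finset.prod_fiberwise ((Finset.range l).filter (fun j => 0 < j))
    (fun j : ℕ => lg l (j : ZMod l)) g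
  have h4 : ∀ i : ZMod 3, ((Finset.range l).filter (fun j => 0 < j)).filter
      (fun j : ℕ => lg l (j : ZMod l) = i) = Jc l i := by
    intro i
    unfold Jc
    rw [Finset.filter_filter]
  rw [← h1, h2, Finset.prod_singleton, ← h3]
  have h5 : ∀ F : ZMod 3 → M, ∏ i : ZMod 3, F i = F 0 * F 1 * F 2 := fun F =>
    Fin.prod_univ_three F
  rw [h5, h4, h4, h4]
  rw [mul_comm, mul_assoc, mul_assoc, mul_assoc]

theorem upper (hl : l.Prime) (h3 : l % 3 = 1) :
    (Jc l 0).filter (fun j => ¬ 2 * j < l) =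
      ((Jc l 0).filter (fun j => 2 * j < l)).image (fun j => l - j) := by
  classical
  have : Fact l.Prime := ⟨hl⟩
  have hl2 : l ≠ 2 := by rintro rfl; omega
  have hodd : l % 2 = 1 := by
    rcases hl.eq_two_or_odd with h | h
    · exact absurd h hl2
    · exact h
  have key : ∀ j, j ∈ Jc l 0 → l - j ∈ Jc l 0 := by
    intro j hj
    obtain ⟨h1, h2, h4⟩ := mem_Jc.1 hj
    refine mem_Jc.2 ⟨by omega, by omega, ?_⟩
    rw [Nat.cast_sub h1.le, ZMod.natCast_self, zero_sub, lg_neg hl h3 _ (cast_ne h2 h1), h4]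
  ext j
  rw [Finset.mem_image, Finset.mem_filter]
  constructor
  · rintro ⟨h1, h2⟩
    obtain ⟨h4, h5, -⟩ := mem_Jc.1 h1
    refine ⟨l - j, Finset.mem_filter.2 ⟨key j h1, by omega⟩, by omega⟩
  · rintro ⟨j', hj', rfl⟩
    obtain ⟨h1, h2⟩ := Finset.mem_filter.1 hj'
    obtain ⟨h4, h5, -⟩ := mem_Jc.1 h1
    exact ⟨key j' h1, by omega⟩

theorem lower_inj : Set.InjOn (fun j : ℕ => l - j)
    ((Jc l 0).filter (fun j => 2 * j < l) : Finset ℕ) := by
  intro a ha b hb hab
  have h1 := (mem_Jc.1 (Finset.mem_filter.1 ha).1).1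
  have h2 := (mem_Jc.1 (Finset.mem_filter.1 hb).1).1
  have h3 : l - a = l - b := hab
  omega

end CbAux

open CbAux in
theorem tCb : S_hCb := by
  classical
  intro l hl h3
  have : Fact l.Prime := ⟨hl⟩
  have hLg := isLg hl h3
  have hex : ∀ i : ZMod 3, ∃ x : ZMod l, x ≠ 0 ∧ lg l x = i := by
    obtain ⟨x, hx, hx1⟩ := hLg.2
    have h2 := hLg.1 x x hx hx
    rw [hx1] at h2
    intro i
    have hi : i = 0 ∨ i = 1 ∨ i = 1 + 1 := by
      revert i
      decide
    rcases hi with rfl | rfl | rfl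
    · exact ⟨1, one_ne_zero, lg_one hl h3⟩
    · exact ⟨x, hx, hx1⟩
    · exact ⟨x * x, mul_ne_zero hx hx, h2⟩
  have hcard0 : ∀ i : ZMod 3, (Jc l i).card = (Jc l 0).card := by
    intro i
    obtain ⟨x, hx, rfl⟩ := hex i
    have h := Jc_image hl h3 x hx 0
    rw [zero_add] at h
    rw [h, Finset.card_image_of_injOn (Jc_inj hl x hx 0)]
  have hsum : 3 * (Jc l 0).card = l - 1 := by
    have h := prod_three (M := Multiplicative ℕ) hl (fun _ => Multiplicative.ofAdd 1)
    simp only [Finset.prod_const, Finset.card_range] at h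
    have h' := congrArg Multiplicative.toAdd h
    simp only [toAdd_mul, toAdd_pow, toAdd_ofAdd, smul_eq_mul, mul_one] at h'
    rw [hcard0 1, hcard0 2] at h'
    omega
  refine ⟨hLg.1, lg_one hl h3, lg_neg hl h3, hex, ?_, ?_, fun g => prod_three (M := Om) hl g, ?_, ?_, ?_⟩
  · intro i
    rw [hcard0 i]
    omega
  · intro i j hj
    obtain ⟨h1, h2, h4⟩ := mem_Jc.1 hj
    exact ⟨h2, h1, cast_ne h2 h1, h4⟩
  · intro g hg
    have h1 := Finset.prod_filter_mul_prod_filter_not (Jc l 0) (fun j => 2 * j < l) g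
    rw [← h1, upper hl h3, Finset.prod_image lower_inj, sq]
    congr 1
    exact Finset.prod_congr rfl fun j hj => hg j (Finset.mem_filter.1 hj).1
  · have h1 := Finset.card_filter_add_card_filter_not (s := Jc l 0) (fun j => 2 * j < l)
    rw [upper hl h3, Finset.card_image_of_injOn lower_inj] at h1
    omega
  · intro x G i hx
    rw [Jc_image hl h3 x hx i, Finset.prod_image (Jc_inj hl x hx i)]

end Pool.Agent.DT.H3
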