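import Pool.Agent.Lib.DT.IfaceO
import Pool.Agent.Lib.DT.Iface
import Pool.Agent.Lib.DT.IfaceG
import Pool.Agent.Lib.DT.T.Spec

set_option autoImplicit false

/-!
# Theorem DT (`p = 3`), part H (author helper9; design of helper66): Thaine's argument

`F = Mn k t f N`, it contains `zet 3`; `Q` a prime of `ZZ` over the prime number `l = 1 mod 3`, `φ ∈ Gal(Om/F)` with
`φ x ≡ x ^ l mod Q`. The prime ideal of `O` below `Q` is PRINCIPAL (it is the Artin symbol of `φ`, in the group `HPN`),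
`= (λ)`, `Nm λ = l`, `λ ∈ H_N`. `lg : ZMod l → ZMod 3` is a cubic logarithm (`lg (x y) = lg x + lg y`), `Jc l i` the
`0 < j < l` with `lg j = i`; `h : Gal(Om/F) → F_3` is `h τ = lg (a mod λ)` if `τ = Psi (a)`, `a ∈ H_N`.
`ε_i = ∏_{h ∈ T} ∏_{j ∈ Jc l i} Θ(b, h z_N + j/λ)`, `τ ε_i = ε_(i + h τ)`, `ε_0 ε_1 ε_2 = C ^ |T|` with the constant `C` of
the distribution relation, `3 ∣ |T|`, `w = ε_0 / C ^ (|T|/3)`.
Result: `w` is a unit at all primes, `∏_{i<3} τ ^ i w = 1` for `h τ = 1`, `w ≡ u ^ ((l-1)/3) mod P` for all `P` over `λ`; `MM/F`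
is ramified at these `P` and unramified at all other primes outside `3`. With `S_pKap`, `S_pLeg` (part T) this gives
`Thnp 3 F Sg (zet 3) u M`, and `S_pTH` gives `S_H` of `DT/IfaceG.lean`.

Elementary facts on `O`, `Lam`, `Tor`, `GK`: `DT/Base.lean` (proved: `Nm_mul`, `cop_mul`, `cop_inv`, `toC_mul`, `toO_VP`, `lam_*`, `tor_*`,
`mem_GK_iff`, `GK_toO`, ...). Most modules are edits of `DK/H3/X.lean` (the same names; `2 → 3`, squares → cubes, moduli are ideals `n`,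
`f 2 ^ N` → `sN k t (f * 3 ^ N)` or `cnN k t f N`, `T` is a system of representatives modulo `cnN` WITHOUT `±`).

RULES. Every statement `S_hX` is to be proved in the module `DT/H3/X.lean` (file `Pool/Agent/Lib/DT/H3/X.lean`) as
`theorem tX (h1 : ..) (h2 : ..) .. : S_hX`, the hypotheses being the statements named after USES, in this order. `S_h..` is in this
file, `S_p..` in `DT/T/Spec.lean`, `S_O..`, `S_L..` in `DT/IfaceO.lean`, `S_B1`, `S_B7`, `S_R4`, `S_D..`, `S_E..` in `DT/Iface.lean`, `S_GM`, `S_G3` in `DT/IfaceG.lean` (these are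
NOT to be proved here). Header as in this file; imports: this file, and the modules named in the task.
-/

open scoped Pointwise nonZeroDivisors

noncomputable section

namespace Pool.Agent.DT.H3

open Pool.Agent.MuZ Pool.Agent.FW NumberField IsDedekindDomain
open Pool.Agent.DI (io ofC io_inj exists_io io_ofC ofC_io VP MP UP TP ex)
open Pool.Agent.DT

variable {k t : ℕ}

/-- The reduction `O → F_l`, `w ↦ r` (a ring homomorphism if `r ^ 2 = t r - 3 k`). -/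
def rd {l : ℕ} (r : ZMod l) (x : OO k t) : ZMod l := (x.re : ZMod l) + (x.im : ZMod l) * r

/-- The point `j / λ`. -/
def pL (la : OO k t) (j : ℕ) : ℂ := (j : ℂ) / toC la

/-- `g` is a cubic logarithm modulo `l`. -/
def IsLg (l : ℕ) (g : ZMod l → ZMod 3) : Prop :=
  (∀ x y : ZMod l, x ≠ 0 → y ≠ 0 → g (x * y) = g x + g y) ∧ ∃ x : ZMod l, x ≠ 0 ∧ g x = 1

/-- A chosen cubic logarithm modulo `l`. -/
def lg (l : ℕ) (x : ZMod l) : ZMod 3 := by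
  classical
  exact if h : ∃ g, IsLg l g then h.choose x else 0

/-- The classes modulo cubes. -/
def Jc (l : ℕ) (i : ZMod 3) : Finset ℕ :=
  (Finset.range l).filter (fun j => 0 < j ∧ lg l (j : ZMod l) = i)

/-- The condition on `z` under which `Θ(b, z)` is a unit at all primes (hypothesis of `S_D5`, `S_D6`). -/
def Gd (m b : Ideal (OO k t)) (z : ℂ) : Prop := Tor k t z ∧ ∀ Q : Ideal ZZ, Npr Q →
  ∀ u ∈ Lam (m * b), ¬ Qp Q b (z + u)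

/-- `ε_i = ∏_{h ∈ T} ∏_{j ∈ Jc l i} Θ(b, h z_N + j/λ)`. -/
def epq (f N : ℕ) (m : Ideal (OO k t)) (T : Finset (OO k t)) (b : Ideal (OO k t)) (l : ℕ)
    (la : OO k t) (i : ZMod 3) : Om :=
  ∏ h ∈ T, ∏ j ∈ Jc l i, Theta m b (toC h * zN k t f N + pL la j)

/-- `λ` is a prime element of norm `l`, `l = 1 mod 3`, `l` prime to `f`, `r` the image of `w`
modulo `λ`. -/
structure DatL (f l : ℕ) (la : OO k t) (r : ZMod l) : Prop where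
  hf : Fok f
  hl : l.Prime
  hl3 : l % 3 = 1
  hlf : l.Coprime f
  hla : Nm la = l
  hr : r ^ 2 = t * r - 3 * k
  hker : ∀ x : OO k t, rd r x = 0 ↔ la ∣ x

/-- The data. -/
structure Dat (f N : ℕ) (m : Ideal (OO k t)) (T : Finset (OO k t)) (b : Ideal (OO k t)) (l : ℕ)
    (la : OO k t) (r : ZMod l) : Prop extends DatL f l la r where
  hN : 1 ≤ N
  hm : FM f m
  hT : IsRep f N T
  hb0 : b ≠ ⊥
  hb : PrI b (sN k t (3 * f))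
  hlm : PrI m (sN k t l)
  hlb : PrI b (sN k t l)
  hHN : HN f N la

/-- The property of the homomorphism `h`. -/
def IsH (k t f N l : ℕ) (r : ZMod l) (h : Gal(Om/ℚ) → ZMod 3) : Prop :=
  ∀ τ ∈ (Mn k t f N).fixingSubgroup, ∀ (n : Ideal (OO k t)) (a : OO k t), n ≠ ⊥ →
    n ≤ sN k t (f * 3 ^ N * l) → HN f N a → Psi τ n (sp a) → h τ = lg l (rd r a)

/-! ## Elementary statements -/

/-- (180 lines, module `Cb`; USES nothing; no field `K`) **Cubes modulo `l`.** PROOF. The group of units of the field `ZMod l` is cyclic of order `l - 1` with a generator `g`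
(`IsCyclic`); `3 ∣ l - 1`, so `g ^ n ↦ n mod 3` is well defined, and (with any value at `0`) an `IsLg`; so `lg l` satisfies `IsLg l` (`choose_spec`). (2) `lg 1 = 2 lg 1`. (3) `2 lg (-1) = lg 1 = 0`.
(4) `lg x = 1`: `1, x, x ^ 2`. (5) The multiplication by `x`, `lg x = i' - i`, is a bijection of `Jc l i` and `Jc l i'` (`j ↦ ((x * j : ZMod l)).val`), and the three disjoint sets have union `{1, .., l-1}`. (7) `range l = {0} ∪ Jc 0 ∪ Jc 1 ∪ Jc 2`.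
(8), (9): `j ↦ l - j` is an involution of `Jc l 0` (by (3)) which exchanges the `j` with `2 j < l` and those with `2 j > l` (`l` is odd: `l % 3 = 1`, so `l ≠ 2`). See `DI/H3/Rdm.lean` (`RdmAux.prod_half`, `prod_split`) and `DI/H3/JP.lean` for squares.
(10) `Finset.prod_bij` with `j ↦ (x * j).val`. -/
def S_hCb : Prop := ∀ l : ℕ, l.Prime → l % 3 = 1 →
  (∀ x y : ZMod l, x ≠ 0 → y ≠ 0 → lg l (x * y) = lg l x + lg l y) ∧ lg l 1 = 0 ∧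
  (∀ x : ZMod l, x ≠ 0 → lg l (-x) = lg l x) ∧ (∀ i : ZMod 3, ∃ x : ZMod l, x ≠ 0 ∧ lg l x = i) ∧
  (∀ i : ZMod 3, (Jc l i).card = (l - 1) / 3) ∧
  (∀ i : ZMod 3, ∀ j ∈ Jc l i, 0 < j ∧ j < l ∧ (j : ZMod l) ≠ 0 ∧ lg l (j : ZMod l) = i) ∧
  (∀ g : ℕ → Om, ∏ j ∈ Finset.range l, g j =
    g 0 * (∏ j ∈ Jc l 0, g j) * (∏ j ∈ Jc l 1, g j) * ∏ j ∈ Jc l 2, g j) ∧
  (∀ g : ℕ → Om, (∀ j ∈ Jc l 0, g (l - j) = g j) →
    ∏ j ∈ Jc l 0, g j = (∏ j ∈ (Jc l 0).filter (fun j => 2 * j < l), g j) ^ 2) ∧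
  6 * ((Jc l 0).filter (fun j => 2 * j < l)).card = l - 1 ∧
  ∀ (x : ZMod l) (G : ℕ → Om) (i : ZMod 3), x ≠ 0 →
    ∏ j ∈ Jc l i, G ((x * (j : ZMod l)).val) = ∏ j ∈ Jc l (i + lg l x), G j

/-- (60 lines, module `Rdm`; USES nothing) **The reduction modulo `λ`.** PROOF. (1) - (6): direct (`r ^ 2 = t r - 3 k`; see
`DK/H3/Rdm.lean`; use `re_mul`, `im_mul` of `DT/Base.lean`). (7) `λ ∣ a` gives `l ∣ Nm a` (`Nm_dvd`), contradiction to `Cop a l`. (8) `mul_cjO`.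
(9) follows. -/
def S_hRdm : Prop := ∀ (k t : ℕ) [SqT k t] (f l : ℕ) (la : OO k t) (r : ZMod l), DatL f l la r →
  (∀ x y : OO k t, rd r (x * y) = rd r x * rd r y) ∧
  (∀ x y : OO k t, rd r (x + y) = rd r x + rd r y) ∧
  (∀ x y : OO k t, rd r (x - y) = rd r x - rd r y) ∧ (∀ x : OO k t, rd r (-x) = - rd r x) ∧
  (∀ n : ℕ, rd r (n : OO k t) = n) ∧ rd r (1 : OO k t) = 1 ∧
  (∀ a : OO k t, Cop a l → rd r a ≠ 0) ∧ la * cjO la = (l : OO k t) ∧ la ∣ (l : OO k t)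

/-- (130 lines, module `HN`; USES `S_O4`, `S_O6`) **The group `H_N`.** PROOF. `Hf f v`: `Cop v (3 f)` (`S_O6`) and `3 f ∣ v ^ 3 ^ j - 1` for some `j`.
(1) `j = 0`. (2) products: `cop_mul`; if `3 f ∣ a ^ 3 ^ i - 1` then `3 f ∣ a ^ 3 ^ j - 1` for all `j ≥ i`
(`x - 1 ∣ x ^ n - 1`), `a^n b^n - 1 = (a^n - 1) b^n + (b^n - 1)`; `Nm (a b) - 1` from `Nm_mul`.
(3) periodic: `3 f ∣ f 3 ^ N` (`1 ≤ N`), `cop_congr`, `sub_dvd_pow_sub_pow`, `Nm_congr`. (4) `a ≠ 0` since `Nm 0 = 0` is not prime to `3 f > 1`. `cnN k t f N = sN (f 3 ^ N) * ppb`: `PrI (sp a) (n * n')` iff both (`S_O6`); `Cop a (f 3 ^ N)` from `Cop a (3 f)`;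
`sN 3 ≤ ppb`. `a ∉ ppb`: otherwise `sp a ⊔ ppb = ppb ≠ ⊤` (`S_O4`: prime). (5) `a` is a unit modulo `cnN ≠ ⊥` and `O / cnN` is finite (`NI ≠ 0`, `S_O2` is not needed: `Nat.card` / `Finite` from `Base.exists_nat`; or take `e = ` the exponent of the unit group of
`O / sN (3 f 3 ^ N)`, `sN (3 f 3^N) ≤ cnN`, `cop_inv`): `a ^ e - 1 ∈ cnN` with `e > 0`, `a' = a ^ (e - 1)`, in `H_N` by (1), (2). -/
def S_hHN : Prop := ∀ (k t : ℕ) [SqT k t] (f N : ℕ), Fok f → 1 ≤ N →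
  HN f N (1 : OO k t) ∧ (∀ a b : OO k t, HN f N a → HN f N b → HN f N (a * b)) ∧
  (∀ a b : OO k t, HN f N a → ((f * 3 ^ N : ℕ) : OO k t) ∣ a - b → HN f N b) ∧
  (∀ a : OO k t, HN f N a → a ≠ 0 ∧ Cop a (3 * f) ∧ PrI (sp a) (cnN k t f N) ∧ a ∉ ppb k t) ∧
  ∀ a : OO k t, HN f N a → ∃ a' : OO k t, HN f N a' ∧ a * a' - 1 ∈ cnN k t f N

/-- (60 lines, module `TP`; USES `S_hHN`) **Permutation of `T`.** PROOF. `DI.H3.tPrm` (import `DI/H3/Prm.lean`) with `R x y` : `x - y ∈ cnN`, `e h = a h`. `a h ∈ H_N`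
(`S_hHN`): `IsRep.ex`. If `a h - a h' ∈ cnN`: multiply by `a'` with `a a' - 1 ∈ cnN` (`S_hHN`): `h - h' ∈ cnN`, so `h = h'` (`IsRep.uni`). -/
def S_hTP : Prop := ∀ (k t : ℕ) [SqT k t] (f N : ℕ) (T : Finset (OO k t)) (a : OO k t)
  (G : OO k t → Om), Fok f → 1 ≤ N → IsRep f N T → HN f N a →
  (∀ x y, x - y ∈ cnN k t f N → G x = G y) → ∏ h ∈ T, G (a * h) = ∏ h ∈ T, G h

/-- (100 lines, module `T3`; USES `S_O4`, `S_hHN`) **`3` divides `|T|`.** PROOF. `M = f 3 ^ N`, `v = 1 + M` (an integer): `v ∈ H_N` (`S_hHN` (3), `a = 1`). `v ^ 3 - 1 = M (3 + 3 M + M ^ 2)` and `3, M ∈ ppb`, so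
`v ^ 3 - 1 ∈ cnN = sN M * ppb`. For `h ∈ T` let `e h ∈ T` with `v h - e h ∈ cnN` (`IsRep.ex`). `e : T → T`, `e (e (e h)) = h` (`v ^ 3 h - h ∈ cnN`, `IsRep.uni`), so `e` is a permutation with `e ^ 3 = 1`. No fixed points:
`e h = h` gives `M h ∈ sN M * ppb`, `M h = M y` with `y ∈ ppb` (`Ideal.mem_span_singleton_mul`), `h ∈ ppb`, contradiction to `S_hHN` (4). `Equiv.Perm.card_fixedPoints_modEq` (for the type `T`). -/
def S_hT3 : Prop := ∀ (k t : ℕ) [SqT k t] (f N : ℕ) (T : Finset (OO k t)), Fok f → 1 ≤ N →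
  IsRep f N T → 3 ∣ T.card

/-- (80 lines, module `Pri`; USES `S_hHN`) **The classes in `HPN` are principal.** PROOF. Port of `DK/H3/Pri.lean`. `Ray (sN M) c (sp v)`, `M = f 3 ^ N`: `sp α * c = sp α' * sp v`, `α - α' ∈ sN M`,
both prime to `M`, nonzero. `α' v ∈ α c`, so `α' v = α γ`, `(α) c = (α) (γ)` and `c = (γ)` (cancellation of a
nonzero principal ideal in a domain). `M ∣ α (γ - v)` since `α γ - α v = (α' - α) v`; with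
the inverse of `α` modulo `M` (`PrI (sp α) (sN M)`: `1 = α x + M y`): `M ∣ γ - v`, so `γ ∈ H_N` (`S_hHN`). Conversely `v = γ`, `Ray` is
reflexive (`α = α' = 1`). -/
def S_hPri : Prop := ∀ (k t : ℕ) [SqT k t] (f N : ℕ), Fok f → 1 ≤ N → ∀ c : Ideal (OO k t),
  HPN f N c ↔ ∃ γ : OO k t, c = sp γ ∧ HN f N γ

/-- (80 lines, module `Dg`; USES `S_O2`, `S_hRdm`) **The prime ideal `(λ)`.** PROOF. Port of `DK/H3/Dg.lean`. `NI (λ) = Nm λ = l`. It is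
prime: if `x y ∈ (λ)` then `rd r x * rd r y = 0` in the field `ZMod l` (`hker`), and `1 ∉ (λ)` as `rd r 1 = 1`. `(λ) ≠ ⊥`. (2) `v = λ u`,
`toO v = toO λ toO u` with `toO u` integral (`toO_VP`), and `λ ∈ (λ)`. (3) `λ ∣ l`. (4) `MP Q (toO λ)` gives `MP Q l` (`l = λ cjO λ`), so `¬ MP Q 3`, `¬ MP Q 2` (`l ≠ 2, 3`: coprime integers). -/
def S_hDg : Prop := ∀ (k t : ℕ) [SqT k t] (f l : ℕ) (la : OO k t) (r : ZMod l), DatL f l la r →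
  Deg1 (sp la) l ∧ (∀ Q : Ideal ZZ, Npr Q → (MP Q (toO la) ↔ Abv Q (sp la))) ∧
  (∀ n : Ideal (OO k t), n ≤ sN k t l → n ≤ sp la) ∧ l ≠ 2 ∧ l ≠ 3 ∧ la ∉ ppb k t ∧
  (¬ (2 : ℤ) ∣ Nm la) ∧ ∀ Q : Ideal ZZ, Npr Q → MP Q (toO la) → (l : ZZ) ∈ Q ∧ ¬ MP Q 3 ∧ ¬ MP Q 2

/-- (100 lines, module `La`; USES `S_O2`) **The prime ideal of `O` below `Q`.** PROOF. Port of `DK/H3/La.lean` (`wO` is a root of `X ^ 2 - t X + 3 k`). -/
def S_hLa : Prop := ∀ (k t : ℕ) [SqT k t] (l : ℕ), l.Prime → ∀ Q : Ideal ZZ, Npr Q → (l : ZZ) ∈ Q →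
  ∀ τ ∈ GK k t, (∀ x : ZZ, τ • x - x ^ l ∈ Q) →
  ∃ (q : Ideal (OO k t)) (r : ZMod l), Deg1 q l ∧ r ^ 2 = t * r - 3 * k ∧
    (∀ x : OO k t, rd r x = 0 ↔ x ∈ q) ∧ ∀ x : OO k t, MP Q (toO x) ↔ x ∈ q

/-- (150 lines, module `Lat`; USES `S_O6`, `S_hRdm`) **The points `j/λ`.** PROOF. Port of `DK/H3/Lat.lean`. (1) `a (j/λ) - j'/λ = (a j - j')/λ` and
`rd r (a j - j') = 0`, so `λ ∣ a j - j'`. (2) `1/λ = cjO λ / l`. (3) `l/λ = cjO λ`. (4) torsion. (6) `λ (j/λ) = j ∈ O ⊆ Lam b` (`lam_anti le_top`, `lam_top`), so `j/λ ∈ Lam (λ b)` (`lam_sp`).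
(7) Let `b` be prime to `l` and `e ∈ b` with `l ∣ e - 1` (`S_O6`). If `j/λ ∈ Lam b`, `0 < j < l`: `e j/λ ∈ O`, so `λ ∣ e j`, `rd r (e j) = j = 0` (`rd r e = 1`),
contradiction. (8) `IsSys`: `z ∈ Lam (λ b)`: `y = λ z ∈ Lam b`; `x = e y ∈ O`; `z - x/λ = (1 - e) y/λ = - s l y/λ = - s (cjO λ) y ∈ Lam b` (`e - 1 = l s`); `x ≡ j mod λ` with
`j = (rd r x).val`, `(x - j)/λ ∈ O ⊆ Lam b`. Uniqueness: as (7) for `j - j'`. -/
def S_hLat : Prop := ∀ (k t : ℕ) [SqT k t] (f l : ℕ) (la : OO k t) (r : ZMod l), DatL f l la r →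
  (∀ (a : OO k t) (j j' : ℕ), (j' : ZMod l) = rd r a * j →
    ∃ x : OO k t, toC a * pL la j = pL la j' + toC x) ∧
  (∀ j : ℕ, pL la j = toC ((j : OO k t) * cjO la) / l) ∧
  (∀ j : ℕ, j ≤ l → ∃ x : OO k t, pL la (l - j) = - pL la j + toC x) ∧
  (∀ j : ℕ, Tor k t (pL la j)) ∧ Set.InjOn (pL la) (Finset.range l : Set ℕ) ∧
  (∀ (b : Ideal (OO k t)) (j : ℕ), pL la j ∈ Lam (sp la * b)) ∧
  ∀ b : Ideal (OO k t), b ≠ ⊥ → PrI b (sN k t l) →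
    (∀ j : ℕ, 0 < j → j < l → pL la j ∉ Lam b) ∧
    IsSys (sp la) b ((Finset.range l).image (pL la))

/-- (80 lines, module `Zp`; USES `S_O4`) **The point `z_N`.** PROOF. `c0` is `⟨3, f⟩` or `⟨3 + 3 f, f⟩`; `v ∈ pp` iff `3 ∣ re v`, `v ∈ ppb` iff `3 ∣ re v + im v` (`S_O4`). (1) `toC_mul`, definition of `zN`. (2) `3 ∣ re`; `f` is prime to `3`;
`Nm c0 = re ^ 2 + t re im + 3 k im ^ 2` is odd as `re` is odd and `im = f` is even. (3) `x ∈ cnN = sN (f 3 ^ N) * ppb`: `x = f 3 ^ N y` with `y ∈ ppb` (`Ideal.mem_span_singleton_mul`), `x z_N = y c0 / 3` and `y c0 ∈ ppb pp = sN 3`. (4) `tor_div`.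
(5) `Lam (cnN * b)`: `lam_prod` or the definition: for `v ∈ cnN * b ≤ cnN` use (3). -/
def S_hZp : Prop := ∀ (k t : ℕ) [SqT k t] (f N : ℕ), Fok f →
  ((3 : ℂ) ^ (N + 1) * f) * zN k t f N = toC (c0 k t f) ∧
  (c0 k t f ∈ pp k t ∧ c0 k t f ∉ ppb k t ∧ ¬ (2 : ℤ) ∣ Nm (c0 k t f)) ∧
  (∀ x ∈ cnN k t f N, ∃ u : OO k t, toC x * zN k t f N = toC u) ∧ Tor k t (zN k t f N) ∧
  ∀ b : Ideal (OO k t), zN k t f N ∈ Lam (cnN k t f N * b)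

/-- (180 lines, module `Gd`; USES `S_O4`, `S_O6`, `S_hZp`) **Good points.** PROOF. See `DK/H3/Gd.lean`. `λ ≠ 0`. Let `μ ∈ m` and `e ∈ b` with `μ - 1, e - 1 ∈ sN 6` (`S_O6`); `Nm μ`, `Nm e` are odd (`Nm_congr`), `μ, e ∉ ppb` (`6 ∈ ppb`).
KEY A: for `s ≥ 1`, `λ μ x c0 / 2 ^ s ∉ Lam b`: otherwise `e λ μ x c0 = 2 ^ s y` and the norm of the left side is odd. KEY B: for `s ≥ 1`, `λ μ x c0 / 3 ^ s ∉ Lam b`: otherwise `e λ μ x c0 = 3 ^ s y ∈ ppb`, a prime ideal which contains none of the factors.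
Let `z = x z_N + j/λ`, `u ∈ Lam (m b)`, so `μ u ∈ Lam b` (`lam_prod`), `Q` a prime. CASE `¬ MP Q 2`: `f = 2 ^ s g`, `g` odd, `s ≥ 2` (`4 ∣ f`). `α = 2 ^ s`, `β = 3 ^ (N+1) g λ μ`: `β (z + u) = λ μ x c0 / 2 ^ s + 3 ^ (N+1) g μ j + 3 ^ (N+1) g λ (μ u)` is not in `Lam b`
(KEY A; the last two terms are), `α β (z + u) ∈ Lam b`. CASE `MP Q 2`: then `¬ MP Q 3` (`3 - 2 = 1`). `α = 3 ^ (N+1)`, `β = f λ μ`: `β (z + u) = λ μ x c0 / 3 ^ (N+1) + f μ j + f λ (μ u)`, KEY B. `¬ MP Q (toO α)`: `MP` of a power is `MP` of the base (`DI/Val.lean`).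
The case without `j/λ` is `j = 0`. (3), (4): if `z ∈ Lam (λ m b)` then `λ μ z ∈ Lam b` (`lam_prod`, `λ μ ∈ (λ) m`), so `3 ^ (N+1) g λ μ z ∈ Lam b`: contradiction to KEY A (as `μ j` times an element of `O` is in `Lam b`). -/
def S_hGd : Prop := ∀ (k t : ℕ) [SqT k t] (f N : ℕ) (m b : Ideal (OO k t)) (x la : OO k t) (j : ℕ),
  Fok f → m ≠ ⊥ → PrI m (sN k t 6) → b ≠ ⊥ → PrI b (sN k t 6) → ¬ (2 : ℤ) ∣ Nm x →
  x ∉ ppb k t → ¬ (2 : ℤ) ∣ Nm la → la ∉ ppb k t →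
  Gd m b (toC x * zN k t f N + pL la j) ∧ Gd m b (toC x * zN k t f N) ∧
    toC x * zN k t f N ∉ Lam (sp la * m * b) ∧ toC x * zN k t f N + pL la j ∉ Lam (sp la * m * b)

/-- (60 lines, module `Zt`; USES `S_pKa`) **The root of unity `zet 3` and the two Kummer characters.** PROOF. (1) `zet 3 = DI.zet 3` by `rfl`; `DI.tA2 : DI.S_A2` (file `DI/B/A12.lean`; look for the exact name). (2) `y = cbr w`, `y ^ 3 = w` (`Om` is algebraically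
closed), `y ≠ 0`. `S_pKa` (1) for `p = 3`: `d y = zet 3 ^ i y ↔ kp 3 (zet 3) w d = i`. `kap w d` is `0`, `1`, `2` according to `d y = y`, `d y = zet 3 y`, neither; in the last case `kp.val` is not `0`, `1`, so `kp = 2`. -/
def S_hZt : Prop := IsPrimitiveRoot (zet 3) 3 ∧ ∀ (w : Om) (d : Gal(Om/ℚ)), w ≠ 0 → d w = w →
  d (zet 3) = zet 3 → kap w d = kp 3 (zet 3) w d

/-- (80 lines, module `AlR`; USES nothing) **A number field is unramified at almost all primes.** PROOF. `B = absNorm (differentIdeal ℤ (𝓞 F))` (not `0`). Let `(l : 𝓞 F) ∈ v`, so `vl F v l ≥ 1` (`DI/T/KapV.lean`: `vl_val`). If `v ^ 2 ∣ (l)` then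
`v ∣ differentIdeal` (`pow_sub_one_dvd_differentIdeal`), so `absNorm v ∣ B`; `absNorm v` is a power of `l` (`> 1`), contradiction to `l.Coprime B`. See also `ZD.finite_ram` (`Pool/Agent/Lib/ZD`), `NumberField.not_dvd_discr_iff_forall_liesOver`. The valuation
from `v ^ 2 ∤ (l)`: `v.valuation F l`, `vl_val`, `HeightOneSpectrum.valuation_of_algebraMap`, `intValuation_le_pow_iff_dvd`. -/
def S_hAlR : Prop := ∀ (F : IntermediateField ℚ Om) [NumberField F], ∃ B : ℕ, 0 < B ∧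
  ∀ l : ℕ, l.Prime → l.Coprime B → ∀ v : HeightOneSpectrum (𝓞 F), (l : 𝓞 F) ∈ v.asIdeal →
    vl F v (l : F) = 1

/-- (150 lines, module `Fix`; USES `S_O6`, `S_O7`, `S_E1`, `S_GM`, `S_hPri`, `S_hZt`) **Galois theory of `F = Mn k t f N`.** PROOF. See `DK/H3/Fix.lean`. `KQ ≤ Mf ≤ Mn` (`S_GM`), so `Gal(Om/F) ≤ GK`; `S_GM`:
for `Psi τ (sN (f 3^N)) c` the condition is `HPN f N c`; choose `c` by `S_E1`. (2) `zet 3 ∈ Mn`: let `ζ` be a primitive `3 ^ N`-th root of unity, `zet 3` is a power of `ζ` (`N ≥ 1`); `τ ∈ Gal(Om/F)` fixes `ζ` (`S_GM`, last part), so it fixes `zet 3`; `InfiniteGalois.fixedField_fixingSubgroup`.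
(4) Let `Psi σ n s`, `Psi (σ τ σ⁻¹) n c` (`S_E1`), `n = sN (f 3^N)`, `Psi τ n a`: `(σ τ σ⁻¹) σ = σ τ`, so `Ray n (c s) (s a)`; cancel `s` (`S_O7`): `Ray n c a`; `HPN` is closed under `Ray` (`S_GM`). (5) `τ (σ x) = σ ((σ⁻¹ τ σ) x) = σ x` for `τ ∈ Gal(Om/F)`; fixed field.
(6) `Psi τ (sN (f 3^N) * M) c` by `S_E1`, so `Psi τ (sN (f 3^N)) c` (`S_E1`, last part), `HPN f N c`, `c = (a)`, `a ∈ H_N` by `S_hPri`. (7) as (4), for arbitrary `n ≠ ⊥`, and `S_E1` (3). -/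
def S_hFix : Prop := ∀ (k t : ℕ) [SqT k t] (f N : ℕ), Fok f → 1 ≤ N →
  FiniteDimensional ℚ (Mn k t f N) ∧ zet 3 ∈ Mn k t f N ∧
  (∀ τ : Gal(Om/ℚ), τ ∈ (Mn k t f N).fixingSubgroup ↔
    τ ∈ GK k t ∧ ∀ c : Ideal (OO k t), Psi τ (sN k t (f * 3 ^ N)) c → HPN f N c) ∧
  (∀ σ ∈ GK k t, ∀ τ ∈ (Mn k t f N).fixingSubgroup, σ * τ * σ⁻¹ ∈ (Mn k t f N).fixingSubgroup) ∧
  (∀ σ ∈ GK k t, ∀ x ∈ Mn k t f N, σ x ∈ Mn k t f N) ∧
  (∀ τ ∈ (Mn k t f N).fixingSubgroup, ∀ M : Ideal (OO k t), M ≠ ⊥ → ∃ a : OO k t, HN f N a ∧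
    Psi τ (sN k t (f * 3 ^ N) * M) (sp a)) ∧
  ∀ σ ∈ GK k t, ∀ τ ∈ (Mn k t f N).fixingSubgroup, ∀ (n : Ideal (OO k t)) (a : OO k t), n ≠ ⊥ →
    Psi τ n (sp a) → Psi (σ * τ * σ⁻¹) n (sp a)

/-! ## The unit `w` -/

/-- (130 lines, module `Eps`; USES `S_O6`, `S_E10`, `S_D8`, `S_hCb`, `S_hRdm`, `S_hHN`, `S_hTP`, `S_hDg`, `S_hLat`, `S_hZp`) **Galois action on `ε_i`.** PROOF. See `DK/H3/Eps.lean`. `n = cnN * sN l * m ≠ ⊥`, `n ≤ m`, `n ≤ cnN`, `n ≤ sN l ≤ sp λ`.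
`z = h z_N + j/λ ∈ Lam (n b)` (`S_hZp` (5), `lam_mul`, `S_hLat` (6), `lam_anti`). `S_E10`: `τ Θ(b, z) = Θ((a) b, z) = Θ(b, a z)` (`S_D8` (3), `a ≠ 0` by `S_hHN`; `PrI m (sN 6)` from `FM`, `S_O6`, `4 ∣ f`); `a z = (a h) z_N + a j/λ`, and with
`j' = (rd r a * j : ZMod l).val`: `a j/λ = j'/λ + toC x` (`S_hLat` (1)), `toC x ∈ Lam b`, so by the periodicity (`S_D8`) `τ Θ(b, z) = Θ(b, (a h) z_N + j'/λ)`. `rd r a ≠ 0`: `PrI (sp a) n` (`Psi.cop`), so `Cop a l` (`S_O6`), `S_hRdm`. `S_hCb` (last part):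
`∏_{j ∈ Jc l i} Θ(b, (a h) z_N + j'/λ) = ∏_{j ∈ Jc l (i + lg (rd r a))} Θ(b, (a h) z_N + j/λ)`. Finally `S_hTP` with `G x = ∏_{j ∈ Jc ..} Θ(b, x z_N + j/λ)`: periodic modulo `cnN` by `S_hZp` (3) and `S_D8`. -/
def S_hEps : Prop := ∀ (k t : ℕ) [SqT k t] (f N : ℕ) (m : Ideal (OO k t)) (T : Finset (OO k t))
  (b : Ideal (OO k t)) (l : ℕ) (la : OO k t) (r : ZMod l), Dat f N m T b l la r →
  ∀ (τ : Gal(Om/ℚ)) (a : OO k t), τ ∈ GK k t → Psi τ (cnN k t f N * sN k t l * m) (sp a) →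
    HN f N a → ∀ i : ZMod 3, τ (epq f N m T b l la i) = epq f N m T b l la (i + lg l (rd r a))

/-- (100 lines, module `Uni`; USES `S_O6`, `S_D5`, `S_hHN`, `S_hDg`, `S_hGd`) **Units.** PROOF. See `DK/H3/Uni.lean`. `S_hGd` for `x = h ∈ T` and `x = λ h`: `Nm h` is odd (`Cop h (3 f)`, `S_hHN`, `4 ∣ f`), `h ∉ ppb` (`S_hHN`), `Nm λ = l` odd, `λ ∉ ppb` (`S_hDg`), a product of two elements with odd norms /
outside of the prime ideal `ppb`. `PrI b (sN 6)`, `PrI m (sN 6)` (`S_O6`: `sN (3 f) ≤ sN 6`). Then `S_D5`, `UP.prod`. -/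
def S_hUni : Prop := ∀ (k t : ℕ) [SqT k t] (f N : ℕ) (m : Ideal (OO k t)) (T : Finset (OO k t))
  (b : Ideal (OO k t)) (l : ℕ) (la : OO k t) (r : ZMod l), Dat f N m T b l la r →
  (PrI m (sN k t 6) ∧ PrI b (sN k t 6)) ∧
  (∀ h ∈ T, Gd m b (toC h * zN k t f N) ∧ Gd m b (toC (la * h) * zN k t f N) ∧
    (∀ j : ℕ, Gd m b (toC h * zN k t f N + pL la j)) ∧
    toC h * zN k t f N ∉ Lam (sp la * m * b)) ∧
  ∀ Q : Ideal ZZ, Npr Q →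
    (∀ i : ZMod 3, UP Q (epq f N m T b l la i)) ∧ UP Q (uN f N m T b) ∧
    ∀ h ∈ T, UP Q (Theta m b (toC h * zN k t f N)) ∧
      UP Q (Theta m b (toC (la * h) * zN k t f N)) ∧
      ∀ j : ℕ, UP Q (Theta m b (toC h * zN k t f N + pL la j))

/-- (160 lines, module `Cst`; USES `S_O6`, `S_D7`, `S_D8`, `S_E10`, `S_hCb`, `S_hRdm`, `S_hHN`, `S_hDg`, `S_hLat`, `S_hZp`, `S_hFix`, `S_hUni`) **The constant `C` of the distribution relation for `(λ)`.** PROOF. `C` from `S_D7` for the ideal `(λ)` and the system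
`R = (range l).image (pL λ)` (`S_hLat` (8), `Finset.prod_image` with `S_hLat` (5)), `z = h z_N` (`sp λ ⊔ m = ⊤` from `PrI m (sN l)`, `sN l ≤ sp λ`): `∏_{j<l} Θ(b, z + j/λ) = C Θ(λ b, z) = C Θ(b, λ z)` (`S_D8` (3)).
(2) `T` is not empty (`1 ∈ H_N`). All factors are units (`S_hUni`), so `C` is. (3) `τ ∈ Gal(Om/F)`: `S_hFix` (6) with `M = ppb * (sN l * m)`: `a ∈ H_N`, `Psi τ n (sp a)`, `n = cnN * sN l * m`. Apply `τ` to the relation for some `h ∈ T`; as in `S_hEps`: left side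
`∏_{j<l} Θ(b, (a h) z_N + j'/λ)`, `j' = (rd r a * j).val`, `j ↦ j'` a permutation of `range l` (or `S_hCb` (7) and (10)); right side `τ C Θ(b, (a λ h) z_N)`. Let `h' ∈ T`, `a h - h' ∈ cnN` (`IsRep.ex`): by the periodicity (`S_hZp` (3), `S_D8`) the left side is
`∏_{j<l} Θ(b, h' z_N + j/λ) = C Θ(b, (λ h') z_N)` and the right side is `τ C Θ(b, (λ h') z_N)`; the value of `Θ` is not `0` (a unit, `S_hUni`). (4) `S_D7`, last part (`Abv P (λ)` and `l ≠ 2, 3` by `S_hDg`). -/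
def S_hCst : Prop := ∀ (k t : ℕ) [SqT k t] (f N : ℕ) (m : Ideal (OO k t)) (T : Finset (OO k t))
  (b : Ideal (OO k t)) (l : ℕ) (la : OO k t) (r : ZMod l), Dat f N m T b l la r →
  ∃ C : Om, C ≠ 0 ∧ (∀ h ∈ T, ∏ j ∈ Finset.range l, Theta m b (toC h * zN k t f N + pL la j) =
      C * Theta m b (toC (la * h) * zN k t f N)) ∧
    (∀ Q : Ideal ZZ, Npr Q → UP Q C) ∧ (∀ τ ∈ (Mn k t f N).fixingSubgroup, τ C = C) ∧
    ∀ P : Ideal ZZ, Npr P → MP P (toO la) → MP P (C - 1)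

/-- (80 lines, module `Nrm`; USES `S_D8`, `S_G3`, `S_hCb`, `S_hHN`, `S_hTP`, `S_hZp`, `S_hUni`) **The norm.** PROOF. See `DK/H3/Nrm.lean`. Product over `h ∈ T` of the relation, with `S_hCb` (7) (`pL λ 0 = 0`): `u ε_0 ε_1 ε_2 = C ^ |T| ∏_h Θ(b, (λ h) z_N) = C ^ |T| u` by `S_hTP` with `a = λ` (`hHN`),
`G x = Θ(b, x z_N)` (periodic modulo `cnN`: `S_hZp` (3), `S_D8`). `u = uN f N m T b = ∏_h Θ(b, h z_N)` by `rfl`; `u ≠ 0` (`S_G3`). -/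
def S_hNrm : Prop := ∀ (k t : ℕ) [SqT k t] (f N : ℕ) (m : Ideal (OO k t)) (T : Finset (OO k t))
  (b : Ideal (OO k t)) (l : ℕ) (la : OO k t) (r : ZMod l), Dat f N m T b l la r → ∀ C : Om,
    (∀ h ∈ T, ∏ j ∈ Finset.range l, Theta m b (toC h * zN k t f N + pL la j) =
      C * Theta m b (toC (la * h) * zN k t f N)) →
    epq f N m T b l la 0 * epq f N m T b l la 1 * epq f N m T b l la 2 = C ^ T.card

/-- (100 lines, module `Cng`; USES `S_O6`, `S_D3`, `S_D6`, `S_hCb`, `S_hDg`, `S_hLat`, `S_hUni`) **The congruence for `ε_0`.** PROOF. Port of `DK/H3/Cng.lean` (public lemmas `DI.H3.CngAux.prod_congr`, `pow_congr`). `¬ Abv P m` as in `S_hCst`. For `j ∈ Jc l 0`: `j/λ ∈ Lam ((λ) b)` (`S_hLat` (6)), so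
`IK P b (j/λ)` (`S_D3` (1)) and `Θ(z + j/λ) ≡ Θ(z)` modulo `P`, `z = h z_N` (`S_D6` (1); `z` is good, `S_hUni`).
Products of congruent elements of `V_P` are congruent: `ε_0 ≡ ∏_h Θ(h z_N) ^ ((l-1)/3) = u ^ ((l-1)/3)` (`S_hCb` (5)). -/
def S_hCng : Prop := ∀ (k t : ℕ) [SqT k t] (f N : ℕ) (m : Ideal (OO k t)) (T : Finset (OO k t))
  (b : Ideal (OO k t)) (l : ℕ) (la : OO k t) (r : ZMod l), Dat f N m T b l la r →
    ∀ P : Ideal ZZ, Npr P → MP P (toO la) →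
      MP P (epq f N m T b l la 0 - uN f N m T b ^ ((l - 1) / 3))

/-! ## The homomorphism `h` -/

/-- (180 lines, module `Hom`; USES `S_O6`, `S_O7`, `S_E1`, `S_E8`, `S_hCb`, `S_hRdm`, `S_hHN`, `S_hFix`) **The cubic character.** PROOF. Port of `DK/H3/Hom.lean`. `n₀ = sN (f 3^N l) = sN (f 3^N) * sN l`. Define `h τ = 0` for `τ ∉ Gal(Om/F)`; for
`τ ∈ Gal(Om/F)` choose `a` with `Psi τ n₀ (a)`, `HN f N a` (`S_hFix` (6)) and let `h τ = lg (rd r a)`.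
It does not depend on `a`: `Ray n₀ (a) (a')` (`S_E1`), so `a - a' ∈ n₀` or `a + a' ∈ n₀` (`S_O7`; `a`, `a'` are prime to `n₀` by `Psi.cop`), so `rd r a = ± rd r a'`, `lg (-x) = lg x` (`S_hCb` (3)).
`Psi τ n (a)`, `n ≤ n₀`, implies `Psi τ n₀ (a)` (`S_E1`). Additivity: `Psi (τ σ) n₀ ((a) (b))` (`S_E1`), `(a) (b) = (a b)`, `HN f N (a b)`; `rd r (a b) = rd r a rd r b`, both nonzero (`S_hRdm`, `Cop a l` from `S_O6`); `S_hCb` (1).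
Locally constant: let `E = FixI n₀ (fun c => Ray n₀ c ⊤)`: by `S_E8` (conditions from `S_O7`) it is finite over `ℚ`, so `E.fixingSubgroup` is open (`IntermediateField.fixingSubgroup_isOpen`), and for
`τ ∈ Gal(Om/F) ∩ E.fixingSubgroup`: `Ray n₀ (a) ⊤`, `⊤ = (1)`, so `a ∓ 1 ∈ n₀`, `rd r a = ±1`, `h τ = 0`. The set `∅` of local groups: no further condition. -/
def S_hHom : Prop := ∀ (k t : ℕ) [SqT k t] (f N : ℕ) (l : ℕ) (la : OO k t) (r : ZMod l), 1 ≤ N →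
  DatL f l la r → ∃ h ∈ VV 3 ∅ (Mn k t f N).fixingSubgroup, IsH k t f N l r h

/-- (100 lines, module `Unr`; USES `S_B1`, `S_R4`, `S_E4`, `S_O6`, `S_hCb`, `S_hRdm`, `S_hDg`, `S_hLat`, `S_hFix`) **`h` is unramified outside `3 λ`.** PROOF. Port of `DK/H3/Unr.lean`. `a` from `S_hFix` (6) for `M = sN l`: `Psi ι (sN (f 3^N l)) (a)`, `HN f N a`.
`S_E4` with `δ = (λ)`, `b = ⊤`, `v = a`, `z = 1/λ` (`pL la 1`, in `Lam ((λ) ⊤)`; `¬ Abv P (λ)` by `S_hDg`): `xO ⊤ (a/λ) = xO ⊤ (1/λ)`; apply `io` (`S_R4`): `XC ⊤ (a/λ) = XC ⊤ (1/λ)`, both points not in `Lam ⊤` (`rd r a ≠ 0`;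
`a/λ = pL la a' + O`, `S_hLat` for `b = ⊤`), so `S_B1`: `a/λ - 1/λ` or `a/λ + 1/λ` is in `Lam ⊤ = O`, i.e. `λ ∣ a - 1` or
`λ ∣ a + 1`, `rd r a = ±1`, `lg = 0`. -/
def S_hUnr : Prop := ∀ (k t : ℕ) [SqT k t] (f N : ℕ) (l : ℕ) (la : OO k t) (r : ZMod l), 1 ≤ N →
  DatL f l la r → ∀ h : Gal(Om/ℚ) → ZMod 3, IsH k t f N l r h →
  ∀ P : Ideal ZZ, Npr P → ¬ MP P 3 → ¬ MP P (toO la) →
    ∀ ι ∈ P.inertia Gal(Om/ℚ), ι ∈ (Mn k t f N).fixingSubgroup → h ι = 0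

/-- (120 lines, module `NmK`; USES nothing) **The prime `(λ)` of `K`.** PROOF. Port of `DK/H3/NmK.lean`: the norm of `λ = x + y w` from `K` to `ℚ` is `x ^ 2 + t x y + 3 k y ^ 2`, the trace `2 x + t y`. -/
def S_hNmK : Prop := ∀ (k t : ℕ) [SqT k t] (l : ℕ) (la : OO k t), l.Prime → Nm la = l →
  ∃ (_ : NumberField (KQ k t)) (b : 𝓞 (KQ k t)),
  ((b : KQ k t) : Om) = toO la ∧ (Ideal.span {b} : Ideal (𝓞 (KQ k t))).IsPrime ∧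
    ∀ P : Ideal ZZ, P.IsPrime → MP P (toO la) → P.comap (iO (KQ k t)) = Ideal.span {b}

/-- (100 lines, module `Inr`; USES `S_GM`, `S_hZt`, `S_hDg`, `S_hFix`) **`F(λ^(1/3))/F` is ramified over `λ`.** PROOF. See `DK/H3/Inr.lean` (there for `K`, `p = 2`). Suppose that all `ι ∈ P.inertia` with `ι ∈ Gal(Om/F)` fix `β`. `λ`, `cjO λ` (i.e. `toO ..`) are in `KQ ≤ Mf ≤ Mn = F` (`S_GM`); `v = P.comap (iO F)`, a `HeightOneSpectrum`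
(`≠ ⊥`: it contains `l`, `S_hDg`). `tRm tIne 3 F (zet 3) β` (files `FW/G/Rm.lean`, `FW/G/Ine.lean`; `zet 3 ∈ F`): `3 ∣ vl F v λ` (`vl` is definitionally the `FractionalIdeal.count`). But `vl F v λ + vl F v (cjO λ) = vl F v l = 1` (`vl_mul`, hypothesis), both are `≥ 0` (integral: `vl_vp`/`vl_val`) and
`vl F v λ ≥ 1` (`MP P λ`; `DI/T/KapV.lean`: `mp_vl`), so `vl F v λ = 1`: contradiction. -/
def S_hInr : Prop := ∀ (k t : ℕ) [SqT k t] (f N : ℕ) (l : ℕ) (la : OO k t) (r : ZMod l), 1 ≤ N →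
  DatL f l la r → ∀ [NumberField (Mn k t f N)],
  (∀ v : HeightOneSpectrum (𝓞 (Mn k t f N)), (l : 𝓞 (Mn k t f N)) ∈ v.asIdeal →
    vl (Mn k t f N) v (l : Mn k t f N) = 1) →
  ∀ P : Ideal ZZ, Npr P → MP P (toO la) → ∀ β : Om, β ^ 3 = toO la →
    ∃ ι ∈ P.inertia Gal(Om/ℚ), ι ∈ (Mn k t f N).fixingSubgroup ∧ ι β ≠ β

/-- (40 lines, module `Tra`; USES `S_hNmK`) **Transitivity.** Port of `DK/H3/Tra.lean`. -/
def S_hTra : Prop := ∀ (k t : ℕ) [SqT k t] (l : ℕ) (la : OO k t), l.Prime → Nm la = l →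
  ∀ P Q : Ideal ZZ, Npr P → Npr Q → MP P (toO la) → MP Q (toO la) → ∃ σ ∈ GK k t, P = σ • Q

/-- (200 lines, module `Ram`; USES `S_B1`, `S_B7`, `S_D4`, `S_O6`, `S_hCb`, `S_hRdm`, `S_hDg`, `S_hLat`, `S_hFix`) **`h` is ramified over `λ`.** PROOF. Port of `DK/H3/Ram.lean`. `a` from `S_hFix` (6) (`M = sN l`): `Psi ι (sN (f 3^N l)) (a)`, `HN f N a`; suppose `h ι = 0`, so `lg x = 0`, `x = rd r a` (`IsH`), `x ≠ 0`.
`B = (Jc l 0).filter (2 j < l)`, `G j = xO ⊤ (j/λ)`, `x₁ = ∏_{j ∈ B} G j`. `ι (G j) = xO ((a) ⊤) (j/λ) = xO ⊤ (a j/λ)` (`Psi.xx`: `j/λ ∈ Lam (n ⊤)`, `S_hLat` (6); `S_B7`) `= G j'` with `j' = (x * j).val`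
(`S_hLat` (1), periodicity of `XC`: `S_B1`). `DI.H3.tPrm` on `B` (in `ℕ`) with `R j j'` : `(j : ZMod l) = j'` or
`= -j'`, `e j = (x * j).val` gives `ι x₁ = x₁` (`j' ∈ Jc l 0`, and `j'` or `l - j'` is in `B`; `G (l - j) = G j` by `S_hLat` (3), `S_B1`). `y = x₁ β` is a unit at `P`: `∏_{j ∈ B} (λ (G j) ^ ((l-1)/2)) = λ ^ |B| x₁ ^ ((l-1)/2) = (y ^ 3) ^ |B|` as `6 |B| = l - 1` (`S_hCb` (9)), a unit
by `S_D4` (`b = ⊤`; `λ (j/λ) = j ∈ Lam ⊤`, `j/λ ∉ Lam ⊤`); `UP.of_pow` twice (`|B| > 0`). `ζ = ι β / β`, `ζ ^ 3 = 1` (`GK_toO`), `ζ ≠ 1`, `ι y = ζ y` and `ι y - y ∈ MP P` (`VP.inertia`), so `(ζ - 1) y ∈ MP P`, `ζ - 1 ∈ MP P`; `(ζ - 1) (ζ ^ 2 + ζ + 1) = 0` gives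
`ζ ^ 2 + ζ + 1 = 0`, `3 = (1 - ζ) (ζ + 2)`, so `MP P 3`: contradiction (`S_hDg`). -/
def S_hRam : Prop := ∀ (k t : ℕ) [SqT k t] (f N : ℕ) (l : ℕ) (la : OO k t) (r : ZMod l), 1 ≤ N →
  DatL f l la r → ∀ h : Gal(Om/ℚ) → ZMod 3, IsH k t f N l r h →
  ∀ P : Ideal ZZ, Npr P → MP P (toO la) → ∀ β : Om, β ^ 3 = toO la →
    ∀ ι ∈ P.inertia Gal(Om/ℚ), ι ∈ (Mn k t f N).fixingSubgroup → ι β ≠ β → h ι ≠ 0

/-! ## Result -/

/-- (220 lines, module `Res`; USES `S_O2`, `S_O6`, `S_E2`, `S_hLa`, `S_hPri`, `S_hT3`, `S_hAlR`, `S_hFix`, `S_hDg`, `S_hEps`, `S_hUni`, `S_hCst`, `S_hNrm`, `S_hCng`, `S_hHom`, `S_hUnr`, `S_hInr`, `S_hTra`, `S_hRam`) **Result.** PROOF. See `DK/H3/Res.lean`.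
`B = f NI m NI b B₁ B₂`, `B₁` from `S_E2` for `n = sN (f 3^N)`, `B₂` from `S_hAlR` for `F = Mn k t f N`. Let `l`, `Q`, `φ` be given; `φ ∈ GK` (`S_hFix`). `S_hLa`: `q`, `r`; `Abv Q q`, so `Psi φ n q` (`S_E2`: `Fro Q l φ`), `HPN f N q` (`S_hFix`), `q = (λ)`, `HN f N λ` (`S_hPri`);
`Nm λ = NI q = l` (`S_O2`), `rd r x = 0 ↔ x ∈ (λ) ↔ λ ∣ x`. `PrI m (sN l)`, `PrI b (sN l)` by `S_O6`. So `Dat`. `h` from `S_hHom`, `C` from `S_hCst`, `c = C ^ (|T|/3)`, `c ^ 3 = C ^ |T|` (`S_hT3`), `w = ε_0 / c`. For `τ ∈ Gal(Om/F)` let `Psi τ (cnN * sN l * m) (a)`, `HN f N a` (`S_hFix` (6), `M = ppb * (sN l * m)`);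
`h τ = lg (rd r a)` (`IsH`), `τ ε_i = ε_(i + h τ)` (`S_hEps`), `τ c = c`. (1) `h τ = 0`. (2) `h τ = 1`: `τ w = ε_1/c`, `τ^2 w = ε_2/c`, `S_hNrm`: the product is `C ^ |T| / c ^ 3 = 1`. (3) units: `S_hUni`, `S_hCst`.
(4) `h (σ τ σ⁻¹) = h τ`: `S_hFix` (7), `IsH`. (5) unramified: if `MP P (toO λ)` then `S_hTra` gives a contradiction; so
`S_hUnr`. (6) ramified at `Q`: `β` a cube root of `toO λ`; `S_hInr` (hypothesis from `S_hAlR`), `S_hRam`. (7) `P = σ Q`, `σ ∈ GK`: `MP P (toO λ)` (`MP.smul`, `GK_toO`); `C ≡ 1`, so `c ≡ 1` modulo `P`, `w - u^e = ((ε_0 - u^e) - (c - 1) u^e)/c`, `S_hCng`. `h ≠ 0` by (6). -/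
def S_hRes : Prop := ∀ (k t : ℕ) [SqT k t] (f N : ℕ) (m : Ideal (OO k t)) (T : Finset (OO k t))
  (b : Ideal (OO k t)), FM f m → 1 ≤ N → IsRep f N T → b ≠ ⊥ → PrI b (sN k t (3 * f)) →
  ∃ B : ℕ, 0 < B ∧
  ∀ (l : ℕ), l.Prime → l % 3 = 1 → l.Coprime B →
  ∀ Q : Ideal ZZ, Npr Q → (l : ZZ) ∈ Q →
  ∀ φ ∈ (Mn k t f N).fixingSubgroup, (∀ x : ZZ, φ • x - x ^ l ∈ Q) →
  ∃ h ∈ VV 3 ∅ (Mn k t f N).fixingSubgroup, ∃ w : Om, h ≠ 0 ∧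
    (∀ τ ∈ (Mn k t f N).fixingSubgroup, h τ = 0 → τ w = w) ∧
    (∀ τ ∈ (Mn k t f N).fixingSubgroup, h τ = 1 → ∏ i ∈ Finset.range 3, (τ ^ i) w = 1) ∧
    (∀ P : Ideal ZZ, Npr P → UP P w) ∧
    (∀ σ ∈ GK k t, ∀ τ ∈ (Mn k t f N).fixingSubgroup, h (σ * τ * σ⁻¹) = h τ) ∧
    (∀ P : Ideal ZZ, Npr P → ¬ MP P 3 → (∀ σ ∈ GK k t, P ≠ σ • Q) →
      ∀ ι ∈ P.inertia Gal(Om/ℚ), ι ∈ (Mn k t f N).fixingSubgroup → h ι = 0) ∧
    (∃ ι ∈ Q.inertia Gal(Om/ℚ), ι ∈ (Mn k t f N).fixingSubgroup ∧ h ι ≠ 0) ∧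
    ∀ σ ∈ GK k t, MP (σ • Q) (w - uN f N m T b ^ ((l - 1) / 3))

/-- (180 lines, module `KK`: `theorem tKK (h1 : S_G3) (h2 : S_hZt) (h3 : S_hFix) (h4 : S_pKap) (h5 : S_pLeg) (h6 : S_hRes) : S_hKK`) **The element `k`.** PROOF. `B` from `S_hRes`; `M = 3 B`. Let `Q`, `φ` be as in `Thnp`, `l = Nat.card (𝓞 F ⧸ Q ∩ F)` prime, `l % 3 = 1`; `(l : ZZ) ∈ Q` and
`l.Coprime B` (as `(B : ZZ) ∉ Q`): see the first lines of `AsmAux.thn_of_kk` in `DK/H3/Asm.lean`. `IsFr`: `φ ∈ Gal(Om/F)` and `φ • x - x ^ l ∈ Q`. `S_hRes` gives `h`, `w`. `S_pKap` (`p = 3`, `zt = zet 3`, `R = ↑Sg`, `c σ = kp 3 (zet 3) (σ⁻¹ u) φ`, `u = uN ..`): the last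
hypothesis from `S_hRes` (last part), `S_pLeg` (`UP (σ • Q) u`: `S_G3`; `φ (σ⁻¹ u) = σ⁻¹ u` as `σ⁻¹ u ∈ F` by `S_hFix` (5) for `σ⁻¹`; `φ (zet 3) = zet 3`) and `MP.add`. `KKp`: `ne`, `od` direct. `ev`: let `Ab F Q' v`, `3 ∉ Q'`, no `Ab F (σ • Q) v` for `σ ∈ Sg`; then `Q' ≠ τ • Q` for all `τ ∈ GK`: take
`s ∈ Sg` with `s⁻¹ τ ∈ Gal(Om/F)`, then `(τ • Q) ∩ F = (s • Q) ∩ F` (proof in `AsmAux.thn_of_kk`), so `Ab F (s • Q) v`, contradiction. So `h` is unramified at `Q'` and `3 ∣ vl F v k`. -/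
def S_hKK : Prop := ∀ (k t : ℕ) [SqT k t] (f N : ℕ) (m : Ideal (OO k t)) (T : Finset (OO k t))
  (b : Ideal (OO k t)), FM f m → 1 ≤ N → IsRep f N T → b ≠ ⊥ → PrI b (sN k t (3 * f)) →
  ∀ [NumberField (Mn k t f N)] (Sg : Finset Gal(Om/ℚ)), (∀ s ∈ Sg, s ∈ GK k t) →
    (∀ τ ∈ GK k t, ∃ s ∈ Sg, s⁻¹ * τ ∈ (Mn k t f N).fixingSubgroup) →
    ∃ M : ℕ, M ≠ 0 ∧ Thnp 3 (Mn k t f N) Sg (zet 3) (uN f N m T b) M

/-- (100 lines, module `Asm`: `theorem tAsm (h1 : S_G3) (h2 : S_hZt) (h3 : S_hFix) (h4 : S_pTH) (h5 : S_hKK) : S_hAsm`) **Theorem H.** PROOF. See `DK/H3/Asm.lean`. `S_pTH` with `p = 3`, `F = Mn k t f N`, `R = Sg`, `u = uN ..`, `zt = zet 3`, `M` from `S_hKK`; `DI.stab_of_le`; convert `kap` into `kp` by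
`S_hZt` (`w = s⁻¹ u ∈ F`, fixed by `d`). -/
def S_hAsm : Prop := S_H

end Pool.Agent.DT.H3
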