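import Pool.Agent.Lib.DT.H3.Spec
import Pool.Agent.Lib.DI.T.KapV

set_option autoImplicit false

/-!
# THEOREM DT (MP_d0239a_nt), Part H, module AlR (helper41)

A number field is unramified at almost all primes: the norm of the different.
-/

open scoped Pointwise nonZeroDivisors

noncomputable section

namespace Pool.Agent.DT.H3

open Pool.Agent.MuZ Pool.Agent.FW NumberField IsDedekindDomain
open Pool.Agent.DI (io ofC io_inj exists_io io_ofC ofC_io VP MP UP TP ex)
open Pool.Agent.DT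

private theorem AlR_sq {F : IntermediateField ℚ Om} [NumberField F] {l : ℕ} (hl : l.Prime)
    (hB : l.Coprime (Ideal.absNorm (differentIdeal ℤ (𝓞 F)))) (v : HeightOneSpectrum (𝓞 F))
    (hv : (l : 𝓞 F) ∈ v.asIdeal) : ¬ v.asIdeal ^ 2 ∣ Ideal.span {(l : 𝓞 F)} := by
  intro h
  have hlp : Prime (l : ℤ) := Nat.prime_iff_prime_int.1 hl
  have hmap : Ideal.map (algebraMap ℤ (𝓞 F)) (Ideal.span {(l : ℤ)}) = Ideal.span {(l : 𝓞 F)} := by
    rw [Ideal.map_span, Set.image_singleton]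
    congr 2
  have _ : (Ideal.span {(l : ℤ)}).IsMaximal :=
    PrincipalIdealRing.isMaximal_of_irreducible hlp.irreducible
  have h1 : v.asIdeal ^ (2 - 1) ∣ differentIdeal ℤ (𝓞 F) := by
    refine pow_sub_one_dvd_differentIdeal ℤ (p := Ideal.span {(l : ℤ)}) v.asIdeal 2 ?_ ?_
    · rw [Ne, Ideal.span_singleton_eq_bot]
      exact hlp.ne_zero
    · rw [hmap]
      exact h
  rw [Nat.add_one_sub_one, pow_one] at h1
  have h2 : Ideal.absNorm v.asIdeal ∣ Ideal.absNorm (differentIdeal ℤ (𝓞 F)) :=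
    map_dvd Ideal.absNorm h1
  have h3 : Ideal.absNorm v.asIdeal ∣ l ^ Module.finrank ℤ (𝓞 F) := by
    have h4 : v.asIdeal ∣ Ideal.span {(l : 𝓞 F)} := by
      rw [Ideal.dvd_span_singleton]
      exact hv
    have h5 := map_dvd Ideal.absNorm h4
    rw [Ideal.absNorm_span_natCast] at h5
    exact h5
  have h6 : Ideal.absNorm v.asIdeal = 1 :=
    Nat.Coprime.eq_one_of_dvd ((Nat.Coprime.pow_left _ hB).symm.coprime_dvd_left h2) h3
  exact v.isPrime.ne_top (Ideal.absNorm_eq_one_iff.1 h6)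

theorem tAlR : S_hAlR := by
  intro F _
  refine ⟨Ideal.absNorm (differentIdeal ℤ (𝓞 F)), ?_, ?_⟩
  · rw [Nat.pos_iff_ne_zero, Ne, Ideal.absNorm_eq_zero_iff]
    exact differentIdeal_ne_bot
  · intro l hl hB v hv
    have hl0 : (l : F) ≠ 0 := Nat.cast_ne_zero.2 hl.ne_zero
    have h1 : v.intValuation (l : 𝓞 F) = WithZero.exp (-(vl F v (l : F))) := by
      rw [← DI.vl_val v (l : F) hl0, ← HeightOneSpectrum.valuation_of_algebraMap (K := F)]
      exact congrArg _ (map_natCast (algebraMap (𝓞 F) F) l)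
    have h2 : ¬ v.intValuation (l : 𝓞 F) ≤ WithZero.exp (-((2 : ℕ) : ℤ)) := fun h =>
      AlR_sq hl hB v hv ((HeightOneSpectrum.intValuation_le_pow_iff_dvd v _ 2).1 h)
    have h3 : v.intValuation (l : 𝓞 F) ≤ WithZero.exp (-((1 : ℕ) : ℤ)) := by
      rw [HeightOneSpectrum.intValuation_le_pow_iff_dvd, pow_one, Ideal.dvd_span_singleton]
      exact hv
    rw [h1, WithZero.exp_le_exp] at h2 h3
    push_cast at h2 h3
    omega

end Pool.Agent.DT.H3
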