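import Pool.Agent.Lib.DT.H3.Spec
import Pool.Agent.Lib.DI.H3.Cng

set_option autoImplicit false

/-!
# Theorem DT, part H, module `Cng`: the congruence for `ε_0`
-/

open scoped Pointwise nonZeroDivisors

noncomputable section

namespace Pool.Agent.DT.H3

open Pool.Agent.MuZ Pool.Agent.FW NumberField IsDedekindDomain
open Pool.Agent.DI (io ofC io_inj exists_io io_ofC ofC_io VP MP UP TP ex)
open Pool.Agent.DT

theorem tCng (h1 : S_O6) (h2 : S_D3) (h3 : S_D6) (h4 : S_hCb) (h5 : S_hDg) (h6 : S_hLat)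
    (h7 : S_hUni) : S_hCng := by
  intro k t _ f N m T b l la r D P hP hla
  have hPp : P.IsPrime := hP.1
  obtain ⟨-, -, -, -, -, -, -, hex⟩ := h1 k t
  obtain ⟨-, -, -, -, hcard, -⟩ := h4 l D.hl D.hl3
  obtain ⟨hDeg, hAbv, -, hl2, hl3, -, -, hQ⟩ := h5 k t f l la r D.toDatL
  obtain ⟨-, -, -, -, -, hLam, -⟩ := h6 k t f l la r D.toDatL
  obtain ⟨⟨hm6, -⟩, hG, hU⟩ := h7 k t f N m T b l la r D
  obtain ⟨hlP, hP3, -⟩ := hQ P hP hla
  have hlM : MP P ((l : ℕ) : Om) := (Pool.Agent.DI.MP.nat_iff l).2 hlP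
  have hPm : ¬ Abv P m := by
    intro h
    obtain ⟨μ, hμ, -, hμ1⟩ := hex m (sN k t l) D.hm.ne D.hlm
    obtain ⟨c, hc⟩ := Ideal.mem_span_singleton.1 hμ1
    have e : (1 : Om) = toO μ - ((l : ℕ) : Om) * toO c := by
      have e1 : μ = 1 + (l : OO k t) * c := by rw [← hc]; ring
      rw [e1, toO_add, toO_mul, toO_one, toO_nat]
      ring
    apply Pool.Agent.DI.MP.one_not (P := P)
    rw [e]
    exact (h μ hμ).sub (Pool.Agent.DI.MP.mul_right hlM (toO_VP c))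
  obtain ⟨-, -, hUt⟩ := hU P hP
  have hj : ∀ h ∈ T, ∀ j ∈ Jc l 0,
      MP P (Theta m b (toC h * zN k t f N + pL la j) - Theta m b (toC h * zN k t f N)) := by
    intro h hh j _
    have hz := (h2 k t (sp la) l hDeg hl2 hl3 P hP ((hAbv P hP).1 hla) b D.hb0).1 _ (hLam b j)
    have hg := (hG h hh).1
    exact (h3 k t m b D.hm.ne D.hb0 hm6 P hP hP3 hPm _ hg.1 (hg.2 P hP)).1 _ hz
  unfold epq uN
  rw [← Finset.prod_pow]
  refine Pool.Agent.DI.H3.CngAux.prod_congr T _ _ (fun h hh => (hUt h hh).1.1.pow _) fun h hh => ?_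
  have e : Theta m b (toC h * zN k t f N) ^ ((l - 1) / 3) =
      ∏ _j ∈ Jc l 0, Theta m b (toC h * zN k t f N) := by
    rw [Finset.prod_const, hcard]
  rw [e]
  exact Pool.Agent.DI.H3.CngAux.prod_congr (Jc l 0) _ _ (fun _ _ => (hUt h hh).1.1) fun j hj' =>
    hj h hh j hj'

end Pool.Agent.DT.H3
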