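import Pool.Agent.Lib.DT.H3.Spec
import Pool.Agent.Lib.DI.H3.Prm

set_option autoImplicit false

/-!
# Theorem DT, part H3: the constant of the distribution relation for `(λ)` (`S_hCst`)
-/

open scoped Pointwise nonZeroDivisors

noncomputable section

namespace Pool.Agent.DT.H3

open Pool.Agent.MuZ Pool.Agent.FW NumberField IsDedekindDomain
open Pool.Agent.DI (io ofC io_inj exists_io io_ofC ofC_io VP MP UP TP ex)
open Pool.Agent.DT

namespace CstAux

private theorem toC_mem {k t : ℕ} [SqT k t] (b : Ideal (OO k t)) (v : OO k t) : toC v ∈ Lam b :=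
  lam_anti le_top (lam_top.2 ⟨v, rfl⟩)

private theorem sN_ne {k t : ℕ} {n : ℕ} (hn : n ≠ 0) : sN k t n ≠ ⊥ := by
  intro h11
  have h12 : (n : OO k t) = 0 := Ideal.span_singleton_eq_bot.1 h11
  have h13 := congrArg Nm h12
  rw [Nm_nat, Nm_zero] at h13
  have h14 : (n : ℤ) = 0 := by simpa using h13
  exact hn (by exact_mod_cast h14)

private theorem mul_ne {k t : ℕ} [SqT k t] {a b : Ideal (OO k t)} (ha : a ≠ ⊥) (hb : b ≠ ⊥) :
    a * b ≠ ⊥ := by
  rw [← Ideal.zero_eq_bot] at ha hb ⊢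
  exact mul_ne_zero ha hb

end CstAux

open CstAux in
theorem tCst (h1 : S_O6) (h2 : S_D7) (h3 : S_D8) (h4 : S_E10) (_h5 : S_hCb) (h6 : S_hRdm)
    (h7 : S_hHN) (h8 : S_hDg) (h9 : S_hLat) (h10 : S_hZp) (h11 : S_hFix) (h12 : S_hUni) :
    S_hCst := by
  intro k t _ f N m T b l la r hD
  have hlp := hD.hl
  have : Fact l.Prime := ⟨hlp⟩
  have : NeZero l := ⟨hlp.ne_zero⟩
  have hf := hD.hf
  have hN := hD.hN
  have hm0 : m ≠ ⊥ := hD.hm.ne
  have hb0 : b ≠ ⊥ := hD.hb0
  obtain ⟨-, -, -, o4, -, o6, -⟩ := h1 k t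
  obtain ⟨-, -, -, -, -, -, r7, -, -⟩ := h6 k t f l la r hD.toDatL
  obtain ⟨n1, n2, -, n4, -⟩ := h7 k t f N hf hN
  obtain ⟨g1, g2, g3, gl2, gl3, -⟩ := h8 k t f l la r hD.toDatL
  obtain ⟨q1, -, -, -, q5, q6, q7⟩ := h9 k t f l la r hD.toDatL
  obtain ⟨-, -, z3, z4, z5⟩ := h10 k t f N hf
  obtain ⟨-, -, x3, -, -, x6, -⟩ := h11 k t f N hf hN
  obtain ⟨⟨u1, -⟩, u3, u4⟩ := h12 k t f N m T b l la r hD
  obtain ⟨-, d2, d3, d4⟩ := h3 k t m b hm0 hb0 u1
  have hla0 : la ≠ 0 := (n4 la hD.hHN).1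
  have hspla : sp la ≠ ⊥ := fun h => hla0 (Ideal.span_singleton_eq_bot.1 h)
  have hsup : sp la ⊔ m = ⊤ := by
    rw [sup_comm]
    exact o4 m _ _ (g3 _ le_rfl) hD.hlm
  obtain ⟨C, hC0, hC1, hC2⟩ := h2 k t (sp la) m b hspla hm0 hb0 u1 hsup
  obtain ⟨-, hsys⟩ := q7 b hb0 hD.hlb
  have hper : ∀ (z : ℂ) (v : OO k t), Theta m b (z + toC v) = Theta m b z :=
    fun z v => (d2 z).2 _ (toC_mem b v)
  -- the relation
  have hrel : ∀ h ∈ T, ∏ j ∈ Finset.range l, Theta m b (toC h * zN k t f N + pL la j) =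
      C * Theta m b (toC (la * h) * zN k t f N) := by
    intro h hh
    have e1 := hC1 _ hsys (toC h * zN k t f N) (tor_mul _ z4) (u3 h hh).2.2.2
    rw [Finset.prod_image q5, d3 la _ hla0, ← mul_assoc, ← toC_mul] at e1
    exact e1
  obtain ⟨h0, hh0, -⟩ := hD.hT.ex 1 n1
  refine ⟨C, hC0, hrel, ?_, ?_, ?_⟩
  · intro Q hQ
    have : Q.IsPrime := hQ.1
    obtain ⟨-, -, u5⟩ := u4 Q hQ
    obtain ⟨-, u6, u7⟩ := u5 h0 hh0
    have e1 := hrel h0 hh0
    have e2 : C = (∏ j ∈ Finset.range l, Theta m b (toC h0 * zN k t f N + pL la j)) /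
        Theta m b (toC (la * h0) * zN k t f N) := by
      rw [e1]
      field_simp [u6.ne_zero]
    rw [e2]
    exact (DI.UP.prod _ _ fun j _ => u7 j).div u6
  · intro τ hτ
    have hM0 : ppb k t * (sN k t l * m) ≠ ⊥ := by
      refine mul_ne ?_ (mul_ne (sN_ne hlp.ne_zero) hm0)
      intro h
      have h13 : (3 : OO k t) ∈ ppb k t := Ideal.subset_span (Or.inl rfl)
      rw [h] at h13
      have h14 : (3 : OO k t) = 0 := h13
      have h15 := congrArg toC h14
      rw [toC_three, toC_zero] at h15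
      norm_num at h15
    obtain ⟨a, haN, ha⟩ := x6 τ hτ _ hM0
    have ha0 : a ≠ 0 := (n4 a haN).1
    set n : Ideal (OO k t) := sN k t (f * 3 ^ N) * (ppb k t * (sN k t l * m)) with hn
    have hFN : f * 3 ^ N ≠ 0 := Nat.mul_ne_zero hf.pos.ne' (pow_ne_zero _ (by norm_num))
    have hn0 : n ≠ ⊥ := mul_ne (sN_ne hFN) hM0
    have hnm : n ≤ m := by
      rw [hn]
      exact le_trans Ideal.mul_le_right (le_trans Ideal.mul_le_right Ideal.mul_le_right)
    have hnl : n ≤ sN k t l := by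
      rw [hn]
      exact le_trans Ideal.mul_le_right (le_trans Ideal.mul_le_right Ideal.mul_le_left)
    have hncn : n = cnN k t f N * (sN k t l * m) := by
      rw [hn]
      unfold cnN
      rw [mul_assoc]
    have hGK : τ ∈ GK k t := ((x3 τ).1 hτ).1
    have hxa : rd r a ≠ 0 := r7 a ((o6 l a).1 (o4 _ _ _ hnl ha.cop))
    obtain ⟨-, -, e10⟩ := h4 k t τ n (sp a) hn0 hGK ha
    have hact : ∀ z ∈ Lam (n * b), τ (Theta m b z) = Theta m b (toC a * z) := by
      intro z hz
      rw [e10 m b hm0 hb0 u1 hnm z hz, d3 a z ha0]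
    have hzN : ∀ v : OO k t, toC v * zN k t f N ∈ Lam (n * b) := by
      intro v
      rw [hncn, mul_assoc]
      exact lam_mul v (z5 _)
    have hpL : ∀ j : ℕ, pL la j ∈ Lam (n * b) := fun j =>
      lam_anti (Ideal.mul_mono_left (g3 _ hnl)) (q6 b j)
    set e : ℕ → ℕ := fun j => (rd r a * (j : ZMod l)).val with he
    have hecast : ∀ j : ℕ, ((e j : ℕ) : ZMod l) = rd r a * j := fun j => by
      rw [he]
      exact ZMod.natCast_zmod_val _
    have hperm : ∀ G : ℕ → Om, ∏ j ∈ Finset.range l, G (e j) = ∏ j ∈ Finset.range l, G j := by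
      intro G
      refine DI.H3.tPrm ℕ Om (Finset.range l) (fun i j => i = j) e G (fun _ _ h => h.symm)
        (fun _ _ _ h h' => h.trans h') ?_ ?_ (fun _ _ h => by rw [h])
      · intro s _
        exact ⟨e s, Finset.mem_range.2 (ZMod.val_lt _), rfl⟩
      · intro s hs s' hs' h
        have h13 : rd r a * (s : ZMod l) = rd r a * (s' : ZMod l) := by
          rw [← hecast, ← hecast, h]
        have h14 : (s : ZMod l) = s' := mul_left_cancel₀ hxa h13
        have h15 := (ZMod.natCast_eq_natCast_iff' s s' l).1 h14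
        rwa [Nat.mod_eq_of_lt (Finset.mem_range.1 hs), Nat.mod_eq_of_lt (Finset.mem_range.1 hs')]
          at h15
    obtain ⟨h', hh', hc⟩ := hD.hT.ex _ (n2 a h0 haN (hD.hT.mem h0 hh0))
    obtain ⟨u, hu⟩ := z3 _ hc
    have hah : toC (a * h0) * zN k t f N = toC h' * zN k t f N + toC u := by
      rw [← hu, toC_sub]
      ring
    have e1 := congrArg τ (hrel h0 hh0)
    rw [map_prod, map_mul, hact _ (hzN _)] at e1
    have e2 : ∀ j ∈ Finset.range l, τ (Theta m b (toC h0 * zN k t f N + pL la j)) =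
        Theta m b (toC h' * zN k t f N + pL la (e j)) := by
      intro j _
      obtain ⟨x, hx⟩ := q1 a j (e j) (hecast j)
      rw [hact _ (lam_add (hzN _) (hpL j)), mul_add, hx, ← mul_assoc, ← toC_mul, hah]
      have e3 : toC h' * zN k t f N + toC u + (pL la (e j) + toC x) =
          toC h' * zN k t f N + pL la (e j) + toC (u + x) := by
        rw [toC_add]
        ring
      rw [e3, hper]
    rw [Finset.prod_congr rfl e2,
      hperm (fun j => Theta m b (toC h' * zN k t f N + pL la j)), hrel h' hh'] at e1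
    have e4 : toC a * (toC (la * h0) * zN k t f N) = toC (la * h') * zN k t f N +
        toC (la * u) := by
      rw [toC_mul la h0, toC_mul la h', toC_mul la u]
      rw [toC_mul] at hah
      linear_combination toC la * hah
    rw [e4, hper] at e1
    have hne : Theta m b (toC (la * h') * zN k t f N) ≠ 0 := by
      refine d4 _ (tor_mul _ z4) (fun h => (u3 h' hh').2.2.2 ?_)
      rw [mul_assoc, lam_sp, ← mul_assoc, ← toC_mul]
      exact h
    exact (mul_right_cancel₀ hne e1).symm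
  · intro P hP hPla
    exact hC2 l P g1 gl2 gl3 hP ((g2 P hP).1 hPla)

end Pool.Agent.DT.H3
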