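import Pool.Agent.Lib.DT.H3.Spec

set_option autoImplicit false

/-!
# Theorem DT, part H, module `Dg`: the prime ideal `(λ)`
-/

open scoped Pointwise nonZeroDivisors

noncomputable section

namespace Pool.Agent.DT.H3

open Pool.Agent.MuZ Pool.Agent.FW NumberField IsDedekindDomain
open Pool.Agent.DI (io ofC io_inj exists_io io_ofC ofC_io VP MP UP TP ex)
open Pool.Agent.DT

namespace DgAux

variable {k t : ℕ}

theorem t3 [h : SqT k t] : ∃ s : ℕ, t = 3 * s + 1 := by
  rcases h.out with ⟨h1, -, -⟩ | ⟨h1, -, -⟩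
  · exact ⟨0, by omega⟩
  · exact ⟨1, by omega⟩

theorem three_dvd [SqT k t] {v : OO k t} (hv : v ∈ ppb k t) : (3 : ℤ) ∣ Nm v := by
  obtain ⟨s, hs⟩ := t3 (k := k) (t := t)
  obtain ⟨x, y, hxy⟩ := Ideal.mem_span_pair.1 hv
  have h3 : (3 : OO k t) = ((3 : ℕ) : OO k t) := by norm_cast
  have hre : v.re = 3 * x.re + (y.re + 3 * k * y.im) := by
    rw [← hxy, QuadraticAlgebra.re_add, re_mul, re_mul, h3, re_nat, im_nat]
    simp only [wI, QuadraticAlgebra.re_sub, QuadraticAlgebra.im_sub, re_one, im_one]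
    push_cast
    ring
  have him : v.im = 3 * x.im + (y.im - y.re - t * y.im) := by
    rw [← hxy, QuadraticAlgebra.im_add, im_mul, im_mul, h3, re_nat, im_nat]
    simp only [wI, QuadraticAlgebra.re_sub, QuadraticAlgebra.im_sub, re_one, im_one]
    push_cast
    ring
  have hs' : (t : ℤ) = 3 * s + 1 := by exact_mod_cast hs
  have him' : v.im = - v.re + 3 * (x.im + x.re + k * y.im - s * y.im) := by
    linear_combination him + hre - y.im * hs'
  have key : ∀ r i T S z K : ℤ, T = 3 * S + 1 → i = -r + 3 * z →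
      (3 : ℤ) ∣ r ^ 2 + T * r * i + 3 * K * i ^ 2 := by
    rintro r i T S z K rfl rfl
    exact ⟨r * z - S * r ^ 2 + 3 * S * r * z + K * (-r + 3 * z) ^ 2, by ring⟩
  exact key _ _ _ _ _ _ hs' him'

theorem not_both {Q : Ideal ZZ} [hQ : Q.IsPrime] {l p : ℕ} (h : Nat.Coprime l p)
    (hl : (l : ZZ) ∈ Q) : ¬ MP Q (p : Om) := by
  intro hp
  rw [DI.MP.nat_iff] at hp
  have h1 := (Nat.isCoprime_iff_coprime.2 h)
  obtain ⟨a, b, hab⟩ := h1
  have h2 : ((a : ℤ) : ZZ) * (l : ZZ) + ((b : ℤ) : ZZ) * (p : ZZ) = 1 := by exact_mod_cast hab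
  apply hQ.one_notMem
  rw [← h2]
  exact Q.add_mem (Q.mul_mem_left _ hl) (Q.mul_mem_left _ hp)

end DgAux

theorem tDg (h1 : S_O2) (h2 : S_hRdm) : S_hDg := by
  intro k t _ f l la r hd
  obtain ⟨r1, r2, r3, r4, r5, r6, r7, r8, r9⟩ := h2 k t f l la r hd
  obtain ⟨-, -, n3, n4, -⟩ := h1 k t
  have hl : l.Prime := hd.hl
  have hl3 : l % 3 = 1 := hd.hl3
  have hfact : Fact l.Prime := ⟨hl⟩
  have hla0 : la ≠ 0 := by
    intro h
    have h0 := (n3 la).2 h
    rw [hd.hla] at h0
    exact hl.ne_zero (by exact_mod_cast h0)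
  have hmem : ∀ x : OO k t, x ∈ sp la ↔ rd r x = 0 := fun x => by
    rw [hd.hker x]
    exact Ideal.mem_span_singleton
  have hl2 : l ≠ 2 := by
    rintro rfl
    omega
  have hl3' : l ≠ 3 := by
    rintro rfl
    omega
  refine ⟨⟨?_, ?_, hl, ?_⟩, ?_, ?_, hl2, hl3', ?_, ?_, ?_⟩
  · rw [Ideal.isPrime_iff]
    refine ⟨?_, ?_⟩
    · intro h
      have h3 : (1 : OO k t) ∈ sp la := by rw [h]; exact Submodule.mem_top
      rw [hmem, r6] at h3
      exact one_ne_zero h3
    · intro x y hxy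
      rw [hmem, r1] at hxy
      rw [hmem, hmem]
      exact mul_eq_zero.1 hxy
  · intro h
    exact hla0 (Ideal.span_singleton_eq_bot.1 h)
  · have h3 := n4 la
    rw [hd.hla] at h3
    exact_mod_cast h3
  · intro Q hQ
    have hP : Q.IsPrime := hQ.1
    constructor
    · intro h v hv
      obtain ⟨u, rfl⟩ := Ideal.mem_span_singleton.1 hv
      rw [toO_mul]
      exact DI.MP.mul_right h (toO_VP u)
    · intro h
      exact h la (Ideal.mem_span_singleton_self la)
  · intro n hn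
    exact hn.trans (Ideal.span_singleton_le_span_singleton.2 r9)
  · intro h
    have h3 := DgAux.three_dvd h
    rw [hd.hla] at h3
    have h4 : 3 ∣ l := by exact_mod_cast h3
    omega
  · intro h
    rw [hd.hla] at h
    have h4 : 2 ∣ l := by exact_mod_cast h
    exact hl2 ((Nat.prime_dvd_prime_iff_eq Nat.prime_two hl).1 h4).symm
  · intro Q hQ hla
    have hP : Q.IsPrime := hQ.1
    have h3 : MP Q ((l : ℕ) : Om) := by
      rw [← toO_nat (k := k) (t := t), ← r8, toO_mul]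
      exact DI.MP.mul_right hla (toO_VP _)
    have h4 : (l : ZZ) ∈ Q := (DI.MP.nat_iff l).1 h3
    refine ⟨h4, ?_, ?_⟩
    · have h5 : Nat.Coprime l 3 := (Nat.coprime_primes hl Nat.prime_three).2 hl3'
      have h6 := DgAux.not_both h5 h4
      exact_mod_cast h6
    · have h5 : Nat.Coprime l 2 := (Nat.coprime_primes hl Nat.prime_two).2 hl2
      have h6 := DgAux.not_both h5 h4
      exact_mod_cast h6

end Pool.Agent.DT.H3
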