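import Pool.Agent.Lib.DT.H3.Spec

set_option autoImplicit false

/-!
# Theorem DT, part H3: Galois action on `ε_i` (`S_hEps`)
-/

open scoped Pointwise nonZeroDivisors

noncomputable section

namespace Pool.Agent.DT.H3

open Pool.Agent.MuZ Pool.Agent.FW NumberField IsDedekindDomain
open Pool.Agent.DI (io ofC io_inj exists_io io_ofC ofC_io VP MP UP TP ex)
open Pool.Agent.DT

namespace EpsAux

private theorem toC_mem {k t : ℕ} [SqT k t] (b : Ideal (OO k t)) (v : OO k t) : toC v ∈ Lam b :=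
  lam_anti le_top (lam_top.2 ⟨v, rfl⟩)

private theorem sN_ne {k t : ℕ} {n : ℕ} (hn : n ≠ 0) : sN k t n ≠ ⊥ := by
  intro h11
  have h12 : (n : OO k t) = 0 := Ideal.span_singleton_eq_bot.1 h11
  have h13 := congrArg Nm h12
  rw [Nm_nat, Nm_zero] at h13
  have h14 : (n : ℤ) = 0 := by simpa using h13
  exact hn (by exact_mod_cast h14)

private theorem mul_ne {k t : ℕ} [SqT k t] {a b : Ideal (OO k t)} (ha : a ≠ ⊥) (hb : b ≠ ⊥) :
    a * b ≠ ⊥ := by
  rw [← Ideal.zero_eq_bot] at ha hb ⊢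
  exact mul_ne_zero ha hb

private theorem ppb_ne {k t : ℕ} [SqT k t] : ppb k t ≠ ⊥ := by
  intro h
  have h13 : (3 : OO k t) ∈ ppb k t := Ideal.subset_span (Or.inl rfl)
  rw [h] at h13
  have h14 : (3 : OO k t) = 0 := h13
  have h15 := congrArg toC h14
  rw [toC_three, toC_zero] at h15
  norm_num at h15

end EpsAux

open EpsAux in
theorem tEps (h1 : S_O6) (h2 : S_E10) (h3 : S_D8) (h4 : S_hCb) (h5 : S_hRdm) (h6 : S_hHN)
    (h7 : S_hTP) (h8 : S_hDg) (h9 : S_hLat) (h10 : S_hZp) : S_hEps := by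
  intro k t _ f N m T b l la r hD τ a hGK ha haN i
  have hlp := hD.hl
  have : Fact l.Prime := ⟨hlp⟩
  have : NeZero l := ⟨hlp.ne_zero⟩
  have hf := hD.hf
  have hN := hD.hN
  have hm0 : m ≠ ⊥ := hD.hm.ne
  have hb0 : b ≠ ⊥ := hD.hb0
  obtain ⟨-, -, -, o4, -, o6, -⟩ := h1 k t
  obtain ⟨-, -, -, -, -, -, r7, -, -⟩ := h5 k t f l la r hD.toDatL
  obtain ⟨-, -, -, n4, -⟩ := h6 k t f N hf hN
  obtain ⟨-, -, g3, -⟩ := h8 k t f l la r hD.toDatL
  obtain ⟨q1, -, -, -, -, q6, -⟩ := h9 k t f l la r hD.toDatL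
  obtain ⟨-, -, z3, -, z5⟩ := h10 k t f N hf
  have hm6 : PrI m (sN k t 6) := by
    refine o4 m _ _ ?_ hD.hm.prm
    obtain ⟨g, hg⟩ := hf.four
    unfold sN
    rw [Ideal.span_singleton_le_span_singleton]
    exact ⟨((2 * g : ℕ) : OO k t), by rw [hg]; push_cast; ring⟩
  obtain ⟨-, d2, d3, -⟩ := h3 k t m b hm0 hb0 hm6
  have hper : ∀ (z : ℂ) (v : OO k t), Theta m b (z + toC v) = Theta m b z :=
    fun z v => (d2 z).2 _ (toC_mem b v)
  have ha0 : a ≠ 0 := (n4 a haN).1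
  set n : Ideal (OO k t) := cnN k t f N * sN k t l * m with hn
  have hFN : f * 3 ^ N ≠ 0 := Nat.mul_ne_zero hf.pos.ne' (pow_ne_zero _ (by norm_num))
  have hcn0 : cnN k t f N ≠ ⊥ := by
    unfold cnN
    exact mul_ne (sN_ne hFN) ppb_ne
  have hn0 : n ≠ ⊥ := mul_ne (mul_ne hcn0 (sN_ne hlp.ne_zero)) hm0
  have hnm : n ≤ m := Ideal.mul_le_right
  have hnl : n ≤ sN k t l := le_trans Ideal.mul_le_left Ideal.mul_le_right
  have hxa : rd r a ≠ 0 := r7 a ((o6 l a).1 (o4 _ _ _ hnl ha.cop))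
  obtain ⟨-, -, e10⟩ := h2 k t τ n (sp a) hn0 hGK ha
  have hact : ∀ z ∈ Lam (n * b), τ (Theta m b z) = Theta m b (toC a * z) := by
    intro z hz
    rw [e10 m b hm0 hb0 hm6 hnm z hz, d3 a z ha0]
  have hzN : ∀ v : OO k t, toC v * zN k t f N ∈ Lam (n * b) := by
    intro v
    rw [hn, mul_assoc, mul_assoc]
    exact lam_mul v (z5 _)
  have hpL : ∀ j : ℕ, pL la j ∈ Lam (n * b) := fun j =>
    lam_anti (Ideal.mul_mono_left (g3 _ hnl)) (q6 b j)
  obtain ⟨-, -, -, -, -, -, -, -, -, c10⟩ := h4 l hlp hD.hl3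
  have hTP := h7 k t f N T a
    (fun x => ∏ j ∈ Jc l (i + lg l (rd r a)), Theta m b (toC x * zN k t f N + pL la j)) hf hN hD.hT
    haN (by
      intro x y hxy
      refine Finset.prod_congr rfl fun j _ => ?_
      obtain ⟨u, hu⟩ := z3 _ hxy
      have e1 : toC x * zN k t f N + pL la j = toC y * zN k t f N + pL la j + toC u := by
        rw [← hu, toC_sub]
        ring
      rw [e1, hper])
  unfold epq
  rw [← hTP, map_prod]
  refine Finset.prod_congr rfl fun h _ => ?_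
  rw [map_prod, ← c10 (rd r a) (fun j => Theta m b (toC (a * h) * zN k t f N + pL la j)) i hxa]
  refine Finset.prod_congr rfl fun j _ => ?_
  obtain ⟨x, hx⟩ := q1 a j ((rd r a * (j : ZMod l)).val) (ZMod.natCast_zmod_val _)
  rw [hact _ (lam_add (hzN _) (hpL j)), mul_add, hx, ← mul_assoc, ← toC_mul, ← add_assoc, hper]

end Pool.Agent.DT.H3
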