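import Pool.Agent.Lib.DT.H3.Spec

set_option autoImplicit false

/-!
# Theorem DT, part H3: good points for `Theta`
-/

open scoped Pointwise nonZeroDivisors

noncomputable section

namespace Pool.Agent.DT.H3

open Pool.Agent.MuZ Pool.Agent.FW NumberField IsDedekindDomain
open Pool.Agent.DI (io ofC io_inj exists_io io_ofC ofC_io VP MP UP TP ex)
open Pool.Agent.DT

namespace GdAux

private theorem odd_mul {a b : ℤ} (ha : ¬ (2 : ℤ) ∣ a) (hb : ¬ (2 : ℤ) ∣ b) : ¬ (2 : ℤ) ∣ a * b :=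
  fun h => (Int.prime_two.dvd_or_dvd h).elim ha hb

private theorem odd_one {k t : ℕ} {v : OO k t} (h : ((2 : ℕ) : OO k t) ∣ v - 1) :
    ¬ (2 : ℤ) ∣ Nm v := by
  intro h2
  have h3 := Nm_congr h
  rw [Nm_one] at h3
  have h4 := dvd_sub h2 h3
  rw [sub_sub_cancel] at h4
  norm_num at h4

private theorem toC_mem {k t : ℕ} [SqT k t] (b : Ideal (OO k t)) (v : OO k t) : toC v ∈ Lam b :=
  lam_anti le_top (lam_top.2 ⟨v, rfl⟩)

/-- if `y / p` is in the lattice, then `e y` is a multiple of `p` -/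
private theorem lat_dvd {k t : ℕ} [SqT k t] {b : Ideal (OO k t)} {p : ℕ} (hp : p ≠ 0) {y e : OO k t}
    (heb : e ∈ b) (h : toC y / (p : ℂ) ∈ Lam b) : ∃ c : OO k t, e * y = (p : OO k t) * c := by
  obtain ⟨c, hc⟩ := h e heb
  have h20 : (p : ℂ) ≠ 0 := by exact_mod_cast hp
  refine ⟨c, ?_⟩
  apply toC_inj
  rw [toC_mul, toC_mul, toC_nat, ← hc]
  field_simp

end GdAux

open GdAux in
theorem tGd (h1 : S_O4) (h2 : S_O6) (h3 : S_hZp) : S_hGd := by
  intro k t _ f N m b x la j hf hm hmP hb hbP hx hx3 hla hla3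
  obtain ⟨i1, -, -, -, i5, -⟩ := h1 k t
  obtain ⟨-, -, -, -, -, -, -, hel⟩ := h2 k t
  obtain ⟨z1, ⟨-, z3, z4⟩, -, z6, -⟩ := h3 k t f N hf
  obtain ⟨μ, hμm, hμ0, hμ1⟩ := hel m _ hm hmP
  obtain ⟨e, heb, he0, he1⟩ := hel b _ hb hbP
  have h6 : ∀ v : OO k t, v - 1 ∈ sN k t 6 → ¬ (2 : ℤ) ∣ Nm v ∧ v ∉ ppb k t := by
    intro v hv
    have hv' : ((6 : ℕ) : OO k t) ∣ v - 1 := Ideal.mem_span_singleton.1 hv
    constructor
    · refine odd_one (Dvd.dvd.trans ⟨((3 : ℕ) : OO k t), ?_⟩ hv')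
      rw [← Nat.cast_mul]
    · intro hv3
      apply i5.ne_top
      rw [Ideal.eq_top_iff_one]
      have h11 : v - 1 ∈ ppb k t := by
        have h12 : sN k t 3 ≤ ppb k t := by
          rw [← i1]
          exact Ideal.mul_le_right
        apply h12
        refine Ideal.mem_span_singleton.2 (Dvd.dvd.trans ⟨((2 : ℕ) : OO k t), ?_⟩ hv')
        rw [← Nat.cast_mul]
      have h12 := (ppb k t).sub_mem hv3 h11
      rwa [sub_sub_cancel] at h12
  obtain ⟨hμ, hμ3⟩ := h6 μ hμ1
  obtain ⟨he, he3⟩ := h6 e he1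
  have hfn : 0 < f := hf.pos
  have hla0 : la ≠ 0 := by
    rintro rfl
    apply hla
    rw [Nm_zero]
    exact dvd_zero _
  have hlaC : toC la ≠ 0 := toC_ne hla0
  set c : OO k t := c0 k t f with hc
  have hodd : ¬ (2 : ℤ) ∣ Nm (e * (la * μ * x * c)) := by
    rw [Nm_mul, Nm_mul, Nm_mul, Nm_mul]
    exact odd_mul he (odd_mul (odd_mul (odd_mul hla hμ) hx) z4)
  have h3n : e * (la * μ * x * c) ∉ ppb k t := by
    intro h
    rcases i5.mem_or_mem h with h | h
    · exact he3 h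
    rcases i5.mem_or_mem h with h | h
    · rcases i5.mem_or_mem h with h | h
      · rcases i5.mem_or_mem h with h | h
        · exact hla3 h
        · exact hμ3 h
      · exact hx3 h
    · exact z3 h
  -- the two keys
  have hkeyA : ∀ s : ℕ, 1 ≤ s → toC (la * μ * x * c) / ((2 ^ s : ℕ) : ℂ) ∉ Lam b := by
    intro s hs h
    obtain ⟨y, hy⟩ := lat_dvd (by positivity) heb h
    apply hodd
    rw [hy, Nm_mul, Nm_nat]
    refine Dvd.dvd.mul_right ?_ _
    obtain ⟨s, rfl⟩ : ∃ s', s = s' + 1 := ⟨s - 1, by omega⟩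
    push_cast
    exact ⟨2 ^ s * 2 ^ (s + 1), by ring⟩
  have hkeyB : ∀ s : ℕ, 1 ≤ s → toC (la * μ * x * c) / ((3 ^ s : ℕ) : ℂ) ∉ Lam b := by
    intro s hs h
    obtain ⟨y, hy⟩ := lat_dvd (by positivity) heb h
    apply h3n
    rw [hy]
    refine (ppb k t).mul_mem_right _ ?_
    have h12 : sN k t 3 ≤ ppb k t := by
      rw [← i1]
      exact Ideal.mul_le_right
    apply h12
    obtain ⟨s, rfl⟩ : ∃ s', s = s' + 1 := ⟨s - 1, by omega⟩
    refine Ideal.mem_span_singleton.2 ⟨((3 ^ s : ℕ) : OO k t), ?_⟩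
    rw [← Nat.cast_mul]
    congr 1
    ring
  have hTp : ∀ i : ℕ, Tor k t (pL la i) := by
    intro i
    have hNm := Nm_pos hla0
    obtain ⟨n, hn⟩ : ∃ n : ℕ, (n : ℤ) = Nm la := ⟨(Nm la).toNat, Int.toNat_of_nonneg hNm.le⟩
    refine ⟨(i : OO k t) * cjO la, n, by omega, ?_⟩
    have h5 : ((n : ℕ) : ℂ) = toC la * toC (cjO la) := by
      rw [← toC_Nm, ← hn]
      simp
    have h6 : toC (cjO la) ≠ 0 := by
      intro h
      rw [h, mul_zero] at h5
      have h7 : n = 0 := by exact_mod_cast h5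
      omega
    unfold pL
    rw [h5, toC_mul, toC_nat]
    field_simp
  -- the computation
  have hz : ∀ p q : ℕ, p ≠ 0 → (p : ℂ) * q = 3 ^ (N + 1) * f → ∀ (i : ℕ) (u : ℂ),
      toC μ * u ∈ Lam b → ∃ w w' : ℂ, w ∈ Lam b ∧ w' ∈ Lam b ∧
      toC ((q : OO k t) * la * μ) * (toC x * zN k t f N + pL la i + u) =
        toC (la * μ * x * c) / (p : ℂ) + w ∧
      toC ((p : OO k t) * ((q : OO k t) * la * μ)) * (toC x * zN k t f N + pL la i + u) = w' := by
    intro p q hp0 hpq i u hu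
    have hp1 : (p : ℂ) ≠ 0 := by exact_mod_cast hp0
    have hqz : (q : ℂ) * zN k t f N = toC c / p := by
      rw [← z1, ← hpq]
      field_simp
    have e1 : toC ((q : OO k t) * la * μ) * (toC x * zN k t f N + pL la i + u) =
        toC (la * μ * x * c) / (p : ℂ) + (toC ((q : OO k t) * μ * (i : OO k t)) +
          toC ((q : OO k t) * la) * (toC μ * u)) := by
      have e2 : toC ((q : OO k t) * la * μ) * (toC x * zN k t f N + pL la i + u) =
          toC la * toC μ * toC x * ((q : ℂ) * zN k t f N) + (q * toC μ * (toC la * pL la i) +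
            toC ((q : OO k t) * la) * (toC μ * u)) := by
        simp only [toC_mul, toC_nat]
        ring
      have e3 : toC la * pL la i = i := by
        unfold pL
        field_simp
      rw [e2, e3, hqz]
      simp only [toC_mul, toC_nat]
      ring
    have hw : toC ((q : OO k t) * μ * (i : OO k t)) + toC ((q : OO k t) * la) * (toC μ * u) ∈ Lam b :=
      lam_add (toC_mem b _) (lam_mul _ hu)
    refine ⟨_, _, hw, ?_, e1, rfl⟩
    have e2 : toC ((p : OO k t) * ((q : OO k t) * la * μ)) *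
        (toC x * zN k t f N + pL la i + u) =
        toC (la * μ * x * c) + toC (p : OO k t) * (toC ((q : OO k t) * μ * (i : OO k t)) +
          toC ((q : OO k t) * la) * (toC μ * u)) := by
      rw [toC_mul (p : OO k t), mul_assoc, e1, mul_add]
      congr 1
      rw [toC_nat]
      field_simp
    rw [e2]
    exact lam_add (toC_mem b _) (lam_mul _ hw)
  obtain ⟨s, g, hg, hfs⟩ := Nat.exists_eq_two_pow_mul_odd hfn.ne'
  have hs1 : 1 ≤ s := by
    by_contra h11
    have h12 : s = 0 := by omega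
    rw [h12, pow_zero, one_mul] at hfs
    have h13 := hf.four
    rw [hfs] at h13
    obtain ⟨c', hc'⟩ := hg
    omega
  have hpqA : (((2 ^ s : ℕ) : ℕ) : ℂ) * ((3 ^ (N + 1) * g : ℕ) : ℂ) = 3 ^ (N + 1) * f := by
    rw [hfs]
    push_cast
    ring
  have hpqB : (((3 ^ (N + 1) : ℕ) : ℕ) : ℂ) * (f : ℂ) = 3 ^ (N + 1) * f := by
    push_cast
    ring
  have hgd : ∀ i : ℕ, Gd m b (toC x * zN k t f N + pL la i) := by
    intro i
    refine ⟨tor_add (tor_mul _ z6) (hTp i), ?_⟩
    intro Q hQ u hu hq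
    have : Q.IsPrime := hQ.1
    by_cases hQ2 : MP Q 2
    · have hQ3 : ¬ MP Q 3 := by
        intro h11
        apply DI.MP.one_not (P := Q)
        have h12 := h11.sub hQ2
        have e' : (3 : Om) - 2 = 1 := by norm_num
        rwa [e'] at h12
      obtain ⟨w, w', hw, hw', e1, e2⟩ := hz _ _ (by positivity) hpqB i u (lam_prod.1 hu μ hμm)
      have hα : ¬ MP Q (toO (((3 ^ (N + 1) : ℕ) : ℕ) : OO k t)) := by
        intro h
        rw [toO_nat, Nat.cast_pow] at h
        have h4 := DI.MP.of_pow h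
        exact hQ3 (by exact_mod_cast h4)
      have h5 := hq _ _ hα (by rw [e2]; exact hw')
      rw [e1] at h5
      apply hkeyB (N + 1) (by omega)
      have h6 := lam_sub h5 hw
      rwa [add_sub_cancel_right] at h6
    · obtain ⟨w, w', hw, hw', e1, e2⟩ := hz _ _ (by positivity) hpqA i u (lam_prod.1 hu μ hμm)
      have hα : ¬ MP Q (toO (((2 ^ s : ℕ) : ℕ) : OO k t)) := by
        intro h
        rw [toO_nat, Nat.cast_pow] at h
        have h4 := DI.MP.of_pow h
        exact hQ2 (by exact_mod_cast h4)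
      have h5 := hq _ _ hα (by rw [e2]; exact hw')
      rw [e1] at h5
      apply hkeyA s hs1
      have h6 := lam_sub h5 hw
      rwa [add_sub_cancel_right] at h6
  have hp0 : pL la 0 = 0 := by
    unfold pL
    rw [Nat.cast_zero, zero_div]
  have hnot : ∀ i : ℕ, toC x * zN k t f N + pL la i ∉ Lam (sp la * m * b) := by
    intro i h
    have h4 : toC (la * μ) * (toC x * zN k t f N + pL la i) ∈ Lam b :=
      lam_prod.1 h (la * μ) (Ideal.mul_mem_mul (Ideal.mem_span_singleton_self la) hμm)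
    obtain ⟨w, w', hw, hw', e1, e2⟩ := hz _ _ (by positivity) hpqA i 0
      (by rw [mul_zero]; exact lam_zero b)
    rw [add_zero] at e1
    have h5 := lam_mul (((3 ^ (N + 1) * g : ℕ) : OO k t)) h4
    rw [← mul_assoc, ← toC_mul, ← mul_assoc, e1] at h5
    apply hkeyA s hs1
    have h6 := lam_sub h5 hw
    rwa [add_sub_cancel_right] at h6
  refine ⟨hgd j, ?_, ?_, hnot j⟩
  · have := hgd 0
    rwa [hp0, add_zero] at this
  · have := hnot 0
    rwa [hp0, add_zero] at this

end Pool.Agent.DT.H3
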