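import Pool.Agent.Lib.DT.H3.Spec

/-!
# DT, part H: the group `H_N` (helper65; after the module `DK/H3/HN.lean`)
-/

set_option autoImplicit false

open scoped Pointwise nonZeroDivisors

noncomputable section

namespace Pool.Agent.DT.H3

open Pool.Agent.MuZ Pool.Agent.FW NumberField IsDedekindDomain
open Pool.Agent.DI (io ofC io_inj exists_io io_ofC ofC_io VP MP UP TP ex)
open Pool.Agent.DT

variable {k t : ℕ}

namespace HNAux

private theorem HN_up {f : ℕ} {a : OO k t} {i : ℕ} (h : (f : OO k t) ∣ a ^ 3 ^ i - 1) (j : ℕ) :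
    (f : OO k t) ∣ a ^ 3 ^ (i + j) - 1 := by
  have h1 : a ^ 3 ^ i - 1 ∣ (a ^ 3 ^ i) ^ 3 ^ j - 1 := by
    have := sub_dvd_pow_sub_pow (a ^ 3 ^ i) 1 (3 ^ j)
    rwa [one_pow] at this
  have h2 := h.trans h1
  rwa [← pow_mul, ← pow_add] at h2

private theorem Hf_mul [SqT k t] (h2 : S_O6) {f : ℕ} {a b : OO k t} (ha : Hf f a) (hb : Hf f b) :
    Hf f (a * b) := by
  have hC := (h2 k t).2.2.2.2.2.1 (3 * f)
  obtain ⟨ha1, i, hi⟩ := ha
  obtain ⟨hb1, j, hj⟩ := hb
  refine ⟨(hC _).2 (cop_mul ((hC _).1 ha1) ((hC _).1 hb1)), i + j, ?_⟩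
  have h1 := HN_up hi j
  have h2 := HN_up hj i
  rw [add_comm j i] at h2
  have e : (a * b) ^ 3 ^ (i + j) - 1 =
      (a ^ 3 ^ (i + j) - 1) * b ^ 3 ^ (i + j) + (b ^ 3 ^ (i + j) - 1) := by
    rw [mul_pow]
    ring
  rw [e]
  exact dvd_add (Dvd.dvd.mul_right h1 _) h2

private theorem HN_mul [SqT k t] (h2 : S_O6) {f N : ℕ} {a b : OO k t} (ha : HN f N a)
    (hb : HN f N b) : HN f N (a * b) := by
  refine ⟨Hf_mul h2 ha.1 hb.1, ?_⟩
  rw [Nm_mul]
  obtain ⟨c, hc⟩ := ha.2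
  obtain ⟨d, hd⟩ := hb.2
  exact ⟨c * Nm b + d, by linear_combination Nm b * hc + hd⟩

private theorem HN_one [SqT k t] (h2 : S_O6) {f N : ℕ} : HN f N (1 : OO k t) := by
  have hC := (h2 k t).2.2.2.2.2.1 (3 * f)
  exact ⟨⟨(hC _).2 (cop_one _), 0, by simp⟩, by rw [Nm_one]; simp⟩

private theorem HN_pow [SqT k t] (h2 : S_O6) {f N : ℕ} {a : OO k t} (ha : HN f N a) (n : ℕ) :
    HN f N (a ^ n) := by
  induction n with
  | zero => rw [pow_zero]; exact HN_one h2
  | succ n ih => rw [pow_succ]; exact HN_mul h2 ih ha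

private theorem dvd3 {f N : ℕ} (h : 1 ≤ N) : 3 * f ∣ f * 3 ^ N := by
  obtain ⟨n, rfl⟩ := Nat.exists_eq_add_of_le h
  exact ⟨3 ^ n, by rw [pow_add]; ring⟩

private theorem HN_per [SqT k t] (h2 : S_O6) {f N : ℕ} (hN : 1 ≤ N) {a b : OO k t}
    (ha : HN f N a) (h : ((f * 3 ^ N : ℕ) : OO k t) ∣ a - b) : HN f N b := by
  have hC := (h2 k t).2.2.2.2.2.1 (3 * f)
  obtain ⟨⟨ha1, i, hi⟩, ha2⟩ := ha
  have hf : ((3 * f : ℕ) : OO k t) ∣ a - b := by
    refine dvd_trans ?_ h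
    obtain ⟨c, hc⟩ := dvd3 (f := f) hN
    exact ⟨(c : OO k t), by rw [hc]; push_cast; ring⟩
  refine ⟨⟨(hC _).2 (cop_congr hf ((hC _).1 ha1)), i, ?_⟩, ?_⟩
  · have h1 := hf.trans (sub_dvd_pow_sub_pow a b (3 ^ i))
    have e : b ^ 3 ^ i - 1 = (a ^ 3 ^ i - 1) - (a ^ 3 ^ i - b ^ 3 ^ i) := by ring
    rw [e]
    exact dvd_sub hi h1
  · have h1 := Nm_congr h
    have h3 : (3 : ℤ) ^ N ∣ Nm a - Nm b := by
      refine dvd_trans ?_ h1
      push_cast
      exact Dvd.intro_left _ rfl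
    have e : Nm b - 1 = (Nm a - 1) - (Nm a - Nm b) := by ring
    rw [e]
    exact dvd_sub ha2 h3

/-- An element prime to `M` has finite order modulo `M`. -/
private theorem exists_order {M : ℕ} (hM : 0 < M) {a : OO k t} (ha : Cop a M) :
    ∃ e : ℕ, (M : OO k t) ∣ a ^ (e + 1) - 1 := by
  have : NeZero M := ⟨hM.ne'⟩
  obtain ⟨b, -, hb⟩ := cop_inv ha
  let F : ℕ → ZMod M × ZMod M := fun n => (((a ^ n).re : ZMod M), ((a ^ n).im : ZMod M))
  obtain ⟨m, n, hmn, hF⟩ := Finite.exists_ne_map_eq_of_infinite F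
  have key : ∀ m n : ℕ, m < n → F m = F n → ∃ e : ℕ, (M : OO k t) ∣ a ^ (e + 1) - 1 := by
    intro m n hmn hF
    obtain ⟨e, rfl⟩ := Nat.exists_eq_add_of_lt hmn
    refine ⟨e, ?_⟩
    have h1 : (M : OO k t) ∣ a ^ (m + e + 1) - a ^ m := by
      rw [nat_dvd_iff, QuadraticAlgebra.re_sub, QuadraticAlgebra.im_sub]
      have h3 := congrArg Prod.fst hF
      have h4 := congrArg Prod.snd hF
      simp only [F] at h3 h4
      refine ⟨?_, ?_⟩
      · rw [← ZMod.intCast_zmod_eq_zero_iff_dvd]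
        push_cast
        rw [h3, sub_self]
      · rw [← ZMod.intCast_zmod_eq_zero_iff_dvd]
        push_cast
        rw [h4, sub_self]
    have h5 : (M : OO k t) ∣ (a * b) ^ m - 1 := by
      have := hb.trans (sub_dvd_pow_sub_pow (a * b) 1 m)
      rwa [one_pow] at this
    have e1 : a ^ (e + 1) - 1 = b ^ m * (a ^ (m + e + 1) - a ^ m) -
        ((a * b) ^ m - 1) * (a ^ (e + 1) - 1) := by
      rw [mul_pow, add_assoc, pow_add a m]
      ring
    rw [e1]
    exact dvd_sub (h1.mul_left _) (h5.mul_right _)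
  rcases lt_or_gt_of_ne hmn with h | h
  · exact key m n h hF
  · exact key n m h hF.symm

end HNAux

open HNAux

/-- The group `H_N`. -/
theorem tHN (h1 : S_O4) (h2 : S_O6) : S_hHN := by
  intro k t _ f N hf hN
  obtain ⟨hm, hmr, -, hle, -, hC, -, -⟩ := h2 k t
  obtain ⟨-, -, -, -, hpr, -, -, -, -, -, -, -⟩ := h1 k t
  have h3mem : (3 : OO k t) ∈ ppb k t := Ideal.subset_span (by simp)
  have hcop : ∀ a : OO k t, HN f N a → Cop a (3 * f) := fun a ha => (hC _ _).1 ha.1.1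
  have hcopM : ∀ a : OO k t, HN f N a → ∀ M : ℕ, M = f * 3 ^ N ∨ M = f * 3 ^ N * 3 →
      Cop a M := by
    intro a ha M hM
    have h3 := hcop a ha
    unfold Cop at h3 ⊢
    push_cast at h3
    have h4 := h3.of_mul_right_left
    have h5 := h3.of_mul_right_right
    rcases hM with rfl | rfl <;> push_cast
    · exact h5.mul_right (h4.pow_right)
    · exact (h5.mul_right (h4.pow_right)).mul_right h4
  refine ⟨HN_one h2, fun a b ha hb => HN_mul h2 ha hb, fun a b ha h => HN_per h2 hN ha h, ?_, ?_⟩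
  · intro a ha
    have h3 := hcop a ha
    have hp : PrI (sp a) (ppb k t) := by
      refine hle _ (sN k t 3) _ ?_ ((hC _ _).2 (cop_dvd h3 (Dvd.intro _ rfl)))
      rw [Ideal.span_singleton_le_iff_mem]
      exact_mod_cast h3mem
    refine ⟨?_, h3, ?_, ?_⟩
    · rintro rfl
      unfold Cop at h3
      rw [Nm_zero, isCoprime_zero_left] at h3
      have h4 := Int.isUnit_iff.1 h3
      omega
    · unfold cnN
      exact (hmr _ _ _).2 ⟨(hC _ _).2 (hcopM a ha _ (Or.inl rfl)), hp⟩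
    · intro h4
      have h5 : sp a ≤ ppb k t := by
        rwa [Ideal.span_singleton_le_iff_mem]
      unfold PrI at hp
      rw [sup_eq_right.2 h5] at hp
      exact hpr.ne_top hp
  · intro a ha
    have hpos : 0 < f * 3 ^ N * 3 := by
      have := hf.pos
      positivity
    obtain ⟨e, he⟩ := exists_order hpos (hcopM a ha _ (Or.inr rfl))
    refine ⟨a ^ e, HN_pow h2 ha e, ?_⟩
    obtain ⟨c, hc⟩ := he
    rw [← pow_succ', hc]
    refine Ideal.mul_mem_right _ _ ?_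
    unfold cnN
    push_cast
    refine Ideal.mul_mem_mul ?_ h3mem
    exact Ideal.mem_span_singleton.2 (by push_cast; exact dvd_rfl)

end Pool.Agent.DT.H3
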