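import Pool.Agent.Lib.DT.H3.Spec
import Pool.Agent.Lib.FW.G.Rm
import Pool.Agent.Lib.FW.G.Ine

set_option autoImplicit false

/-!
# Theorem DT, part H3: `F(λ^(1/3))/F` is ramified over `λ`
-/

open scoped Pointwise nonZeroDivisors

noncomputable section

namespace Pool.Agent.DT.H3

open Pool.Agent.MuZ Pool.Agent.FW NumberField IsDedekindDomain
open Pool.Agent.DI (io ofC io_inj exists_io io_ofC ofC_io VP MP UP TP ex)
open Pool.Agent.DT

theorem tInr (h1 : S_GM) (h2 : S_hZt) (h3 : S_hDg) (h4 : S_hFix) : S_hInr := by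
  intro k t _ f N l la r hN hD _ hv P hP hPla β hβ
  by_contra hcon
  have hfix : ∀ ι ∈ P.inertia Gal(Om/ℚ), ι ∈ (Mn k t f N).fixingSubgroup → ι β = β := by
    intro ι hι hF
    by_contra hne
    exact hcon ⟨ι, hι, hF, hne⟩
  have hPp : P.IsPrime := hP.1
  obtain ⟨-, -, -, -, -, -, -, h8⟩ := h3 k t f l la r hD
  obtain ⟨hlP, h3P, -⟩ := h8 P hP hPla
  -- the embedding of `O`
  have hKF : KQ k t ≤ Mn k t f N := by
    obtain ⟨-, -, -, hK, hM, -⟩ := h1 k t f hD.hf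
    exact hK.trans (hM N hN).2.1
  have hmem : ∀ x : OO k t, toO x ∈ Mn k t f N := by
    intro x
    refine hKF ?_
    change ((x.re : Om) + x.im * wO k t) ∈ KQ k t
    exact add_mem (intCast_mem _ _) (mul_mem (intCast_mem _ _)
      (IntermediateField.mem_adjoin_simple_self ℚ (wO k t)))
  have hl0 : (l : Om) ≠ 0 := Nat.cast_ne_zero.2 hD.hl.ne_zero
  have hprod : toO la * toO (cjO la) = (l : Om) := by
    rw [← toO_mul, mul_cjO, toO_int, hD.hla]
    simp
  have ha0 : toO la ≠ 0 := fun h => hl0 (by rw [← hprod, h, zero_mul])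
  have hc0 : toO (cjO la) ≠ 0 := fun h => hl0 (by rw [← hprod, h, mul_zero])
  have hβ0 : β ≠ 0 := by
    intro h
    rw [h, zero_pow (by norm_num)] at hβ
    exact ha0 hβ.symm
  let b : Mn k t f N := ⟨toO la, hmem la⟩
  let c : Mn k t f N := ⟨toO (cjO la), hmem (cjO la)⟩
  have hb : b ≠ 0 := fun h => ha0 (congrArg Subtype.val h)
  have hc : c ≠ 0 := fun h => hc0 (congrArg Subtype.val h)
  have hbc : b * c = (l : Mn k t f N) := Subtype.ext hprod
  -- the prime of `F` below `P`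
  have hlv : (l : 𝓞 (Mn k t f N)) ∈ P.comap (iO (Mn k t f N)) := by
    rw [Ideal.mem_comap, map_natCast]
    exact hlP
  let v : HeightOneSpectrum (𝓞 (Mn k t f N)) := ⟨P.comap (iO (Mn k t f N)),
    Ideal.comap_isPrime _ _, fun h => by
      rw [h, Ideal.mem_bot, Nat.cast_eq_zero] at hlv
      exact hD.hl.ne_zero hlv⟩
  have hAb : Ab (Mn k t f N) P v := ⟨hPp, hP.2, rfl⟩
  have e1 := hv v hlv
  rw [← hbc, DI.vl_mul v b c hb hc] at e1
  have e2 : 0 < vl (Mn k t f N) v b := (DI.mp_vl hAb hb).1 hPla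
  have e3 : 0 ≤ vl (Mn k t f N) v c := (DI.vp_vl hAb hc).1 (toO_VP (cjO la))
  have h3' : ((3 : ℕ) : ZZ) ∉ P := by
    intro h
    apply h3P
    have h5 := (DI.MP.nat_iff (P := P) 3).2 h
    rw [Nat.cast_ofNat] at h5
    exact h5
  have e4 : ((3 : ℕ) : ℤ) ∣ vl (Mn k t f N) v b := tRm tIne 3 (Mn k t f N) (zet 3) β h2.1
    (h4 k t f N hD.hf hN).2.1 hβ0 b hβ.symm P hPp h3' hfix v rfl
  obtain ⟨d, hd⟩ := e4
  push_cast at hd
  omega

end Pool.Agent.DT.H3
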