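import Pool.Agent.Lib.DT.H3.Spec
import Pool.Agent.Lib.DI.T.AsmH

set_option autoImplicit false

/-!
# Theorem DT, part H, module `KK`: the element `k`
-/

open scoped Pointwise nonZeroDivisors

noncomputable section

namespace Pool.Agent.DT.H3

open Pool.Agent.MuZ Pool.Agent.FW NumberField IsDedekindDomain
open Pool.Agent.DI (io ofC io_inj exists_io io_ofC ofC_io VP MP UP TP ex)
open Pool.Agent.DT

theorem tKK (h1 : S_G3) (h2 : S_hZt) (h3 : S_hFix) (h4 : S_pKap) (h5 : S_pLeg) (h6 : S_hRes) :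
    S_hKK := by
  intro k t _ f N m T b hF hN hT hb0 hb _ Sg hSgK hSgex
  obtain ⟨B, hB, hR⟩ := h6 k t f N m T b hF hN hT hb0 hb
  have hf : Fok f := hF.toFok
  obtain ⟨-, hzF, -, -, hstab, -, -⟩ := h3 k t f N hf hN
  have hz : IsPrimitiveRoot (zet 3) 3 := h2.1
  obtain ⟨huF, hu0, huU, -⟩ := h1 k t f m N T hF hN hT b hb0 hb
  refine ⟨3 * B, by omega, ?_⟩
  intro Q φ hQp hQ0 hMQ hprime hl3 hφ
  have hQ : Npr Q := ⟨hQp, hQ0⟩
  obtain ⟨l, hl⟩ : ∃ l, l = Nat.card (𝓞 (Mn k t f N) ⧸ Q.comap (iO (Mn k t f N))) := ⟨_, rfl⟩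
  have hlQ : (l : ZZ) ∈ Q := by
    have e1 : ((Nat.card (𝓞 (Mn k t f N) ⧸ Q.comap (iO (Mn k t f N))) : ℕ) : 𝓞 (Mn k t f N)) ∈
        Q.comap (iO (Mn k t f N)) := by
      rw [← Ideal.Quotient.eq_zero_iff_mem, map_natCast, ← nsmul_one]
      exact card_nsmul_eq_zero'
    rw [Ideal.mem_comap, map_natCast, ← hl] at e1
    exact e1
  rw [← hl] at hprime hl3
  have hco : l.Coprime B := by
    rw [hprime.coprime_iff_not_dvd]
    rintro ⟨j, hj⟩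
    apply hMQ
    rw [hj]
    push_cast
    rw [mul_left_comm]
    exact Q.mul_mem_right _ hlQ
  have h3Q : ((3 : ℕ) : ZZ) ∉ Q := by
    intro h
    apply hMQ
    push_cast
    push_cast at h
    exact Q.mul_mem_right _ h
  have hφf : ∀ x : ZZ, φ • x - x ^ l ∈ Q := by
    intro x
    rw [hl]
    exact hφ.2 x
  have hφF := hφ.1
  have hfixF : ∀ x ∈ Mn k t f N, φ x = x := (IntermediateField.mem_fixingSubgroup_iff _ _).1 hφF
  have mp3 : ∀ {P : Ideal ZZ}, P.IsPrime → (MP P 3 ↔ ((3 : ℕ) : ZZ) ∈ P) := by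
    intro P hP
    have := DI.MP.nat_iff (P := P) 3
    exact_mod_cast this
  obtain ⟨h, hVV, w, hne, hw0, hw1, hwU, hcj, hunr, hram, hcng⟩ :=
    hR l hprime hl3 hco Q hQ hlQ φ hφF hφf
  obtain ⟨x, hx0, hxev, hxod⟩ := h4 3 (Mn k t f N) (zet 3) hz hzF h hVV hne w hw0 hw1
    (fun P hP hP0 _ => hwU P ⟨hP, hP0⟩) (↑Sg) Q
    (fun σ => kp 3 (zet 3) (σ⁻¹ (uN f N m T b)) φ) hQp hQ0 h3Q
    (fun σ hσ => hstab σ (hSgK σ hσ)) (fun σ hσ τ hτ => hcj σ (hSgK σ hσ) τ hτ) hram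
    (by
      intro σ hσ
      have hσK : σ ∈ GK k t := hSgK σ hσ
      have hP : Npr (σ • Q) := DI.npr_smul hQ σ
      have := hP.1
      have e1 := hcng σ hσK
      have e2 := h5 3 (zet 3) hz l hprime hl3 Q hQp hQ0 σ φ (uN f N m T b) hu0 hφf
        (hfixF _ (hstab σ⁻¹ ((GK k t).inv_mem hσK) _ huF)) (hfixF _ hzF) (huU _ hP)
      have e3 := e1.add e2
      rwa [sub_add_sub_cancel] at e3)
  refine ⟨x, ?_, ?_, ?_⟩
  · exact hx0
  · intro v Q' hQ' h3' hdis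
    refine hxev v Q' hQ' h3' (hunr Q' ⟨hQ'.1, hQ'.2.1⟩ (fun h3 => h3' ((mp3 hQ'.1).1 h3)) ?_)
    intro s hs hsQ
    obtain ⟨σ, hσ, hρ⟩ := hSgex s hs
    refine hdis σ hσ ⟨hQp.smul σ, (DI.npr_smul hQ σ).2, ?_⟩
    rw [hQ'.2.2, hsQ]
    ext y
    rw [Ideal.mem_comap, Ideal.mem_comap, Ideal.mem_pointwise_smul_iff_inv_smul_mem,
      Ideal.mem_pointwise_smul_iff_inv_smul_mem]
    have h5 : s⁻¹ • iO (Mn k t f N) y = σ⁻¹ • iO (Mn k t f N) y := by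
      apply Subtype.ext
      change s⁻¹ ((y : Mn k t f N) : Om) = σ⁻¹ ((y : Mn k t f N) : Om)
      have h6 : σ⁻¹ ((y : Mn k t f N) : Om) ∈ Mn k t f N :=
        hstab σ⁻¹ ((GK k t).inv_mem (hSgK σ hσ)) _ (y : Mn k t f N).2
      have h7 : (σ⁻¹ * s) (σ⁻¹ ((y : Mn k t f N) : Om)) = σ⁻¹ ((y : Mn k t f N) : Om) := hρ ⟨_, h6⟩
      have h8 : s⁻¹ = (σ⁻¹ * s)⁻¹ * σ⁻¹ := by group
      rw [h8, AlgEquiv.mul_apply]
      conv_lhs => rw [← h7]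
      rw [← AlgEquiv.mul_apply, inv_mul_cancel]
      rfl
    rw [h5]
  · intro v σ hσ hv
    exact hxod σ hσ v hv

end Pool.Agent.DT.H3
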