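import Pool.Agent.Lib.DT.H3.Spec

set_option autoImplicit false

/-!
# Theorem DT, part H3: the norm (`S_hNrm`)
-/

open scoped Pointwise nonZeroDivisors

noncomputable section

namespace Pool.Agent.DT.H3

open Pool.Agent.MuZ Pool.Agent.FW NumberField IsDedekindDomain
open Pool.Agent.DI (io ofC io_inj exists_io io_ofC ofC_io VP MP UP TP ex)
open Pool.Agent.DT

theorem tNrm (h1 : S_D8) (h2 : S_G3) (h3 : S_hCb) (_h4 : S_hHN) (h5 : S_hTP) (h6 : S_hZp)
    (h7 : S_hUni) : S_hNrm := by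
  intro k t _ f N m T b l la r hD C hC
  have hf := hD.hf
  have hN := hD.hN
  have hm0 : m ≠ ⊥ := hD.hm.ne
  have hb0 : b ≠ ⊥ := hD.hb0
  obtain ⟨-, -, z3, -, -⟩ := h6 k t f N hf
  obtain ⟨⟨u1, -⟩, -, -⟩ := h7 k t f N m T b l la r hD
  obtain ⟨-, d2, -, -⟩ := h1 k t m b hm0 hb0 u1
  have hper : ∀ (z : ℂ) (v : OO k t), Theta m b (z + toC v) = Theta m b z :=
    fun z v => (d2 z).2 _ (lam_anti le_top (lam_top.2 ⟨v, rfl⟩))
  obtain ⟨-, -, -, -, -, -, c7, -⟩ := h3 l hD.hl hD.hl3
  obtain ⟨-, hu0, -⟩ := h2 k t f m N T hD.hm hN hD.hT b hb0 hD.hb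
  have hTP := h5 k t f N T la (fun x => Theta m b (toC x * zN k t f N)) hf hN hD.hT hD.hHN (by
    intro x y hxy
    obtain ⟨u, hu⟩ := z3 _ hxy
    have e1 : toC x * zN k t f N = toC y * zN k t f N + toC u := by
      rw [← hu, toC_sub]
      ring
    change Theta m b (toC x * zN k t f N) = Theta m b (toC y * zN k t f N)
    rw [e1, hper])
  have hp0 : pL la 0 = 0 := by
    unfold pL
    simp
  have e1 : ∏ h ∈ T, ∏ j ∈ Finset.range l, Theta m b (toC h * zN k t f N + pL la j) =
      uN f N m T b * epq f N m T b l la 0 * epq f N m T b l la 1 * epq f N m T b l la 2 := by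
    unfold uN epq
    rw [← Finset.prod_mul_distrib, ← Finset.prod_mul_distrib, ← Finset.prod_mul_distrib]
    refine Finset.prod_congr rfl fun h _ => ?_
    rw [c7 (fun j => Theta m b (toC h * zN k t f N + pL la j)), hp0, add_zero]
  have e2 : ∏ h ∈ T, ∏ j ∈ Finset.range l, Theta m b (toC h * zN k t f N + pL la j) =
      C ^ T.card * uN f N m T b := by
    rw [Finset.prod_congr rfl hC, Finset.prod_mul_distrib, Finset.prod_const]
    congr 1
  rw [e1] at e2
  have e3 : uN f N m T b * (epq f N m T b l la 0 * epq f N m T b l la 1 *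
      epq f N m T b l la 2) = uN f N m T b * C ^ T.card := by
    linear_combination e2
  exact mul_left_cancel₀ hu0 e3

end Pool.Agent.DT.H3
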