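import Pool.Agent.Lib.DT.H3.Spec

/-!
# Theorem DT, part H: the classes in `HPN` are principal ideals
-/

set_option autoImplicit false

open scoped Pointwise nonZeroDivisors

noncomputable section

namespace Pool.Agent.DT.H3

open Pool.Agent.MuZ Pool.Agent.FW NumberField IsDedekindDomain
open Pool.Agent.DI (io ofC io_inj exists_io io_ofC ofC_io VP MP UP TP ex)
open Pool.Agent.DT

variable {k t : ℕ}

theorem tPri (h1 : S_hHN) : S_hPri := by
  intro k t _ f N hf hN c
  obtain ⟨_, _, hper, hcop, _⟩ := h1 k t f N hf hN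
  constructor
  · rintro ⟨v, -, hv, α, α', hα, -, hcα, -, hd, he⟩
    have h2 : α' * v ∈ Ideal.span {α} * c := by
      rw [he]
      exact Ideal.mul_mem_mul (Ideal.mem_span_singleton_self α') (Ideal.mem_span_singleton_self v)
    obtain ⟨γ, -, hγ⟩ := Ideal.mem_span_singleton_mul.1 h2
    have h3 : Ideal.span {α} * c = Ideal.span {α} * Ideal.span {γ} := by
      rw [he, Ideal.span_singleton_mul_span_singleton, Ideal.span_singleton_mul_span_singleton, hγ]
    refine ⟨γ, (Ideal.span_singleton_mul_right_inj hα).1 h3, hper v γ hv ?_⟩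
    have h4 : (1 : OO k t) ∈ sp α ⊔ sN k t (f * 3 ^ N) := by
      rw [hcα]
      exact Submodule.mem_top
    obtain ⟨y, hy, z, hz, hs⟩ := Submodule.mem_sup.1 h4
    obtain ⟨β, rfl⟩ := Ideal.mem_span_singleton'.1 hy
    obtain ⟨s, rfl⟩ := Ideal.mem_span_singleton'.1 hz
    obtain ⟨r, hr⟩ := Ideal.mem_span_singleton'.1 hd
    refine ⟨s * (v - γ) + β * r * v, ?_⟩
    linear_combination -(v - γ) * hs - β * v * hr - β * hγ
  · rintro ⟨γ, rfl, hγ⟩
    have h5 : PrI (sp (1 : OO k t)) (sN k t (f * 3 ^ N)) := by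
      rw [PrI, sp, Ideal.span_singleton_one, top_sup_eq]
    exact ⟨γ, (hcop γ hγ).1, hγ, 1, 1, one_ne_zero, one_ne_zero, h5, h5, by
      rw [sub_self]
      exact Ideal.zero_mem _, rfl⟩

end Pool.Agent.DT.H3
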