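import Pool.Agent.Lib.DT.H3.Spec
import Pool.Agent.Lib.DI.H3.Prm

set_option autoImplicit false

/-!
# Theorem DT, part H3: `h` is ramified over `λ` (`S_hRam`)
-/

open scoped Pointwise nonZeroDivisors

noncomputable section

namespace Pool.Agent.DT.H3

open Pool.Agent.MuZ Pool.Agent.FW NumberField IsDedekindDomain
open Pool.Agent.DI (io ofC io_inj exists_io io_ofC ofC_io VP MP UP TP ex)
open Pool.Agent.DT

namespace RamAux

private theorem xO_congr {k t : ℕ} {b b' : Ideal (OO k t)} {z z' : ℂ} (h : XC b z = XC b' z') :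
    xO b z = xO b' z' := by
  unfold xO
  rw [h]

/-- a cube root of unity which is congruent to one modulo a prime not over `3` -/
private theorem cube_root {P : Ideal ZZ} [hP : P.IsPrime] (hP3 : ¬ MP P 3) {ζ : Om}
    (h3 : ζ ^ 3 = 1) (h : MP P (ζ - 1)) : ζ = 1 := by
  by_contra h1
  have h4 : (ζ - 1) * (ζ ^ 2 + ζ + 1) = 0 := by
    have e : (ζ - 1) * (ζ ^ 2 + ζ + 1) = ζ ^ 3 - 1 := by ring
    rw [e, h3, sub_self]
  have h5 : ζ ^ 2 + ζ + 1 = 0 := by
    rcases mul_eq_zero.1 h4 with h6 | h6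
    · exact absurd (sub_eq_zero.1 h6) h1
    · exact h6
  have hV : VP P ζ := by
    refine DI.VP.integral ?_
    refine ⟨Polynomial.X ^ 3 - 1, ?_, ?_⟩
    · monicity!
    · simp [h3]
  have e : (3 : Om) = -((ζ + 2) * (ζ - 1)) := by
    linear_combination h5
  apply hP3
  rw [e]
  have hV2 : VP P (2 : Om) := by
    have := DI.VP.nat (P := P) 2
    simpa using this
  exact (DI.MP.mul_left (hV.add hV2) h).neg

end RamAux

open RamAux in
theorem tRam (h1 : S_B1) (h2 : S_B7) (h3 : S_D4) (h4 : S_O6) (h5 : S_hCb) (h6 : S_hRdm)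
    (h7 : S_hDg) (h8 : S_hLat) (h9 : S_hFix) : S_hRam := by
  intro k t _ f N l la r hN hD h hh P hP hPla β hβ3 ι hι hιL hne h0
  have : P.IsPrime := hP.1
  have hlp := hD.hl
  have : Fact l.Prime := ⟨hlp⟩
  have : NeZero l := ⟨hlp.ne_zero⟩
  have hl3 := hD.hl3
  have hf0 : 0 < f := hD.hf.pos
  have hFN : f * 3 ^ N ≠ 0 := Nat.mul_ne_zero hf0.ne' (pow_ne_zero _ (by norm_num))
  obtain ⟨r1, r2, r3, r4, r5, r6, r7, -, -⟩ := h6 k t f l la r hD
  obtain ⟨q1, q2, -, -, -, qm, q6⟩ := h8 k t f l la r hD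
  obtain ⟨g1, -, g3, gl2, gl3, -, -, g8⟩ := h7 k t f l la r hD
  obtain ⟨-, -, -, o4', -, o6, -⟩ := h4 k t
  obtain ⟨c1, c2, c3, -, -, -, -, -, c9, -⟩ := h5 l hlp hl3
  obtain ⟨-, -, x3, -, -, x6, -⟩ := h9 k t f N hD.hf hN
  have htop : (⊤ : Ideal (OO k t)) ≠ ⊥ := top_ne_bot
  have hPt : PrI (⊤ : Ideal (OO k t)) (sN k t l) := top_sup_eq _
  obtain ⟨q61, -⟩ := q6 ⊤ htop hPt
  obtain ⟨b1, b2, -⟩ := h1 k t ⊤ htop
  obtain ⟨b7, -⟩ := h2 k t ⊤ htop
  obtain ⟨-, hP3, -⟩ := g8 P hP hPla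
  have hGK : ι ∈ GK k t := ((x3 ι).1 hιL).1
  have hsN0 : ∀ n : ℕ, n ≠ 0 → sN k t n ≠ ⊥ := by
    intro n hn h11
    have h12 : (n : OO k t) = 0 := Ideal.span_singleton_eq_bot.1 h11
    have h13 := congrArg Nm h12
    rw [Nm_nat, Nm_zero] at h13
    have h14 : (n : ℤ) = 0 := by simpa using h13
    exact hn (by exact_mod_cast h14)
  obtain ⟨a, haN, ha⟩ := x6 ι hιL (sN k t l) (hsN0 l hlp.ne_zero)
  have hnM : sN k t (f * 3 ^ N) * sN k t l = sN k t (f * 3 ^ N * l) := by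
    rw [Ideal.span_singleton_mul_span_singleton, ← Nat.cast_mul]
  have hnM0 : sN k t (f * 3 ^ N) * sN k t l ≠ ⊥ := by
    rw [hnM]
    exact hsN0 _ (Nat.mul_ne_zero hFN hlp.ne_zero)
  have hnl : sN k t (f * 3 ^ N) * sN k t l ≤ sN k t l := Ideal.mul_le_right
  have ha0 : a ≠ 0 := fun h11 => ha.ne (Ideal.span_singleton_eq_bot.2 h11)
  have hcop : Cop a l := (o6 l a).1 (o4' _ _ _ hnl ha.cop)
  have hlg : lg l (rd r a) = 0 := by
    rw [← hh ι hιL _ a hnM0 hnM.le haN ha]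
    exact h0
  have hxa : rd r a ≠ 0 := r7 a hcop
  set x : ZMod l := rd r a with hx
  set G : ℕ → Om := fun j => xO (⊤ : Ideal (OO k t)) (pL la j) with hG
  set e : ℕ → ℕ := fun j => (x * (j : ZMod l)).val with he
  have hecast : ∀ j : ℕ, ((e j : ℕ) : ZMod l) = x * j := fun j => by
    rw [he]
    exact ZMod.natCast_zmod_val _
  have hper : ∀ (z : ℂ) (v : OO k t),
      XC (⊤ : Ideal (OO k t)) (z + toC v) = XC (⊤ : Ideal (OO k t)) z :=
    fun z v => (b1 z (toC v) (lam_top.2 ⟨v, rfl⟩)).2.2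
  have hRG : ∀ i j : ℕ, ((i : ZMod l) = j ∨ (i : ZMod l) = -(j : ZMod l)) → G i = G j := by
    rintro i j (hij | hij)
    · obtain ⟨z, hz⟩ := q1 1 j i (by rw [r6, one_mul, hij])
      rw [toC_one, one_mul] at hz
      apply xO_congr
      rw [hz]
      exact (hper _ z).symm
    · obtain ⟨z, hz⟩ := q1 (-1) j i (by rw [r4, r6, hij, neg_mul, one_mul])
      rw [toC_neg, toC_one, neg_one_mul] at hz
      apply xO_congr
      rw [← (b2 (pL la j)).2.2, hz]
      exact (hper _ z).symm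
  have hmem : ∀ j : ℕ, j ∈ Jc l 0 ↔ j < l ∧ 0 < j ∧ lg l (j : ZMod l) = 0 := by
    intro j
    unfold Jc
    exact Finset.mem_filter.trans (and_congr_left' Finset.mem_range)
  have hj0 : ∀ j : ℕ, 0 < j → j < l → (j : ZMod l) ≠ 0 := by
    intro j hj hjl h11
    have h12 := Nat.le_of_dvd hj ((ZMod.natCast_eq_zero_iff _ _).1 h11)
    omega
  have hcast_sub : ∀ j : ℕ, j ≤ l → ((l - j : ℕ) : ZMod l) = -(j : ZMod l) := by
    intro j hj
    rw [Nat.cast_sub hj, ZMod.natCast_self, zero_sub]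
  have hιG : ∀ j : ℕ, ι (G j) = G (e j) := by
    intro j
    obtain ⟨z, hz⟩ := q1 a j (e j) (hecast j)
    have e0 : pL la j ∈ Lam (sN k t (f * 3 ^ N) * sN k t l * (⊤ : Ideal (OO k t))) :=
      lam_anti (Ideal.mul_mono_left (g3 _ hnl)) (qm ⊤ j)
    have e2 : ι (xO (⊤ : Ideal (OO k t)) (pL la j)) =
        xO (sp a * (⊤ : Ideal (OO k t))) (pL la j) :=
      ha.xx ⊤ htop _ e0
    change ι (xO (⊤ : Ideal (OO k t)) (pL la j)) = xO (⊤ : Ideal (OO k t)) (pL la (e j))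
    rw [e2]
    apply xO_congr
    rw [((b7 a ha0).1 _).1, hz, hper]
  set B : Finset ℕ := (Jc l 0).filter (fun j => 2 * j < l) with hB
  have hBmem : ∀ j : ℕ, j ∈ B ↔ (j < l ∧ 0 < j ∧ lg l (j : ZMod l) = 0) ∧ 2 * j < l := by
    intro j
    rw [hB, Finset.mem_filter, hmem]
  have hprod : ∏ j ∈ B, G (e j) = ∏ j ∈ B, G j := by
    refine DI.H3.tPrm ℕ Om B (fun i j => (i : ZMod l) = j ∨ (i : ZMod l) = -(j : ZMod l)) e G
      ?_ ?_ ?_ ?_ hRG
    · rintro i j (hij | hij)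
      · exact Or.inl hij.symm
      · right
        rw [hij, neg_neg]
    · rintro i j k (hij | hij) (hjk | hjk)
      · exact Or.inl (hij.trans hjk)
      · exact Or.inr (hij.trans hjk)
      · right
        rw [hij, hjk]
      · left
        rw [hij, hjk, neg_neg]
    · intro s hs
      obtain ⟨⟨hs1, hs2, hs3⟩, hs4⟩ := (hBmem s).1 hs
      have hs0 := hj0 s hs2 hs1
      have hne' : ((e s : ℕ) : ZMod l) ≠ 0 := by
        rw [hecast]
        exact mul_ne_zero hxa hs0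
      have hes0 : 0 < e s := by
        rw [Nat.pos_iff_ne_zero]
        intro h11
        rw [h11] at hne'
        exact hne' Nat.cast_zero
      have hsq' : lg l ((e s : ℕ) : ZMod l) = 0 := by
        rw [hecast, c1 _ _ hxa hs0, hlg, hs3, add_zero]
      have hlt : e s < l := ZMod.val_lt _
      by_cases hc : 2 * e s < l
      · exact ⟨e s, (hBmem _).2 ⟨⟨hlt, hes0, hsq'⟩, hc⟩, Or.inl rfl⟩
      · have hodd : l % 2 = 1 := by
          rcases hlp.eq_two_or_odd with h11 | h11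
          · exact absurd h11 gl2
          · exact h11
        refine ⟨l - e s, (hBmem _).2 ⟨⟨?_, ?_, ?_⟩, ?_⟩, Or.inr ?_⟩
        · omega
        · omega
        · rw [hcast_sub _ hlt.le, c3 _ hne']
          exact hsq'
        · omega
        · rw [hcast_sub _ hlt.le, neg_neg]
    · intro s hs s' hs' hR
      obtain ⟨⟨hs1, hs2, hs3⟩, hs4⟩ := (hBmem s).1 hs
      obtain ⟨⟨hs1', hs2', hs3'⟩, hs4'⟩ := (hBmem s').1 hs'
      rw [hecast, hecast] at hR
      rcases hR with hR | hR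
      · have h11 : (s : ZMod l) = s' := mul_left_cancel₀ hxa hR
        have h12 := (ZMod.natCast_eq_natCast_iff' s s' l).1 h11
        rwa [Nat.mod_eq_of_lt hs1, Nat.mod_eq_of_lt hs1'] at h12
      · exfalso
        have h11 : (s : ZMod l) = -(s' : ZMod l) := by
          apply mul_left_cancel₀ hxa
          rw [hR, mul_neg]
        have h12 : ((s + s' : ℕ) : ZMod l) = 0 := by
          rw [Nat.cast_add, h11, neg_add_cancel]
        have h13 : l ∣ s + s' := (ZMod.natCast_eq_zero_iff _ _).1 h12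
        have h15 := Nat.le_of_dvd (by omega) h13
        omega
  -- the unit `y = x₁ β`
  obtain ⟨x1, hx1⟩ : ∃ x1 : Om, x1 = ∏ j ∈ B, G j := ⟨_, rfl⟩
  have hιx1 : ι x1 = x1 := by
    rw [hx1, map_prod]
    exact (Finset.prod_congr rfl fun j _ => hιG j).trans hprod
  have hcard : 6 * B.card = l - 1 := c9
  have hBpos : 0 < B.card := by
    have := hlp.two_le
    omega
  have hhalf : (l - 1) / 2 = 3 * B.card := by omega
  have hUy2 : UP P ((x1 * β) ^ (3 * B.card)) := by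
    have e1 : (x1 * β) ^ (3 * B.card) = ∏ j ∈ B, (toO la * G j ^ ((l - 1) / 2)) := by
      rw [Finset.prod_mul_distrib, Finset.prod_const, Finset.prod_pow, ← hx1, hhalf, mul_pow,
        ← hβ3, ← pow_mul, mul_comm]
    rw [e1]
    refine DI.UP.prod _ _ fun j hj => ?_
    obtain ⟨⟨hj1, hj2, hj3⟩, -⟩ := (hBmem j).1 hj
    exact h3 k t la l g1 gl2 gl3 P hP hPla ⊤ htop _ (lam_sp.1 (qm ⊤ j)) (q61 j hj2 hj1)
  have hUy : UP P (x1 * β) := DI.UP.of_pow (by omega) hUy2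
  -- the root of unity
  have hβ0 : β ≠ 0 := by
    intro h11
    apply hne
    rw [h11, map_zero]
  have hζ3 : (ι β / β) ^ 3 = 1 := by
    rw [div_pow, ← map_pow, hβ3, GK_toO hGK, ← hβ3]
    exact div_self (pow_ne_zero _ hβ0)
  have hM := DI.VP.inertia hι hUy.1
  have hM2 : MP P ((ι β / β - 1) * (x1 * β)) := by
    have e1 : ι (x1 * β) - x1 * β = (ι β / β - 1) * (x1 * β) := by
      rw [map_mul, hιx1]
      field_simp
    rwa [e1] at hM
  have hVζ : VP P (ι β / β - 1) := by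
    refine DI.VP.sub (DI.VP.integral ?_) DI.VP.one
    refine ⟨Polynomial.X ^ 3 - 1, ?_, ?_⟩
    · monicity!
    · simp [hζ3]
  rcases DI.MP.mul_cases hVζ hUy.1 hM2 with h11 | h11
  · have h12 := cube_root hP3 hζ3 h11
    apply hne
    rwa [div_eq_one_iff_eq hβ0] at h12
  · exact hUy.2 h11

end Pool.Agent.DT.H3
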