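import Pool.Agent.Lib.DT.H3.Spec

set_option autoImplicit false

/-!
# Theorem DT, part H, module `Res`: the result
-/

open scoped Pointwise nonZeroDivisors

noncomputable section

namespace Pool.Agent.DT.H3

open Pool.Agent.MuZ Pool.Agent.FW NumberField IsDedekindDomain
open Pool.Agent.DI (io ofC io_inj exists_io io_ofC ofC_io VP MP UP TP ex)
open Pool.Agent.DT

namespace ResAux

theorem npr_smul {Q : Ideal ZZ} (σ : Gal(Om/ℚ)) (hQ : Npr Q) : Npr (σ • Q) := by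
  obtain ⟨hp, h0⟩ := hQ
  refine ⟨inferInstance, fun h => h0 ?_⟩
  rw [eq_bot_iff]
  intro x hx
  have h1 : σ • x ∈ σ • Q := (DI.smul_mem_smul_iff σ x).2 hx
  rw [h] at h1
  have h2 : σ • x = 0 := h1
  have h3 : x = 0 := by
    have h4 := congrArg (fun t => σ⁻¹ • t) h2
    simpa using h4
  rw [h3]
  exact Ideal.zero_mem _

theorem sN_ne {k t : ℕ} [SqT k t] {n : ℕ} (hn : 0 < n) : sN k t n ≠ ⊥ := by
  unfold sN
  rw [Ne, Ideal.span_singleton_eq_bot]
  intro h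
  have h1 := congrArg QuadraticAlgebra.re h
  rw [re_nat] at h1
  have h2 : (n : ℤ) = 0 := h1
  omega

theorem sN_mul {k t : ℕ} (a b : ℕ) : sN k t (a * b) = sN k t a * sN k t b := by
  unfold sN
  rw [Ideal.span_singleton_mul_span_singleton]
  push_cast
  rfl

/-- Powers of a number which is `1` modulo `P`. -/
theorem pow_sub_one {P : Ideal ZZ} (hP : P.IsPrime) {x : Om} (hx : VP P x) (h : MP P (x - 1))
    (n : ℕ) : MP P (x ^ n - 1) := by
  induction n with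
  | zero => rw [pow_zero, sub_self]; exact MP.zero
  | succ n ih =>
    have e : x ^ (n + 1) - 1 = x * (x ^ n - 1) + (x - 1) := by ring
    rw [e]
    exact (MP.mul_left hx ih).add h

end ResAux

open ResAux in
theorem tRes (h1 : S_O2) (h2 : S_O6) (h3 : S_E2) (h4 : S_hLa) (h5 : S_hPri) (h6 : S_hT3)
    (h7 : S_hAlR) (h8 : S_hFix) (h9 : S_hDg) (h10 : S_hEps) (h11 : S_hUni) (h12 : S_hCst)
    (h13 : S_hNrm) (h14 : S_hCng) (h15 : S_hHom) (h16 : S_hUnr) (h17 : S_hInr) (h18 : S_hTra)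
    (h19 : S_hRam) : S_hRes := by
  intro k t _ f N m T b hF hN hT hb0 hb
  have hf : Fok f := hF.toFok
  have hf0 : 0 < f := hf.pos
  have hM0 : 0 < f * 3 ^ N := Nat.mul_pos hf0 (pow_pos (by norm_num) N)
  obtain ⟨hfin, -, hfix, -, -, hgen, hpconj⟩ := h8 k t f N hf hN
  have hnf : NumberField (Mn k t f N) := NumberField.mk
  obtain ⟨B1, hB1, hE2⟩ := h3 k t (sN k t (f * 3 ^ N)) (sN_ne hM0)
  obtain ⟨B2, hB2, hAlR⟩ := h7 (Mn k t f N)
  obtain ⟨-, -, -, hNIsp, -, hNI0, -, -⟩ := h1 k t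
  obtain ⟨-, -, -, -, o5, -, -, -⟩ := h2 k t
  have hm0 : m ≠ ⊥ := hF.ne
  have hm : 0 < NI m := Nat.pos_of_ne_zero fun h => hm0 ((hNI0 m).1 h)
  have hbb : 0 < NI b := Nat.pos_of_ne_zero fun h => hb0 ((hNI0 b).1 h)
  refine ⟨f * NI m * NI b * B1 * B2, by positivity, ?_⟩
  intro l hl hl3 hlc Q hQ hlQ φ hφ hφf
  have cB2 : l.Coprime B2 := Nat.Coprime.coprime_dvd_right (Dvd.intro_left _ rfl) hlc
  have c1 : l.Coprime (f * NI m * NI b * B1) := Nat.Coprime.coprime_dvd_right (Dvd.intro _ rfl) hlc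
  have cB1 : l.Coprime B1 := Nat.Coprime.coprime_dvd_right (Dvd.intro_left _ rfl) c1
  have c2 : l.Coprime (f * NI m * NI b) := Nat.Coprime.coprime_dvd_right (Dvd.intro _ rfl) c1
  have cb : l.Coprime (NI b) := Nat.Coprime.coprime_dvd_right (Dvd.intro_left _ rfl) c2
  have c3 : l.Coprime (f * NI m) := Nat.Coprime.coprime_dvd_right (Dvd.intro _ rfl) c2
  have cm : l.Coprime (NI m) := Nat.Coprime.coprime_dvd_right (Dvd.intro_left _ rfl) c3
  have cf : l.Coprime f := Nat.Coprime.coprime_dvd_right (Dvd.intro _ rfl) c3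
  have hφK : φ ∈ GK k t := ((hfix φ).1 hφ).1
  -- the prime `λ`
  obtain ⟨q, r, hq, hr, hrd, hMQ⟩ := h4 k t l hl Q hQ hlQ φ hφK hφf
  have hQq : Abv Q q := fun v hv => (hMQ v).2 hv
  have hpsi : Psi φ (sN k t (f * 3 ^ N)) q := hE2 q l hq cB1 Q hQ hQq φ hφK hφf
  obtain ⟨la, hqla, hHN⟩ := (h5 k t f N hf hN q).1 (((hfix φ).1 hφ).2 q hpsi)
  have hla : Nm la = l := by
    rw [← hNIsp, ← hqla, hq.2.2.2]
  have hmem : ∀ x : OO k t, x ∈ q ↔ la ∣ x := by
    intro x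
    rw [hqla]
    exact Ideal.mem_span_singleton
  have hker : ∀ x : OO k t, rd r x = 0 ↔ la ∣ x := fun x => (hrd x).trans (hmem x)
  have hQla : MP Q (toO la) := (hMQ la).2 ((hmem la).2 dvd_rfl)
  have hlm : PrI m (sN k t l) := (o5 l m).2 cm.symm
  have hlb : PrI b (sN k t l) := (o5 l b).2 cb.symm
  have D : Dat f N m T b l la r :=
    { hf := hf, hl := hl, hl3 := hl3, hlf := cf, hla := hla, hr := hr,
      hker := hker, hN := hN, hm := hF, hT := hT, hb0 := hb0, hb := hb,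
      hlm := hlm, hlb := hlb, hHN := hHN }
  have DL : DatL f l la r := D.toDatL
  obtain ⟨h, hVV, hH⟩ := h15 k t f N l la r hN DL
  obtain ⟨C, hC0, hCrel, hCU, hCfix, hC1⟩ := h12 k t f N m T b l la r D
  have hnrm := h13 k t f N m T b l la r D C hCrel
  obtain ⟨n3, hn3⟩ : ∃ n3, T.card = 3 * n3 := h6 k t f N T hf hN hT
  set c : Om := C ^ n3 with hc
  have hc0 : c ≠ 0 := pow_ne_zero _ hC0
  have hc3 : C ^ T.card = c ^ 3 := by rw [hn3, hc, ← pow_mul, mul_comm]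
  -- the action of `Gal(Om/F)`
  have hl0 : sN k t l ≠ ⊥ := sN_ne hl.pos
  have hpb0 : ppb k t ≠ ⊥ := by
    intro h0
    have h3 : (3 : OO k t) ∈ ppb k t := by
      unfold ppb
      exact Ideal.subset_span (by simp)
    rw [h0] at h3
    have h4 : ((3 : ℕ) : OO k t) = 0 := by exact_mod_cast (show (3 : OO k t) = 0 from h3)
    have h5 := congrArg QuadraticAlgebra.re h4
    rw [re_nat] at h5
    have h6 : ((3 : ℕ) : ℤ) = 0 := h5
    norm_num at h6
  have hn1 : sN k t (f * 3 ^ N) * (ppb k t * (sN k t l * m)) = cnN k t f N * sN k t l * m := by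
    unfold cnN
    simp only [mul_assoc]
  have hn2 : cnN k t f N * sN k t l * m ≤ sN k t (f * 3 ^ N * l) := by
    rw [sN_mul]
    refine Ideal.mul_le_left.trans (Ideal.mul_mono ?_ le_rfl)
    unfold cnN
    exact Ideal.mul_le_left
  have hn0 : cnN k t f N * sN k t l * m ≠ ⊥ := by
    rw [← hn1]
    exact mul_ne_zero (sN_ne hM0) (mul_ne_zero hpb0 (mul_ne_zero hl0 hm0))
  have hact : ∀ τ ∈ (Mn k t f N).fixingSubgroup, ∀ i : ZMod 3,
      τ (epq f N m T b l la i) = epq f N m T b l la (i + h τ) := by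
    intro τ hτ i
    obtain ⟨a, hHa, ha⟩ := hgen τ hτ (ppb k t * (sN k t l * m))
      (mul_ne_zero hpb0 (mul_ne_zero hl0 hm0))
    rw [hn1] at ha
    rw [hH τ hτ _ a hn0 hn2 hHa ha]
    exact h10 k t f N m T b l la r D τ a ((hfix τ).1 hτ).1 ha hHa i
  have hcfix : ∀ τ ∈ (Mn k t f N).fixingSubgroup, τ c = c := by
    intro τ hτ
    rw [hc, map_pow, hCfix τ hτ]
  have hw : ∀ τ ∈ (Mn k t f N).fixingSubgroup, ∀ i : ZMod 3,
      τ (epq f N m T b l la i * c⁻¹) = epq f N m T b l la (i + h τ) * c⁻¹ := by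
    intro τ hτ i
    rw [map_mul, map_inv₀, hact τ hτ, hcfix τ hτ]
  have hconj : ∀ σ ∈ GK k t, ∀ τ ∈ (Mn k t f N).fixingSubgroup, σ * τ * σ⁻¹ ∈
      (Mn k t f N).fixingSubgroup → h (σ * τ * σ⁻¹) = h τ := by
    intro σ hσ τ hτ hστ
    obtain ⟨a, hHa, ha⟩ := hgen τ hτ (sN k t l) hl0
    have hne : sN k t (f * 3 ^ N) * sN k t l ≠ ⊥ := mul_ne_zero (sN_ne hM0) hl0
    have hle : sN k t (f * 3 ^ N) * sN k t l ≤ sN k t (f * 3 ^ N * l) := (sN_mul _ _).ge
    have ha' := hpconj σ hσ τ hτ _ a hne ha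
    rw [hH τ hτ _ a hne hle hHa ha, hH _ hστ _ a hne hle hHa ha']
  have hcj := (h8 k t f N hf hN).2.2.2.1
  have hu := h11 k t f N m T b l la r D
  have hram : ∃ ι ∈ Q.inertia Gal(Om/ℚ), ι ∈ (Mn k t f N).fixingSubgroup ∧ h ι ≠ 0 := by
    obtain ⟨β, hβ⟩ : ∃ β : Om, β ^ 3 = toO la := IsAlgClosed.exists_pow_nat_eq _ (by norm_num)
    obtain ⟨ι, hι, hιF, hιβ⟩ := h17 k t f N l la r hN DL (hAlR l hl cB2) Q hQ hQla β hβ
    exact ⟨ι, hι, hιF, h19 k t f N l la r hN DL h hH Q hQ hQla β hβ ι hι hιF hιβ⟩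
  refine ⟨h, hVV, epq f N m T b l la 0 * c⁻¹, ?_, ?_, ?_, ?_, ?_, ?_, hram, ?_⟩
  · intro h0
    obtain ⟨ι, -, -, hι⟩ := hram
    rw [h0] at hι
    exact hι rfl
  · intro τ hτ h0
    rw [hw τ hτ, h0, add_zero]
  · intro τ hτ h0
    rw [Finset.prod_range_succ, Finset.prod_range_succ, Finset.prod_range_succ,
      Finset.prod_range_zero, one_mul, pow_zero, pow_one, pow_two, AlgEquiv.one_apply,
      AlgEquiv.mul_apply, hw τ hτ, hw τ hτ, h0]
    have e1 : (0 + 1 : ZMod 3) = 1 := by decide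
    have e2 : (0 + 1 + 1 : ZMod 3) = 2 := by decide
    rw [e2, e1]
    have e3 : epq f N m T b l la 0 * c⁻¹ * (epq f N m T b l la 1 * c⁻¹) *
        (epq f N m T b l la 2 * c⁻¹) =
        epq f N m T b l la 0 * epq f N m T b l la 1 * epq f N m T b l la 2 * (c ^ 3)⁻¹ := by
      field_simp
    rw [e3, hnrm, hc3]
    exact mul_inv_cancel₀ (pow_ne_zero _ hc0)
  · intro P hP
    have := hP.1
    have hc' : UP P c := by
      rw [hc]
      exact (hCU P hP).pow n3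
    exact ((hu.2.2 P hP).1 0).mul hc'.inv
  · intro σ hσ τ hτ
    exact hconj σ hσ τ hτ (hcj σ hσ τ hτ)
  · intro P hP hP3 hne ι hι hιF
    by_cases hmp : MP P (toO la)
    · obtain ⟨σ, hσ, he⟩ := h18 k t l la hl hla P Q hP hQ hmp hQla
      exact absurd he (hne σ hσ)
    · exact h16 k t f N l la r hN DL h hH P hP hP3 hmp ι hι hιF
  · intro σ hσ
    have hP : Npr (σ • Q) := npr_smul σ hQ
    have := hP.1
    have hPla : MP (σ • Q) (toO la) := by
      have e := (DI.MP.smul (P := Q) σ (x := toO la)).2 hQla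
      rwa [GK_toO hσ la] at e
    have hcng := h14 k t f N m T b l la r D (σ • Q) hP hPla
    have hCP : UP (σ • Q) C := hCU _ hP
    have hcU : UP (σ • Q) c := by
      rw [hc]
      exact hCP.pow n3
    have hc1 : MP (σ • Q) (c - 1) := by
      rw [hc]
      exact pow_sub_one hP.1 hCP.1 (hC1 _ hP hPla) n3
    have huU : UP (σ • Q) (uN f N m T b) := (hu.2.2 _ hP).2.1
    have e : epq f N m T b l la 0 * c⁻¹ - uN f N m T b ^ ((l - 1) / 3) =
        ((epq f N m T b l la 0 - uN f N m T b ^ ((l - 1) / 3)) -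
          (c - 1) * uN f N m T b ^ ((l - 1) / 3)) * c⁻¹ := by
      field_simp
      ring
    rw [e]
    exact MP.mul_right (hcng.sub (MP.mul_right hc1 (huU.1.pow _))) hcU.inv.1

end Pool.Agent.DT.H3
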