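import Pool.Agent.Lib.DT.H3.Spec
import Pool.Agent.Lib.DI.H3.Prm

/-!
# Theorem DT, part H: permutation of the set `T` of representatives (helper65)
-/

set_option autoImplicit false

open scoped Pointwise nonZeroDivisors

noncomputable section

namespace Pool.Agent.DT.H3

open Pool.Agent.MuZ Pool.Agent.FW NumberField IsDedekindDomain
open Pool.Agent.DI (io ofC io_inj exists_io io_ofC ofC_io VP MP UP TP ex)
open Pool.Agent.DT

variable {k t : ℕ}

theorem tTP (h1 : S_hHN) : S_hTP := by
  intro k t _ f N T a G hf hN hT ha hper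
  obtain ⟨_, hmul, _, hcop, hinv⟩ := h1 k t f N hf hN
  obtain ⟨a', -, ha'⟩ := hinv a ha
  refine Pool.Agent.DI.H3.tPrm (OO k t) Om T (fun x y => x - y ∈ cnN k t f N)
    (fun h => a * h) G ?_ ?_ ?_ ?_ ?_
  · intro x y h
    have := neg_mem h
    rwa [neg_sub] at this
  · intro x y z hxy hyz
    have := add_mem hxy hyz
    rwa [sub_add_sub_cancel] at this
  · intro h hh
    obtain ⟨h', hh', hs⟩ := hT.ex (a * h) (hmul a h ha (hT.mem h hh))
    exact ⟨h', hh', hs⟩
  · intro h hh h' hh' hs
    refine hT.uni h hh h' hh' ?_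
    have e : h - h' = a' * (a * h - a * h') - (a * a' - 1) * (h - h') := by ring
    rw [e]
    exact sub_mem (Ideal.mul_mem_left _ _ hs) (Ideal.mul_mem_right _ _ ha')
  · intro x y h
    exact hper x y h

end Pool.Agent.DT.H3
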