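import Pool.Agent.Lib.DT.H3.Spec

set_option autoImplicit false

/-!
# Theorem DT, part H, module Uni: units
-/

open scoped Pointwise nonZeroDivisors

noncomputable section

namespace Pool.Agent.DT.H3

open Pool.Agent.MuZ Pool.Agent.FW NumberField IsDedekindDomain
open Pool.Agent.DI (io ofC io_inj exists_io io_ofC ofC_io VP MP UP TP ex)
open Pool.Agent.DT

namespace UniAux

private lemma odd_of_coprime {a : ℤ} (h : IsCoprime a (2 : ℤ)) : ¬ (2 : ℤ) ∣ a := by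
  intro hd
  have h2 : IsUnit (2 : ℤ) := h.symm.isUnit_of_dvd' dvd_rfl hd
  rw [Int.isUnit_iff] at h2
  omega

private lemma sN_le {k t : ℕ} {a b : ℕ} (h : a ∣ b) : sN k t b ≤ sN k t a := by
  unfold sN
  rw [Ideal.span_singleton_le_span_singleton]
  obtain ⟨c, rfl⟩ := h
  exact ⟨(c : OO k t), by push_cast; ring⟩

end UniAux

open UniAux in
theorem tUni (h1 : S_O6) (h2 : S_D5) (h3 : S_hHN) (h4 : S_hDg) (h5 : S_hGd) : S_hUni := by
  intro k t _ f N m T b l la r hD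
  have hf : Fok f := hD.hf
  have h6 : 6 ∣ 3 * f := by
    obtain ⟨c, hc⟩ := hf.four
    exact ⟨2 * c, by rw [hc]; ring⟩
  have hm6 : PrI m (sN k t 6) := (h1 k t).2.2.2.1 _ _ _ (sN_le h6) hD.hm.prm
  have hb6 : PrI b (sN k t 6) := (h1 k t).2.2.2.1 _ _ _ (sN_le h6) hD.hb
  obtain ⟨-, hmul, -, hprop, -⟩ := h3 k t f N hf hD.hN
  obtain ⟨-, -, -, -, -, hlp, hl2, -⟩ := h4 k t f l la r hD.toDatL
  have ot : ∀ h : OO k t, HN f N h → ¬ (2 : ℤ) ∣ Nm h := by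
    intro h hh
    have hc : Cop h (3 * f) := (hprop h hh).2.1
    have hc2 : Cop h 2 := cop_dvd hc (Dvd.dvd.trans (by norm_num) h6)
    exact odd_of_coprime (by exact_mod_cast hc2)
  have pt : ∀ h : OO k t, HN f N h → h ∉ ppb k t := fun h hh => (hprop h hh).2.2.2
  have key : ∀ h ∈ T, ∀ j : ℕ, Gd m b (toC h * zN k t f N + pL la j) ∧
      Gd m b (toC h * zN k t f N) ∧ toC h * zN k t f N ∉ Lam (sp la * m * b) := by
    intro h hh j
    have hH := hD.hT.mem h hh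
    obtain ⟨g1, g2, g3, -⟩ := h5 k t f N m b h la j hf hD.hm.ne hm6 hD.hb0 hb6 (ot h hH) (pt h hH)
      hl2 hlp
    exact ⟨g1, g2, g3⟩
  have key2 : ∀ h ∈ T, Gd m b (toC (la * h) * zN k t f N) := by
    intro h hh
    have hH := hmul la h hD.hHN (hD.hT.mem h hh)
    exact (h5 k t f N m b (la * h) la 0 hf hD.hm.ne hm6 hD.hb0 hb6 (ot _ hH) (pt _ hH)
      hl2 hlp).2.1
  have hUP : ∀ Q : Ideal ZZ, Npr Q → ∀ z : ℂ, Gd m b z → UP Q (Theta m b z) := fun Q hQ z hz =>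
    h2 k t m b hD.hm.ne hD.hb0 hm6 Q hQ z hz.1 (hz.2 Q hQ)
  refine ⟨⟨hm6, hb6⟩, fun h hh => ⟨(key h hh 0).2.1, key2 h hh, fun j => (key h hh j).1,
    (key h hh 0).2.2⟩, fun Q hQ => ?_⟩
  have : Q.IsPrime := hQ.1
  refine ⟨fun i => ?_, ?_, fun h hh => ⟨hUP Q hQ _ (key h hh 0).2.1, hUP Q hQ _ (key2 h hh),
    fun j => hUP Q hQ _ (key h hh j).1⟩⟩
  · exact DI.UP.prod _ _ fun h hh => DI.UP.prod _ _ fun j _ => hUP Q hQ _ (key h hh j).1
  · exact DI.UP.prod _ _ fun h hh => hUP Q hQ _ (key h hh 0).2.1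

end Pool.Agent.DT.H3
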