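import Pool.Agent.Lib.DT.H3.Spec

set_option autoImplicit false

/-!
# Theorem DT, part H: `h` is unramified outside `3 λ` (`S_hUnr`)
-/

open scoped Pointwise nonZeroDivisors

noncomputable section

namespace Pool.Agent.DT.H3

open Pool.Agent.MuZ Pool.Agent.FW NumberField IsDedekindDomain
open Pool.Agent.DI (io ofC io_inj exists_io io_ofC ofC_io VP MP UP TP ex)
open Pool.Agent.DT

theorem tUnr (h1 : S_B1) (h2 : S_R4) (h3 : S_E4) (h4 : S_O6) (h5 : S_hCb) (h6 : S_hRdm)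
    (h7 : S_hDg) (h8 : S_hLat) (h9 : S_hFix) : S_hUnr := by
  intro k t _ f N l la r hN hD h hh P hP _ hPla ι hι hιL
  have hpos : 0 < f * 3 ^ N * l :=
    Nat.mul_pos (Nat.mul_pos hD.hf.pos (pow_pos (by norm_num) _)) hD.hl.pos
  have hl0 : ((l : ℕ) : OO k t) ≠ 0 := by
    intro h0
    have h10 := Nm_nat (k := k) (t := t) l
    rw [h0, Nm_zero] at h10
    have h11 : (l : ℤ) ≠ 0 := by exact_mod_cast hD.hl.ne_zero
    exact (pow_ne_zero 2 h11) h10.symm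
  have hsl : sN k t l ≠ ⊥ := fun h0 => hl0 (Ideal.span_singleton_eq_bot.1 h0)
  have hn : sN k t (f * 3 ^ N) * sN k t l = sN k t (f * 3 ^ N * l) := by
    rw [sN, sN, sN, Ideal.span_singleton_mul_span_singleton, Nat.cast_mul (f * 3 ^ N) l]
  have hn0 : sN k t (f * 3 ^ N * l) ≠ ⊥ := by
    intro h0
    have h10 := Nm_nat (k := k) (t := t) (f * 3 ^ N * l)
    rw [Ideal.span_singleton_eq_bot.1 h0, Nm_zero] at h10
    have h11 : ((f * 3 ^ N * l : ℕ) : ℤ) ≠ 0 := by exact_mod_cast hpos.ne'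
    exact (pow_ne_zero 2 h11) h10.symm
  obtain ⟨-, -, x2, -, -, x4, -⟩ := h9 k t f N hD.hf hN
  have hGK : ι ∈ GK k t := ((x2 ι).1 hιL).1
  obtain ⟨a, haN, ha⟩ := x4 ι hιL (sN k t l) hsl
  obtain ⟨r1, r2, r3, r4, r5, r6, r7, -, -⟩ := h6 k t f l la r hD
  obtain ⟨q1, -, -, q4, -, q5, q6⟩ := h8 k t f l la r hD
  obtain ⟨g1, g2, g3, -⟩ := h7 k t f l la r hD
  obtain ⟨-, o2, -, -, -, o6, -⟩ := h4 k t
  obtain ⟨-, sq1, sq2, -⟩ := h5 l hD.hl hD.hl3
  have hla0 : la ≠ 0 := by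
    intro h0
    have h10 := hD.hla
    rw [h0, Nm_zero] at h10
    exact hD.hl.ne_zero (by exact_mod_cast h10.symm)
  have hla : toC la ≠ 0 := toC_ne hla0
  have hp1 : pL la 1 = 1 / toC la := by
    rw [pL, Nat.cast_one]
  have hcop : Cop a l := (o6 l a).1 ((o2 _ _ _).1 ha.cop).2
  have hra : rd r a ≠ 0 := r7 a hcop
  have htop : (⊤ : Ideal (OO k t)) ≠ ⊥ := top_ne_bot
  have hPt : PrI (⊤ : Ideal (OO k t)) (sN k t l) := top_sup_eq _
  obtain ⟨q61, -⟩ := q6 ⊤ htop hPt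
  have w2 := q61 1 one_pos hD.hl.one_lt
  have w1 : pL la 1 ∈ Lam (sp la * (⊤ : Ideal (OO k t))) := q5 ⊤ 1
  have hle : sN k t (f * 3 ^ N * l) ≤ sN k t l := by
    rw [← hn]
    exact (Ideal.mul_le_inf (I := sN k t (f * 3 ^ N)) (J := sN k t l)).trans inf_le_right
  rw [hn] at ha
  -- the inertia group fixes `X (1/λ)`
  have e1 : xO ⊤ (toC a * pL la 1) = xO ⊤ (pL la 1) :=
    (h3 k t P hP ι hGK hι).2 a ⊤ (sp la) (sN k t (f * 3 ^ N * l)) hn0 htop g1.2.1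
      (g3 _ hle) (fun h10 => hPla ((g2 P hP).2 h10)) ha _ w1
  have t2 : Tor k t (toC a * pL la 1) := tor_mul a (q4 1)
  have e4 : XC (⊤ : Ideal (OO k t)) (toC a * pL la 1) = XC (⊤ : Ideal (OO k t)) (pL la 1) := by
    rw [← (h2.1 k t ⊤ htop).2 _ t2, ← (h2.1 k t ⊤ htop).2 _ (q4 1), e1]
  -- `a / λ` is not in the lattice
  have : NeZero l := ⟨hD.hl.ne_zero⟩
  have : Fact l.Prime := ⟨hD.hl⟩
  have w3 : toC a * pL la 1 ∉ Lam (⊤ : Ideal (OO k t)) := by
    obtain ⟨x, hx⟩ := q1 a 1 (rd r a).val (by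
      rw [ZMod.natCast_val, ZMod.cast_id, Nat.cast_one, mul_one])
    have hpos : 0 < (rd r a).val := by
      rw [Nat.pos_iff_ne_zero]
      intro h0
      exact hra ((ZMod.val_eq_zero _).1 h0)
    have hn := q61 (rd r a).val hpos (ZMod.val_lt _)
    intro hv
    apply hn
    have h10 := lam_sub hv (lam_top.2 ⟨x, rfl⟩)
    rwa [hx, add_sub_cancel_right] at h10
  obtain ⟨-, -, -, -, -, -, -, b6, -⟩ := h1 k t ⊤ htop
  have hlg : lg l (rd r a) = 0 := by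
    rcases ((b6 _ _ w3 w2).1 e4) with hy | hy
    · obtain ⟨y, hy⟩ := lam_top.1 hy
      have e5 : a - 1 = y * la := by
        apply toC_inj
        rw [toC_sub, toC_one, toC_mul, ← hy, hp1]
        field_simp
      have e6 : rd r (a - 1) = 0 := (hD.hker _).2 ⟨y, by rw [e5, mul_comm]⟩
      rw [r3, r6, sub_eq_zero] at e6
      rw [e6]
      exact sq1
    · obtain ⟨y, hy⟩ := lam_top.1 hy
      have e5 : a + 1 = y * la := by
        apply toC_inj
        rw [toC_add, toC_one, toC_mul, ← hy, hp1]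
        field_simp
      have e6 : rd r (a + 1) = 0 := (hD.hker _).2 ⟨y, by rw [e5, mul_comm]⟩
      rw [r2, r6] at e6
      rw [eq_neg_of_add_eq_zero_left e6, sq2 1 one_ne_zero]
      exact sq1
  rw [hh ι hιL _ a hn0 le_rfl haN ha]
  exact hlg

end Pool.Agent.DT.H3
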