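import Pool.Agent.Lib.DT.H3.Spec

/-!
# Theorem DT (`p = 3`), part H, module `Zp`: the point `z_N`
-/

set_option autoImplicit false

open scoped Pointwise nonZeroDivisors

noncomputable section

namespace Pool.Agent.DT.H3

open Pool.Agent.MuZ Pool.Agent.FW NumberField IsDedekindDomain
open Pool.Agent.DI (io ofC io_inj exists_io io_ofC ofC_io VP MP UP TP ex)
open Pool.Agent.DT

private theorem c0_cases (k t f : ℕ) :
    c0 k t f = ⟨3 + 3 * f, f⟩ ∨ c0 k t f = ⟨3, f⟩ := by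
  unfold c0
  split_ifs
  · exact Or.inl rfl
  · exact Or.inr rfl

theorem tZp (h1 : S_O4) : S_hZp := by
  intro k t _ f N hf
  obtain ⟨e3, -, -, -, -, -, -, -, -, -, hpp, hppb⟩ := h1 k t
  have hf0 : (f : ℂ) ≠ 0 := by exact_mod_cast hf.pos.ne'
  have h3 : ((3 : ℂ) ^ (N + 1) * f) ≠ 0 := mul_ne_zero (pow_ne_zero _ (by norm_num)) hf0
  have hz : ((3 : ℂ) ^ (N + 1) * f) * zN k t f N = toC (c0 k t f) := by
    unfold zN
    rw [mul_div_cancel₀ _ h3]
  have hf3 : ¬ (3 : ℤ) ∣ (f : ℤ) := by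
    intro h
    have h' : 3 ∣ f := by exact_mod_cast h
    have h2 := Nat.dvd_gcd h' (dvd_refl 3)
    rw [hf.cop] at h2
    omega
  obtain ⟨g, hg⟩ := hf.four
  have hc : c0 k t f ∈ pp k t ∧ c0 k t f ∉ ppb k t ∧ ¬ (2 : ℤ) ∣ Nm (c0 k t f) := by
    rw [hpp, hppb]
    rcases c0_cases k t f with h | h
    · rw [h]
      refine ⟨?_, ?_, ?_⟩
      · exact ⟨1 + f, by ring⟩
      · change ¬ (3 : ℤ) ∣ (3 + 3 * (f : ℤ)) + (f : ℤ)
        omega
      · rintro ⟨c, hc⟩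
        change ((3 + 3 * (f : ℤ)) ^ 2 + t * (3 + 3 * (f : ℤ)) * (f : ℤ) + 3 * k * (f : ℤ) ^ 2)
          = 2 * c at hc
        have e : ((3 + 3 * (f : ℤ)) ^ 2 + t * (3 + 3 * (f : ℤ)) * (f : ℤ) + 3 * k * (f : ℤ) ^ 2)
            = 2 * (4 + 36 * g + 72 * g ^ 2 + 2 * t * (3 + 12 * g) * g + 24 * k * g ^ 2) + 1 := by
          rw [hg]
          push_cast
          ring
        rw [e] at hc
        omega
    · rw [h]
      refine ⟨?_, ?_, ?_⟩
      · exact dvd_refl (3 : ℤ)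
      · change ¬ (3 : ℤ) ∣ 3 + (f : ℤ)
        omega
      · rintro ⟨c, hc⟩
        change ((3 : ℤ) ^ 2 + t * 3 * (f : ℤ) + 3 * k * (f : ℤ) ^ 2) = 2 * c at hc
        have e : ((3 : ℤ) ^ 2 + t * 3 * (f : ℤ) + 3 * k * (f : ℤ) ^ 2)
            = 2 * (4 + 6 * t * g + 24 * k * g ^ 2) + 1 := by
          rw [hg]
          push_cast
          ring
        rw [e] at hc
        omega
  have hx : ∀ x ∈ cnN k t f N, ∃ u : OO k t, toC x * zN k t f N = toC u := by
    intro x hx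
    obtain ⟨y, hy, rfl⟩ := Ideal.mem_span_singleton_mul.1 hx
    have h4 : c0 k t f * y ∈ sN k t 3 := by
      rw [← e3]
      exact Ideal.mul_mem_mul hc.1 hy
    obtain ⟨u, hu⟩ := Ideal.mem_span_singleton'.1 h4
    refine ⟨u, ?_⟩
    have h5 : toC u * 3 = toC (c0 k t f) * toC y := by
      rw [← toC_mul, ← hu, toC_mul, toC_nat]
      norm_num
    have h6 : (3 : ℂ) * (toC (((f * 3 ^ N : ℕ) : OO k t) * y) * zN k t f N) = 3 * toC u := by
      rw [mul_comm (3 : ℂ) (toC u), h5, ← hz, toC_mul, toC_nat]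
      push_cast
      ring
    exact mul_left_cancel₀ (by norm_num) h6
  refine ⟨hz, hc, hx, ⟨c0 k t f, 3 ^ (N + 1) * f, Nat.mul_pos (by positivity) hf.pos, ?_⟩, ?_⟩
  · unfold zN
    push_cast
    rfl
  · intro b v hv
    have h4 : cnN k t f N * b ≤ cnN k t f N := Ideal.mul_le_left
    have h5 : v ∈ cnN k t f N := h4 hv
    exact hx v h5

end Pool.Agent.DT.H3
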