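import Pool.Agent.Lib.DT.O.All
import Pool.Agent.Lib.FW.AsmFW2
import Pool.Agent.Lib.DT.T.Fl
import Pool.Agent.Lib.DT.T.H9
import Pool.Agent.Lib.DT.T.Ka
import Pool.Agent.Lib.DT.T.Kap
import Pool.Agent.Lib.DT.T.Leg
import Pool.Agent.Lib.DT.T.Qu
import Pool.Agent.Lib.DT.T.Ra
import Pool.Agent.Lib.DT.T.Rel
import Pool.Agent.Lib.DT.T.Sel
import Pool.Agent.Lib.DT.T.TH
import Pool.Agent.Lib.DT.T.Un
import Pool.Agent.Lib.DT.H3.AlR
import Pool.Agent.Lib.DT.H3.Asm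
import Pool.Agent.Lib.DT.H3.Cb
import Pool.Agent.Lib.DT.H3.Cng
import Pool.Agent.Lib.DT.H3.Cst
import Pool.Agent.Lib.DT.H3.Dg
import Pool.Agent.Lib.DT.H3.Eps
import Pool.Agent.Lib.DT.H3.Fix
import Pool.Agent.Lib.DT.H3.Gd
import Pool.Agent.Lib.DT.H3.HN
import Pool.Agent.Lib.DT.H3.Hom
import Pool.Agent.Lib.DT.H3.Inr
import Pool.Agent.Lib.DT.H3.KK
import Pool.Agent.Lib.DT.H3.La
import Pool.Agent.Lib.DT.H3.Lat
import Pool.Agent.Lib.DT.H3.NmK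
import Pool.Agent.Lib.DT.H3.Nrm
import Pool.Agent.Lib.DT.H3.Pri
import Pool.Agent.Lib.DT.H3.Ram
import Pool.Agent.Lib.DT.H3.Rdm
import Pool.Agent.Lib.DT.H3.Res
import Pool.Agent.Lib.DT.H3.T3
import Pool.Agent.Lib.DT.H3.TP
import Pool.Agent.Lib.DT.H3.Tra
import Pool.Agent.Lib.DT.H3.Uni
import Pool.Agent.Lib.DT.H3.Unr
import Pool.Agent.Lib.DT.H3.Zp
import Pool.Agent.Lib.DT.H3.Zt

/-!
# Theorem DT, part H: `S_H`
-/

set_option autoImplicit false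

namespace Pool.Agent.DT.H3

open Pool.Agent.MuZ Pool.Agent.FW Pool.Agent.DT

/-- The statements of the other parts used in part H. -/
structure HIn : Prop where
  b1 : S_B1
  b7 : S_B7
  r4 : S_R4
  d3 : S_D3
  d4 : S_D4
  d5 : S_D5
  d6 : S_D6
  d7 : S_D7
  d8 : S_D8
  e1 : S_E1
  e2 : S_E2
  e4 : S_E4
  e8 : S_E8
  e10 : S_E10
  gm : S_GM
  g3 : S_G3

/-- Theorem H, abstract form. -/
theorem aTH : S_pTH := pTH (pQu Pool.Agent.FW.rec (pSel pFl) pKa pRel) pKa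

/-- The element `k`. -/
theorem aKap : S_pKap := pKap pH9 pUn pRa

/-- The congruence for the Frobenius element. -/
theorem aLeg : S_pLeg := pLeg pKa

/-- **Part H (Theorem H).** -/
theorem aH (I : HIn) : S_H := by
  have aRdm := tRdm
  have aCb := tCb
  have aHN := tHN aO4 aO6
  have aTP := tTP aHN
  have aT3 := tT3 aO4 aHN
  have aPri := tPri aHN
  have aDg := tDg aO2 aRdm
  have aLa := tLa aO2
  have aLat := tLat aO6 aRdm
  have aZp := tZp aO4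
  have aGd := tGd aO4 aO6 aZp
  have aZt := tZt pKa
  have aFix := tFix aO7 I.e1 I.gm aPri aZt
  have aEps := tEps aO6 I.e10 I.d8 aCb aRdm aHN aTP aDg aLat aZp
  have aUni := tUni aO6 I.d5 aHN aDg aGd
  have aCst := tCst aO6 I.d7 I.d8 I.e10 aCb aRdm aHN aDg aLat aZp aFix aUni
  have aNrm := tNrm I.d8 I.g3 aCb aHN aTP aZp aUni
  have aCng := tCng aO6 I.d3 I.d6 aCb aDg aLat aUni
  have aHom := tHom aO6 aO7 I.e1 I.e8 aCb aRdm aHN aFix
  have aUnr := tUnr I.b1 I.r4 I.e4 aO6 aCb aRdm aDg aLat aFix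
  have aInr := tInr I.gm aZt aDg aFix
  have aTra := tTra tNmK
  have aRam := tRam I.b1 I.b7 I.d4 aO6 aCb aRdm aDg aLat aFix
  have aRes := tRes aO2 aO6 I.e2 aLa aPri aT3 tAlR aFix aDg aEps aUni aCst aNrm aCng aHom aUnr
    aInr aTra aRam
  have aKK := tKK I.g3 aZt aFix aKap aLeg aRes
  exact tAsm I.g3 aZt aFix aTH aKK

end Pool.Agent.DT.H3
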