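import Pool.Agent.Lib.DT.G.AllD
import Pool.Agent.Lib.DT.H3.All

/-!
# Theorem DT, part H without hypotheses: `bH : S_H` (author helper9)
-/

set_option autoImplicit false

namespace Pool.Agent.DT.H3

open Pool.Agent.MuZ Pool.Agent.FW Pool.Agent.DT

/-- The inputs of part H. -/
theorem bHIn : HIn where
  b1 := hB.b1
  b7 := hB.b7
  r4 := DT.aR4 hB
  d3 := aD3 hB
  d4 := aD4 hB
  d5 := aD5 hB
  d6 := aD6 hB
  d7 := aD7 hB
  d8 := aD8 hB
  e1 := aE1 hB
  e2 := aE2 hB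
  e4 := aE4 hB
  e8 := aE8 hB
  e10 := aE10 hB
  gm := G.bGM
  g3 := G.bG3

/-- **Part H (Theorem H), without hypotheses.** -/
theorem bH : S_H := aH bHIn

end Pool.Agent.DT.H3
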