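import Pool.Agent.Lib.DT.H3.Spec
import Pool.Agent.Lib.DI.T.AsmH

set_option autoImplicit false

/-!
# Theorem DT, part H, module `Asm`: the assembly of Theorem H
-/

open scoped Pointwise nonZeroDivisors

noncomputable section

namespace Pool.Agent.DT.H3

open Pool.Agent.MuZ Pool.Agent.FW NumberField IsDedekindDomain
open Pool.Agent.DI (io ofC io_inj exists_io io_ofC ofC_io VP MP UP TP ex)
open Pool.Agent.DT

theorem tAsm (h1 : S_G3) (h2 : S_hZt) (h3 : S_hFix) (h4 : S_pTH) (h5 : S_hKK) : S_hAsm := by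
  intro k t _ f m N T hF hN hT b hb0 hb g hg P d hP hP3 hdP hdF Sg hSgK hSgex hSguni τ hτ
  have hf : Fok f := hF.toFok
  obtain ⟨hfin, hzF, -, -, hstab, -, -⟩ := h3 k t f N hf hN
  have hnf : NumberField (Mn k t f N) := NumberField.mk
  have hz : IsPrimitiveRoot (zet 3) 3 := h2.1
  obtain ⟨huF, hu0, -⟩ := h1 k t f m N T hF hN hT b hb0 hb
  obtain ⟨M, hM, hTh⟩ := h5 k t f N m T b hF hN hT hb0 hb Sg hSgK hSgex
  have hPp := hP.1
  have h3P : ((3 : ℕ) : ZZ) ∈ P := by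
    have e := DI.MP.nat_iff (P := P) 3
    push_cast at e ⊢
    exact e.1 hP3
  have hfixF : ∀ x ∈ Mn k t f N, d x = x := (IntermediateField.mem_fixingSubgroup_iff _ _).1 hdF
  have key := h4 3 (by norm_num) (Mn k t f N) Sg (uN f N m T b) (zet 3) M
    (fun σ hσ => hstab σ (hSgK σ hσ)) (fun σ hσ τ' hτ' e => hSguni σ hσ τ' hτ' ?_) huF hu0 hz hzF
    hM hTh g hg P hP.1 h3P d (DI.stab_of_le hP hdP) hdF τ hτ
  · rw [← key]
    refine Finset.sum_congr rfl fun s hs => ?_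
    rw [h2.2 (s⁻¹ (uN f N m T b)) d ?_ (hfixF _ (hstab s⁻¹ ((GK k t).inv_mem (hSgK s hs)) _ huF))
      (hfixF _ hzF)]
    intro h0
    exact hu0 ((map_eq_zero_iff _ (s⁻¹ : Gal(Om/ℚ)).injective).1 h0)
  · rintro ⟨x, hx⟩
    change (σ⁻¹ * τ') x = x
    rw [AlgEquiv.mul_apply, ← e x hx, ← AlgEquiv.mul_apply, inv_mul_cancel]
    rfl

end Pool.Agent.DT.H3
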